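import Pool.Agent.H48.M32.Thick

/-!
# Cells at which all words of a given length recur
-/

set_option autoImplicit false

namespace Pool.Agent.H48.M32

open Filter Topology Set
open Pool.Agent.H48.CBR

theorem At_shift {O : Set XX} {c : XX} {p i : ℤ} (h : At O (S23.a (p, p) c) i) : At O c (i + p) := by
  refine h.mono fun t ht => ?_
  have h1 : S23.a (i - t, i + t) (S23.a (p, p) c) ∈ O := ht
  rw [a_a] at h1
  have h2 : ((i - t + p, i + t + p) : ℤ × ℤ) = (i + p - t, i + p + t) := by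
    ext <;> simp only <;> ring
  rw [h2] at h1
  exact h1

/-- finitely many open sets are visited infinitely often at one common cell -/
theorem allAt {ι : Type} [DecidableEq ι] (O : ι → Set XX) (hO : ∀ w, IsOpen (O w)) (hne : ∀ w, (O w).Nonempty)
    (s : Finset ι) : ∃ M : ℕ, ∀ (c : XX) (V : ℝ), IsV c V → 0 < V → ∃ i : ℤ, |i| ≤ M ∧ ∀ w ∈ s, At (O w) c i := by
  induction s using Finset.induction_on with
  | empty => exact ⟨0, fun c V _ _ => ⟨0, by simp, by simp⟩⟩
  | insert w s _ ih =>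
    obtain ⟨M, hM⟩ := ih
    obtain ⟨R, hR⟩ := thick (hO w) (hne w) (2 * M)
    refine ⟨R + 2 * M, fun c V hV hpos => ?_⟩
    obtain ⟨i, hi, hit⟩ := hR c V hV hpos
    obtain ⟨i', hi', hi't⟩ := hM _ _ (hV.diag (i + M)) (by positivity)
    rw [abs_le] at hi hi'
    refine ⟨i' + (i + M), ?_, ?_⟩
    · rw [abs_le]
      push_cast
      constructor <;> omega
    · intro w' hw'
      rw [Finset.mem_insert] at hw'
      rcases hw' with rfl | hw'
      · have h1 := hit (i' + M).toNat (by omega)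
        rw [Int.toNat_of_nonneg (by omega)] at h1
        rw [show i' + (i + (M : ℤ)) = i + (i' + M) by ring]
        exact h1
      · exact At_shift (hi't w' hw')

theorem allWords (L : ℕ) : ∃ M : ℕ, ∀ x : ℤ → Fin 6, x ≠ 0 → (∃ m : ℤ, ∀ i < m, x i = 0) → ∀ c : ℤ,
    ∃ j : ℤ, c ≤ j ∧ j ≤ c + M ∧ ∀ w : Fin L → Fin 6, {t : ℕ | Shows (F32^[t] x) w j}.Infinite := by
  classical
  set O : (Fin L → Fin 6) → Set XX := fun w => {z | ∀ s : Fin L, z.1 (s : ℕ) (s : ℕ) = w s} with hO
  have hOo : ∀ w, IsOpen (O w) := by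
    intro w
    have : O w = ⋂ s : Fin L, {z : XX | z.1 (s : ℕ) (s : ℕ) = w s} := by
      ext z
      simp [hO]
    rw [this]
    exact isOpen_iInter_of_finite fun s => (isOpen_discrete ({w s} : Set (Fin 6))).preimage (cont_eval _ _)
  have hne : ∀ w, (O w).Nonempty := by
    intro w
    refine ⟨ext fun i => if h : i.toNat < L then w ⟨i.toNat, h⟩ else 0, fun s => ?_⟩
    rw [ext_diag]
    simp
  obtain ⟨M, hM⟩ := allAt O hOo hne Finset.univ
  refine ⟨2 * M, fun x hx hl c => ?_⟩
  obtain ⟨m, hm⟩ := hl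
  obtain ⟨V, hV, hIV⟩ := ext_isV (x := fun i => x (i + (c + M))) (by
      intro h
      apply hx
      funext i
      have := congrFun h (i - (c + M))
      simpa using this) ⟨m - (c + M), fun i hi => hm _ (by omega)⟩
  obtain ⟨i, hi, hall⟩ := hM _ V hIV hV
  rw [abs_le] at hi
  refine ⟨i + (c + M), by omega, by push_cast; omega, fun w => (hall w (Finset.mem_univ w)).mono ?_⟩
  intro t ht s
  have h1 := ht s
  rw [S23_apply] at h1
  have h2 := F32_iter (fun i => x (i + (c + M))) t (i + (s : ℕ))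
  rw [F32_iter_shift] at h2
  simp only at h1 h2
  rw [← h1]
  rw [show i - (t : ℤ) + (s : ℕ) = i + (s : ℕ) - t by ring, show i + (t : ℤ) + (s : ℕ) = i + (s : ℕ) + t by ring, ← h2]
  rw [show i + (c + M) + ((s : ℕ) : ℤ) = i + (s : ℕ) + (c + M) by ring]

end Pool.Agent.H48.M32
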