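import Pool.Agent.H48.M32.Ext

/-!
# Orbits of base-6 expansions of integers and powers of `3 / 2` modulo one
-/

set_option autoImplicit false

namespace Pool.Agent.H48.M32

open Filter Topology Set
open Pool.Agent.H847R3.XpXq
open Pool.Agent.H48.CBR

/-- the base-6 expansion of `b`: the cell `i ≤ 0` holds the digit of `6 ^ (-i)` -/
def cfg (b : ℕ) : ℤ → Fin 6 := fun i => if i ≤ 0 then ⟨b / 6 ^ (-i).toNat % 6, Nat.mod_lt _ (by norm_num)⟩ else 0

theorem cfg_neg (b n : ℕ) : (cfg b (-n) : ℕ) = b / 6 ^ n % 6 := by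
  unfold cfg
  rw [if_pos (by omega)]
  simp

theorem cfg_pos (b : ℕ) {i : ℤ} (hi : 0 < i) : cfg b i = 0 := by
  unfold cfg
  rw [if_neg (by omega)]

theorem cfg_EE (b n : ℕ) : 6 ^ n * EE (ext (cfg b)).1 (-n) (-n) = ((b % 6 ^ (n + 1) : ℕ) : ℝ) / 6 := by
  induction n with
  | zero =>
    have h1 := EE_step (ext (cfg b)).1 0 0
    have h2 : EE (ext (cfg b)).1 (0 + 1) (0 + 1) = 0 := by
      unfold EE
      convert tsum_zero with k
      rw [ext_diag, cfg_pos b (by omega)]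
      simp
    rw [h2, ext_diag] at h1
    have h3 := cfg_neg b 0
    simp only [Nat.cast_zero, neg_zero, pow_zero, Nat.div_one] at h3 ⊢
    rw [h3] at h1
    simp only [zero_add, pow_one]
    linarith
  | succ n ih =>
    have h1 := EE_step (ext (cfg b)).1 (-((n + 1 : ℕ) : ℤ)) (-((n + 1 : ℕ) : ℤ))
    have e : -((n + 1 : ℕ) : ℤ) + 1 = -n := by push_cast; ring
    rw [e, ext_diag, cfg_neg] at h1
    rw [pow_succ, mul_assoc, h1, mul_add, ih, Nat.mod_pow_succ (b := 6) (k := n + 1)]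
    push_cast
    ring

theorem cfg_isV (b : ℕ) : IsV (ext (cfg b)) (b / 6) := by
  have hlt : ∀ n : ℕ, b ≤ n → b < 6 ^ n := fun n hn =>
    (hn.trans_lt (Nat.lt_pow_self (by norm_num)))
  refine ⟨b, fun n hn => ⟨?_, ?_⟩⟩
  · rw [ext_diag, cfg_neg, Nat.div_eq_of_lt (hlt n hn)]
  · rw [cfg_EE, Nat.mod_eq_of_lt (hlt (n + 1) (by omega))]

theorem IsV.up {c : XX} {V : ℝ} (h : IsV c V) : IsV (S23.a (1, 1) c) (6 * V) := by
  obtain ⟨n0, h0⟩ := h
  refine ⟨n0 + 1, fun n hn => ?_⟩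
  obtain ⟨m, rfl⟩ : ∃ m, n = m + 1 := ⟨n - 1, by omega⟩
  have e : (1 : ℤ) + -((m + 1 : ℕ) : ℤ) = -m := by push_cast; ring
  obtain ⟨h1, h2⟩ := h0 m (by omega)
  constructor
  · rw [S23_apply]
    simp only
    rw [e, h1]
  · rw [EE_a]
    simp only
    rw [e, pow_succ, ← h2]
    ring

theorem IsV.down {c : XX} {V : ℝ} (h : IsV c V) : IsV (S23.a (-1, -1) c) (V / 6) := by
  obtain ⟨n0, h0⟩ := h
  refine ⟨n0, fun n hn => ?_⟩
  have e : (-1 : ℤ) + -(n : ℤ) = -((n + 1 : ℕ) : ℤ) := by push_cast; ring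
  obtain ⟨h1, h2⟩ := h0 (n + 1) (by omega)
  constructor
  · rw [S23_apply]
    simp only
    rw [e, h1]
  · rw [EE_a]
    simp only
    rw [e, ← h2, pow_succ]
    ring

theorem IsV.diag {x : XX} {V : ℝ} (h : IsV x V) (c : ℤ) : IsV (S23.a (c, c) x) (6 ^ c * V) := by
  induction c using Int.induction_on with
  | zero =>
    rw [show ((0 : ℤ), (0 : ℤ)) = (0 : ℤ × ℤ) from rfl, S23.zero]
    simpa using h
  | succ n ih =>
    have h1 := ih.up
    rw [← S23.add] at h1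
    have e : ((1 : ℤ), (1 : ℤ)) + ((n : ℤ), (n : ℤ)) = ((n : ℤ) + 1, (n : ℤ) + 1) := by
      ext <;> simp <;> ring
    rw [e] at h1
    convert h1 using 1
    rw [zpow_add₀ (by norm_num), zpow_one]
    ring
  | pred n ih =>
    have h1 := ih.down
    rw [← S23.add] at h1
    have e : ((-1 : ℤ), (-1 : ℤ)) + (-(n : ℤ), -(n : ℤ)) = (-(n : ℤ) - 1, -(n : ℤ) - 1) := by
      ext <;> simp <;> ring
    rw [e] at h1
    convert h1 using 1
    rw [zpow_sub₀ (by norm_num), zpow_one]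
    ring

theorem EE_cfg (b : ℕ) (c : ℤ) (t : ℕ) : ((EE (ext (cfg b)).1 (c - t) (c + t) : ℝ) : TT) =
    (((3 / 2) ^ t * (6 ^ c * (b / 6)) : ℝ) : TT) := by
  obtain ⟨N, hN⟩ := (((cfg_isV b).diag c).iter t).int
  rw [hN, EE_a, EE_a]
  have e1 : c + (-(t : ℤ) + 0) = c - t := by ring
  have e2 : c + ((t : ℤ) + 0) = c + t := by ring
  simp only
  rw [e1, e2, AddCircle.coe_add]
  have : (((N : ℤ) : ℝ) : TT) = 0 := by
    rw [AddCircle.coe_eq_zero_iff]
    exact ⟨N, by simp⟩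
  rw [this, zero_add]

/-- prescribing the first digits by an open interval -/
theorem exists_int (K : ℕ) : ∀ d : ℕ → Fin 6, ∃ lo : ℝ, 0 ≤ lo ∧ lo + 1 / 6 ^ K ≤ 1 ∧
    ∀ (c : ℤ → ℤ → Fin 6) (i j : ℤ), lo < EE c i j → EE c i j < lo + 1 / 6 ^ K →
      ∀ k < K, c (i + k) (j + k) = d k := by
  induction K with
  | zero => exact fun d => ⟨0, le_rfl, by norm_num, fun c i j _ _ k hk => absurd hk (by omega)⟩
  | succ K ih =>
    intro d
    obtain ⟨lo, h0, h1, h⟩ := ih fun k => d (k + 1)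
    have hd := dig_le (d 0)
    have hd0 : (0 : ℝ) ≤ ((d 0 : ℕ) : ℝ) := by positivity
    have e6 : (1 : ℝ) / 6 ^ (K + 1) = (1 / 6 ^ K) / 6 := by
      rw [pow_succ]
      field_simp
    refine ⟨((d 0 : ℕ) + lo) / 6, by positivity, by rw [e6]; linarith, ?_⟩
    intro c i j hlo hhi
    rw [e6] at hhi
    have h2 := EE_step c i j
    have n1 := EE_nonneg c (i + 1) (j + 1)
    have n2 := EE_le_one c (i + 1) (j + 1)
    have hp : (0 : ℝ) < 1 / 6 ^ K := by positivity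
    have h4 : (c i j : ℕ) = (d 0 : ℕ) := by
      rcases lt_trichotomy (c i j : ℕ) (d 0 : ℕ) with h5 | h5 | h5
      · have : ((c i j : ℕ) : ℝ) + 1 ≤ (d 0 : ℕ) := by exact_mod_cast h5
        linarith
      · exact h5
      · have : ((d 0 : ℕ) : ℝ) + 1 ≤ (c i j : ℕ) := by exact_mod_cast h5
        linarith
    rw [h4] at h2
    intro k hk
    rcases k with _ | k
    · simpa using Fin.ext h4
    · have := h c (i + 1) (j + 1) (by linarith) (by linarith) k (by omega)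
      have e1 : i + ((k + 1 : ℕ) : ℤ) = i + 1 + k := by push_cast; ring
      have e2 : j + ((k + 1 : ℕ) : ℤ) = j + 1 + k := by push_cast; ring
      rw [e1, e2, this]

/-- a word of the orbit is read off from the fractional part -/
theorem shows_of (L : ℕ) : ∃ ρ : ℝ, 0 < ρ ∧ ∀ w : Fin L → Fin 6, ∃ y : TT, ∀ (b : ℕ) (c : ℤ) (t : ℕ),
    ‖(((3 / 2) ^ t * (6 ^ c * (b / 6)) : ℝ) : TT) - y‖ < ρ → Shows (F32^[t] (cfg b)) w c := by
  refine ⟨1 / 6 ^ L / 2, by positivity, fun w => ?_⟩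
  obtain ⟨lo, h0, h1, h⟩ := exists_int L fun k => if hk : k < L then w ⟨k, hk⟩ else 0
  set ρ : ℝ := 1 / 6 ^ L / 2 with hρ
  have hρ2 : (1 : ℝ) / 6 ^ L = 2 * ρ := by rw [hρ]; ring
  have hρ0 : 0 < ρ := by positivity
  refine ⟨((lo + ρ : ℝ) : TT), fun b c t hd => ?_⟩
  rw [← EE_cfg, ← AddCircle.coe_sub, UnitAddCircle.norm_eq] at hd
  set u : ℝ := EE (ext (cfg b)).1 (c - t) (c + t) with hu
  have n1 : 0 ≤ u := EE_nonneg _ _ _
  have n2 : u ≤ 1 := EE_le_one _ _ _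
  set n : ℤ := round (u - (lo + ρ)) with hn
  rw [abs_lt] at hd
  have hn1 : (n : ℝ) < 1 := by linarith
  have hn2 : (-1 : ℝ) < n := by linarith
  have hn1' : n < 1 := by exact_mod_cast hn1
  have hn2' : -1 < n := by exact_mod_cast hn2
  have hn0 : n = 0 := by omega
  rw [hn0] at hd
  simp only [Int.cast_zero, sub_zero] at hd
  have hd' := h (ext (cfg b)).1 (c - t) (c + t) (by linarith) (by linarith)
  intro s
  rw [F32_iter]
  have := hd' s s.2
  rw [dif_pos s.2] at this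
  rw [show c + ((s : ℕ) : ℤ) - t = c - t + (s : ℕ) by ring, show c + ((s : ℕ) : ℤ) + t = c + t + (s : ℕ) by ring]
  exact this

end Pool.Agent.H48.M32
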