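import Pool.Agent.H48.M32.Win

/-!
# Recurrence in every long dyadic interval of times
-/

set_option autoImplicit false

namespace Pool.Agent.H48.M32

open Filter Topology Set
open Pool.Agent.H48.CBR

theorem stepEE (z : XX) (n : ℕ) : 2 * EE z.1 (-((n + 1 : ℕ) : ℤ)) ((n + 1 : ℕ) : ℤ) = 3 * EE z.1 (-n) n -
    (((z.1 (-n) n : ℕ) / 2 : ℕ) : ℝ) +
    (((z.1 (-((n + 1 : ℕ) : ℤ)) ((n + 1 : ℕ) : ℤ) : ℕ) / 3 : ℕ) : ℝ) := by
  have h1 := EE_two z.2 (-((n + 1 : ℕ) : ℤ)) ((n + 1 : ℕ) : ℤ)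
  have h2 := EE_three z.2 (-n) n
  have e : -((n + 1 : ℕ) : ℤ) + 1 = -n := by push_cast; ring
  have e2 : ((n + 1 : ℕ) : ℤ) = (n : ℤ) + 1 := by push_cast; ring
  rw [e] at h1
  rw [← e2] at h2
  linarith

/-- the digits at one cell cannot agree for long with those of a periodic configuration -/
theorem quant {c y : XX} {V : ℝ} (hV : IsV c V) {k : ℕ} (hper : S23.a (-k, k) y = y) (n0 l : ℕ)
    (hag : ∀ m : ℕ, m ≤ l → c.1 (-((n0 + m : ℕ) : ℤ)) ((n0 + m : ℕ) : ℤ) = y.1 (-m) m) (hl : k + 6 ≤ l)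
    (hD : 2 ≤ (3 / 2 : ℝ) ^ n0 * (((3 / 2) ^ k - 1) * V)) :
    (2 : ℝ) ^ (l - k - 6) ≤ (3 / 2 : ℝ) ^ n0 * (((3 / 2) ^ k - 1) * V) + 1 := by
  set u : ℕ → ℝ := fun m => EE c.1 (-((n0 + m : ℕ) : ℤ)) ((n0 + m : ℕ) : ℤ) with hu
  set v : ℕ → ℝ := fun m => EE y.1 (-m) m with hv
  have hdiff : ∀ m, m + 1 ≤ l → u m - v m = 2 / 3 * (u (m + 1) - v (m + 1)) := by
    intro m hm
    have h1 := stepEE c (n0 + m)
    have h2 := stepEE y m
    have h3 := hag m (by omega)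
    have h4 := hag (m + 1) hm
    rw [← add_assoc] at h4
    rw [h3, h4] at h1
    simp only [hu, hv, ← add_assoc]
    linarith
  have hback : ∀ j m, m + j ≤ l → |u m - v m| ≤ (2 / 3) ^ j := by
    intro j
    induction j with
    | zero =>
      intro m _
      have h1 := EE_nonneg c.1 (-((n0 + m : ℕ) : ℤ)) ((n0 + m : ℕ) : ℤ)
      have h2 := EE_le_one c.1 (-((n0 + m : ℕ) : ℤ)) ((n0 + m : ℕ) : ℤ)
      have h3 := EE_nonneg y.1 (-m) m
      have h4 := EE_le_one y.1 (-m) m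
      rw [pow_zero, abs_le]
      simp only [hu, hv]
      constructor <;> linarith
    | succ j ih =>
      intro m hm
      rw [hdiff m (by omega), abs_mul, pow_succ, mul_comm, abs_of_pos (by norm_num : (0 : ℝ) < 2 / 3)]
      exact mul_le_mul_of_nonneg_right (ih (m + 1) (by omega)) (by norm_num)
  have hvper : ∀ m, v (m + k) = v m := by
    intro m
    have h1 : EE (S23.a (-k, k) y).1 (-m) m = EE y.1 (-m) m := by rw [hper]
    rw [EE_a] at h1
    simp only [hv]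
    rw [← h1]
    congr 1
    · push_cast; ring
    · push_cast; ring
  have hN : ∀ m : ℕ, ∃ N : ℤ, (3 / 2 : ℝ) ^ (n0 + m) * V = N + u m := by
    intro m
    obtain ⟨N, hN⟩ := (hV.iter (n0 + m)).int
    rw [EE_a, add_zero, add_zero] at hN
    exact ⟨N, hN⟩
  choose N hN using hN
  set E : ℕ → ℤ := fun m => N (m + k) - N m with hE
  set D : ℝ := (3 / 2 : ℝ) ^ n0 * (((3 / 2) ^ k - 1) * V) with hDd
  have hDm : ∀ m, (3 / 2 : ℝ) ^ m * D = E m + (u (m + k) - u m) := by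
    intro m
    have h1 := hN (m + k)
    have h2 := hN m
    rw [← add_assoc, pow_add, pow_add] at h1
    rw [pow_add] at h2
    simp only [hE, hDd]
    push_cast
    linarith
  have he : ∀ j m, m + k + j ≤ l → |u (m + k) - u m| ≤ 2 * (2 / 3) ^ j := by
    intro j m hm
    have h1 := hback j (m + k) hm
    have h2 := hback (j + k) m (by omega)
    have h3 : ((2 : ℝ) / 3) ^ (j + k) ≤ (2 / 3) ^ j := by
      rw [pow_add]
      exact mul_le_of_le_one_right (by positivity) (pow_le_one₀ (by norm_num) (by norm_num))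
    have h4 : u (m + k) - u m = (u (m + k) - v (m + k)) - (u m - v m) := by rw [hvper]; ring
    rw [h4]
    refine (abs_sub _ _).trans ?_
    linarith
  have hstep : ∀ m, m + 1 + k + 6 ≤ l → 2 * E (m + 1) = 3 * E m := by
    intro m hm
    have h1 := hDm m
    have h2 := hDm (m + 1)
    have h3 := he 7 m (by omega)
    have h4 := he 6 (m + 1) (by omega)
    rw [pow_succ] at h2
    rw [abs_le] at h3 h4
    norm_num at h3 h4
    have h5 : ((2 * E (m + 1) - 3 * E m : ℤ) : ℝ) = 3 * (u (m + k) - u m) - 2 * (u (m + 1 + k) - u (m + 1)) := by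
      push_cast
      linarith
    have h6 : ((2 * E (m + 1) - 3 * E m : ℤ) : ℝ) < 1 := by rw [h5]; linarith
    have h7 : (-1 : ℝ) < ((2 * E (m + 1) - 3 * E m : ℤ) : ℝ) := by rw [h5]; linarith
    have h6' : 2 * E (m + 1) - 3 * E m < 1 := by exact_mod_cast h6
    have h7' : -1 < 2 * E (m + 1) - 3 * E m := by exact_mod_cast h7
    omega
  have hpow : ∀ q, q + k + 6 ≤ l → (2 : ℤ) ^ q * E q = 3 ^ q * E 0 := by
    intro q
    induction q with
    | zero => intro _; simp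
    | succ q ih =>
      intro hq
      have h1 := ih (by omega)
      have h2 := hstep q hq
      rw [pow_succ, pow_succ, mul_assoc, h2]
      linear_combination 3 * h1
  have hdvd : (2 : ℤ) ^ (l - k - 6) ∣ E 0 := by
    have h1 := hpow (l - k - 6) (by omega)
    have h2 : (2 : ℤ) ^ (l - k - 6) ∣ 3 ^ (l - k - 6) * E 0 := ⟨_, h1.symm⟩
    have hcop : IsCoprime ((2 : ℤ) ^ (l - k - 6)) (3 ^ (l - k - 6)) := by
      apply IsCoprime.pow
      rw [Int.isCoprime_iff_gcd_eq_one]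
      rfl
    exact hcop.dvd_of_dvd_mul_left h2
  have h0 := hDm 0
  have he0 := he 6 0 (by omega)
  rw [abs_le] at he0
  norm_num at he0 h0
  have hpos : (0 : ℝ) < (E 0 : ℝ) := by linarith
  have hpos' : 0 < E 0 := by exact_mod_cast hpos
  have h8 : (2 : ℤ) ^ (l - k - 6) ≤ E 0 := Int.le_of_dvd hpos' hdvd
  have h9 : (2 : ℝ) ^ (l - k - 6) ≤ (E 0 : ℝ) := by exact_mod_cast h8
  linarith

/-- a common period -/
theorem exists_period {Y : Set XX} (hYf : Y.Finite) (hGY : ∀ y ∈ Y, S23.a (-1, 1) y ∈ Y) :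
    ∃ k : ℕ, 1 ≤ k ∧ ∀ y ∈ Y, S23.a (-k, k) y = y := by
  have hit : ∀ (n : ℕ), ∀ y ∈ Y, S23.a (-n, n) y ∈ Y := by
    intro n
    induction n with
    | zero =>
      intro y hy
      have h0 : (-((0 : ℕ) : ℤ), ((0 : ℕ) : ℤ)) = (0 : ℤ × ℤ) := by simp
      rw [h0, S23.zero]
      exact hy
    | succ n ih =>
      intro y hy
      have h1 := hGY _ (ih y hy)
      rw [comp_a] at h1
      have e : ((-1 + -(n : ℤ), 1 + (n : ℤ)) : ℤ × ℤ) = (-((n + 1 : ℕ) : ℤ), ((n + 1 : ℕ) : ℤ)) := by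
        ext <;> push_cast <;> ring
      rw [e] at h1
      exact h1
  have hk : ∀ y ∈ Y, ∃ k : ℕ, 1 ≤ k ∧ S23.a (-k, k) y = y := by
    intro y hy
    obtain ⟨a, b, hab, heq⟩ : ∃ a b : ℕ, a < b ∧ S23.a (-a, a) y = S23.a (-b, b) y := by
      by_contra hno
      push Not at hno
      have hinj : Function.Injective fun n : ℕ => S23.a (-n, n) y := by
        intro a b hab
        rcases lt_trichotomy a b with h | h | h
        · exact absurd hab (hno a b h)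
        · exact h
        · exact absurd hab.symm (hno b a h)
      exact (infinite_range_of_injective hinj) (hYf.subset (range_subset_iff.2 fun n => hit n y hy))
    refine ⟨b - a, by omega, ?_⟩
    have h1 := congrArg (S23.a (a, -a)) heq
    rw [comp_a, comp_a] at h1
    have e1 : (((a : ℤ) + -(a : ℤ), -(a : ℤ) + (a : ℤ)) : ℤ × ℤ) = 0 := by ext <;> simp
    have e2 : (((a : ℤ) + -(b : ℤ), -(a : ℤ) + (b : ℤ)) : ℤ × ℤ) = (-((b - a : ℕ) : ℤ), ((b - a : ℕ) : ℤ)) := by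
      ext
      · simp only
        omega
      · simp only
        omega
    rw [e1, e2, S23.zero] at h1
    exact h1.symm
  choose! κ hκ1 hκ using hk
  refine ⟨∏ y ∈ hYf.toFinset, κ y, Nat.succ_le_iff.2 (Finset.prod_pos fun y hy => Nat.succ_le_iff.1
    (hκ1 y (hYf.mem_toFinset.1 hy))), fun y hy => ?_⟩
  obtain ⟨q, hq⟩ := Finset.dvd_prod_of_mem κ (hYf.mem_toFinset.2 hy)
  rw [hq]
  clear hq
  induction q with
  | zero =>
    have h0 : (-((κ y * 0 : ℕ) : ℤ), ((κ y * 0 : ℕ) : ℤ)) = (0 : ℤ × ℤ) := by simp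
    rw [h0, S23.zero]
  | succ q ih =>
    have e : (-((κ y * (q + 1) : ℕ) : ℤ), ((κ y * (q + 1) : ℕ) : ℤ)) =
        ((-((κ y * q : ℕ) : ℤ) + -((κ y : ℕ) : ℤ), ((κ y * q : ℕ) : ℤ) + ((κ y : ℕ) : ℤ)) : ℤ × ℤ) := by
      ext <;> push_cast <;> ring
    rw [e, ← comp_a, hκ y hy, ih]

/-- **recurrence in every long dyadic interval of times** -/
theorem mainQ {O : Set XX} (hO : IsOpen O) (hne : O.Nonempty) : ∃ M : ℕ, ∀ (c : XX) (V : ℝ), IsV c V → 0 < V →
    ∃ T₀ : ℕ, ∀ T : ℕ, T₀ ≤ T → ∃ i : ℤ, |i| ≤ M ∧ ∃ t : ℕ, T ≤ t ∧ t ≤ 2 * T ∧ S23.a (i - t, i + t) c ∈ O := by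
  set Y : Set XX := {x | ∀ i t : ℤ, S23.a (i - t, i + t) x ∉ O} with hYdef
  have hYf : Y.Finite := miss_finiteH hO hne
  have hGY : ∀ y ∈ Y, S23.a (-1, 1) y ∈ Y := by
    intro y hy i t
    rw [comp_a]
    have := hy i (t + 1)
    convert this using 3 <;> ring
  obtain ⟨k, hk1, hk⟩ := exists_period hYf hGY
  obtain ⟨R, hR⟩ := exists_sep hYf
  set U : Set XX := ⋃ y ∈ Y, {z | AgX (R + 1) z y} with hU
  have hUo : IsOpen U := isOpen_biUnion fun y _ => isOpen_agX _ _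
  obtain ⟨s, hs⟩ := hUo.isClosed_compl.isCompact.elim_finite_subcover
    (fun p : ℤ × ℤ => S23.a (p.1 - p.2, p.1 + p.2) ⁻¹' O) (fun p => hO.preimage (S23.cont _)) (by
      intro z hz
      by_contra hcon
      apply hz
      refine mem_iUnion₂.2 ⟨z, fun i t hit => hcon (mem_iUnion.2 ⟨(i, t), hit⟩), fun i j _ _ => rfl⟩)
  set M : ℕ := s.sup fun p => p.1.natAbs + p.2.natAbs with hM
  refine ⟨M, fun c V hV hpos => ?_⟩
  -- the size of `T`
  set A : ℝ := ((3 / 2) ^ k - 1) * V with hA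
  have hA0 : 0 < A := by
    have : (1 : ℝ) < (3 / 2) ^ k := one_lt_pow₀ (by norm_num) (by omega)
    exact mul_pos (by linarith) hpos
  have hev1 : ∀ᶠ T : ℕ in atTop, 2 ≤ (3 / 2 : ℝ) ^ (T + M) * A := by
    have h1 : Tendsto (fun T : ℕ => (3 / 2 : ℝ) ^ (T + M) * A) atTop atTop :=
      ((tendsto_pow_atTop_atTop_of_one_lt (by norm_num)).comp (tendsto_add_atTop_nat M)).atTop_mul_const hA0
    exact h1.eventually_ge_atTop 2
  have hev2 : ∀ᶠ T : ℕ in atTop, 2 ^ (2 * M + k + 6) * ((3 / 2 : ℝ) ^ (T + M) * A + 1) < 2 ^ T := by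
    have t1 := tendsto_pow_atTop_nhds_zero_of_lt_one (r := (3 / 4 : ℝ)) (by norm_num) (by norm_num)
    have t2 := tendsto_pow_atTop_nhds_zero_of_lt_one (r := (1 / 2 : ℝ)) (by norm_num) (by norm_num)
    have t3 : Tendsto (fun T : ℕ => 2 ^ (2 * M + k + 6) * ((3 / 2 : ℝ) ^ M * A) * (3 / 4 : ℝ) ^ T +
        2 ^ (2 * M + k + 6) * (1 / 2 : ℝ) ^ T) atTop
        (𝓝 (2 ^ (2 * M + k + 6) * ((3 / 2 : ℝ) ^ M * A) * 0 + 2 ^ (2 * M + k + 6) * 0)) :=
      (t1.const_mul _).add (t2.const_mul _)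
    rw [mul_zero, mul_zero, add_zero] at t3
    filter_upwards [t3.eventually_lt_const one_pos] with T hT
    have h2T : (0 : ℝ) < 2 ^ T := by positivity
    have h3 := mul_lt_mul_of_pos_right hT h2T
    have e1 : (3 / 4 : ℝ) ^ T * 2 ^ T = (3 / 2) ^ T := by rw [← mul_pow]; norm_num
    have e2 : (1 / 2 : ℝ) ^ T * 2 ^ T = 1 := by rw [← mul_pow]; norm_num
    have e3 : (2 ^ (2 * M + k + 6) * ((3 / 2 : ℝ) ^ M * A) * (3 / 4 : ℝ) ^ T +
        2 ^ (2 * M + k + 6) * (1 / 2 : ℝ) ^ T) * 2 ^ T = 2 ^ (2 * M + k + 6) * ((3 / 2 : ℝ) ^ M * A) *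
          ((3 / 4 : ℝ) ^ T * 2 ^ T) + 2 ^ (2 * M + k + 6) * ((1 / 2 : ℝ) ^ T * 2 ^ T) := by ring
    rw [e3, e1, e2, one_mul] at h3
    have e4 : 2 ^ (2 * M + k + 6) * ((3 / 2 : ℝ) ^ (T + M) * A + 1) =
        2 ^ (2 * M + k + 6) * ((3 / 2 : ℝ) ^ M * A) * (3 / 2 : ℝ) ^ T + 2 ^ (2 * M + k + 6) * 1 := by
      rw [pow_add (3 / 2 : ℝ) T M]; ring
    rw [e4]
    exact h3
  obtain ⟨T₀, hT₀⟩ := eventually_atTop.1 (hev1.and hev2)
  refine ⟨max T₀ (2 * M + k + 6), fun T hT => ?_⟩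
  obtain ⟨hT1, hT2⟩ := hT₀ T (by omega)
  by_contra hcon
  push Not at hcon
  have hin : ∀ n : ℕ, n ≤ T - 2 * M → ∃ y ∈ Y, AgX (R + 1) (S23.a (-((T + M + n : ℕ) : ℤ), ((T + M + n : ℕ) : ℤ)) c) y := by
    intro n hn
    by_contra hno
    have hz : S23.a (-((T + M + n : ℕ) : ℤ), ((T + M + n : ℕ) : ℤ)) c ∈ Uᶜ := by
      intro hzU
      obtain ⟨y, hy, hag⟩ := mem_iUnion₂.1 hzU
      exact hno ⟨y, hy, hag⟩
    obtain ⟨p, hp, hmem⟩ := mem_iUnion₂.1 (hs hz)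
    have hle : p.1.natAbs + p.2.natAbs ≤ M := Finset.le_sup (f := fun p : ℤ × ℤ => p.1.natAbs + p.2.natAbs) hp
    rw [mem_preimage, comp_a] at hmem
    obtain ⟨t, ht⟩ : ∃ t : ℕ, p.2 + ((T + M + n : ℕ) : ℤ) = t := ⟨(p.2 + ((T + M + n : ℕ) : ℤ)).toNat, by
      push_cast
      omega⟩
    refine hcon p.1 (by rw [abs_le]; omega) t (by push_cast at ht; omega) (by push_cast at ht; omega) ?_
    have e : ((p.1 - p.2 + -((T + M + n : ℕ) : ℤ), p.1 + p.2 + ((T + M + n : ℕ) : ℤ)) : ℤ × ℤ) =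
        (p.1 - t, p.1 + t) := by
      rw [← ht]
      ext <;> simp only <;> ring
    rw [e] at hmem
    exact hmem
  have hXne : Nonempty XX := ⟨c⟩
  choose! y hy hag using hin
  have hstep : ∀ n, n + 1 ≤ T - 2 * M → y (n + 1) = S23.a (-1, 1) (y n) := by
    intro n hn
    apply hR _ (hy _ hn) _ (hGY _ (hy _ (by omega)))
    have h1 := step_ag (hag n (by omega))
    have h2 := hag (n + 1) hn
    rw [comp_a] at h1
    have e : ((-1 + -((T + M + n : ℕ) : ℤ), 1 + ((T + M + n : ℕ) : ℤ)) : ℤ × ℤ) =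
        (-((T + M + (n + 1) : ℕ) : ℤ), ((T + M + (n + 1) : ℕ) : ℤ)) := by
      ext <;> push_cast <;> ring
    rw [e] at h1
    intro i j hi hj
    rw [← h1 i j hi hj, h2 i j (by omega) (by omega)]
  have hyn : ∀ n : ℕ, n ≤ T - 2 * M → y n = S23.a (-n, n) (y 0) := by
    intro n
    induction n with
    | zero =>
      intro _
      have h0 : (-((0 : ℕ) : ℤ), ((0 : ℕ) : ℤ)) = (0 : ℤ × ℤ) := by simp
      rw [h0, S23.zero]
    | succ n ih =>
      intro hn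
      rw [hstep n hn, ih (by omega), comp_a]
      congr 1
      ext <;> push_cast <;> ring
  have hq := quant hV (hk (y 0) (hy 0 (by omega))) (T + M) (T - 2 * M) (fun m hm => by
    have h1 := hag m hm 0 0 (by simp) (by simp)
    rw [hyn m hm, S23_apply, S23_apply] at h1
    simpa only [add_zero] using h1) (by omega) hT1
  have h3 : (2 : ℝ) ^ T = 2 ^ (2 * M + k + 6) * 2 ^ (T - 2 * M - k - 6) := by
    rw [← pow_add]
    congr 1
    omega
  rw [h3] at hT2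
  have h4 : (0 : ℝ) < 2 ^ (2 * M + k + 6) := by positivity
  have h5 := lt_of_mul_lt_mul_left hT2 h4.le
  linarith

end Pool.Agent.H48.M32
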