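import Pool.Agent.H48.M32.Syn

/-!
# From one-dimensional configurations to the `×2 ×3` system
-/

set_option autoImplicit false

namespace Pool.Agent.H48.M32

open Filter Topology Set
open Pool.Agent.H48.CBR

/-- the local rule -/
def f (s t : Fin 6) : Fin 6 := ⟨(3 * (s : ℕ)) % 6 + (3 * (t : ℕ)) / 6, by omega⟩

/-- multiplication by `3` in base `6` -/
def F3 (x : ℤ → Fin 6) : ℤ → Fin 6 := fun i => f (x i) (x (i + 1))

/-- multiplication by `3 / 2` in base `6` -/
def F32 (x : ℤ → Fin 6) : ℤ → Fin 6 := fun i => F3 (F3 x) (i - 1)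

/-- the word `w` stands at the cell `j` -/
def Shows {L : ℕ} (x : ℤ → Fin 6) (w : Fin L → Fin 6) (j : ℤ) : Prop :=
  ∀ s : Fin L, x (j + (s : ℕ)) = w s

/-- the inverse rule -/
def g (s t : Fin 6) : Fin 6 := ⟨(2 * (s : ℕ)) % 6 + (t : ℕ) / 3, by omega⟩

/-- the inverse of `F3` -/
def F3i (x : ℤ → Fin 6) : ℤ → Fin 6 := fun i => g (x (i - 1)) (x i)

theorem f_g (a b c : Fin 6) : f (g a b) (g b c) = b := by
  revert a b c
  decide

theorem g_f (a b c : Fin 6) : g (f a b) (f b c) = b := by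
  revert a b c
  decide

/-- `F3` as a permutation -/
def E3 : Equiv.Perm (ℤ → Fin 6) where
  toFun := F3
  invFun := F3i
  left_inv x := by
    funext i
    change g (f (x (i - 1)) (x (i - 1 + 1))) (f (x i) (x (i + 1))) = x i
    rw [sub_add_cancel, g_f]
  right_inv x := by
    funext i
    change f (g (x (i - 1)) (x i)) (g (x (i + 1 - 1)) (x (i + 1))) = x i
    rw [add_sub_cancel_right, f_g]

theorem E3_apply (x : ℤ → Fin 6) : E3 x = F3 x := rfl

theorem E3_symm (x : ℤ → Fin 6) : E3⁻¹ x = F3i x := rfl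

theorem f_val (a b : Fin 6) : (f a b : ℕ) = (3 * (a : ℕ) + (b : ℕ) / 2) % 6 := by
  revert a b
  decide

theorem g_val (a b : Fin 6) : (g a b : ℕ) = (2 * (a : ℕ) + (b : ℕ) / 3) % 6 := by
  revert a b
  decide

/-- the two-dimensional configuration -/
def ext (x : ℤ → Fin 6) : XX := ⟨fun i j => (E3 ^ (j - i)) x i, by
  intro i j
  have e1 : j - (i + 1) = -1 + (j - i) := by ring
  have e2 : j + 1 - (i + 1) = j - i := by ring
  have e3 : j + 1 - i = 1 + (j - i) := by ring
  beta_reduce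
  constructor
  · rw [e1, e2, zpow_add, zpow_neg_one, Equiv.Perm.mul_apply, E3_symm]
    change (g _ _ : ℕ) = _
    rw [g_val, add_sub_cancel_right]
  · rw [e2, e3, zpow_add, zpow_one, Equiv.Perm.mul_apply, E3_apply]
    change (f _ _ : ℕ) = _
    rw [f_val]⟩

theorem ext_apply (x : ℤ → Fin 6) (i j : ℤ) : (ext x).1 i j = (E3 ^ (j - i)) x i := rfl

theorem ext_diag (x : ℤ → Fin 6) (i : ℤ) : (ext x).1 i i = x i := by
  rw [ext_apply, sub_self, zpow_zero]
  rfl

theorem F3_shift (x : ℤ → Fin 6) (c : ℤ) : F3 (fun i => x (i + c)) = fun i => F3 x (i + c) := by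
  funext i
  change f (x (i + c)) (x (i + 1 + c)) = f (x (i + c)) (x (i + c + 1))
  rw [add_right_comm]

theorem F32_shift (x : ℤ → Fin 6) (c : ℤ) : F32 (fun i => x (i + c)) = fun i => F32 x (i + c) := by
  funext i
  unfold F32
  rw [F3_shift, F3_shift]
  simp only
  congr 1
  ring

theorem F32_iter_shift (x : ℤ → Fin 6) (c : ℤ) (t : ℕ) :
    F32^[t] (fun i => x (i + c)) = fun i => F32^[t] x (i + c) := by
  induction t with
  | zero => rfl
  | succ t ih => rw [Function.iterate_succ_apply', ih, F32_shift, Function.iterate_succ_apply']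

theorem F32_iter (x : ℤ → Fin 6) (t : ℕ) (i : ℤ) : F32^[t] x i = (ext x).1 (i - t) (i + t) := by
  have h : ∀ t : ℕ, F32^[t] x = fun i => (E3 ^ (2 * (t : ℤ))) x (i + -t) := by
    intro t
    induction t with
    | zero => simp
    | succ t ih =>
      rw [Function.iterate_succ_apply', ih]
      funext i
      unfold F32
      rw [F3_shift, F3_shift]
      have e : 2 * ((t + 1 : ℕ) : ℤ) = 1 + (1 + 2 * (t : ℤ)) := by push_cast; ring
      have e' : i - 1 + -(t : ℤ) = i + -((t + 1 : ℕ) : ℤ) := by push_cast; ring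
      rw [e, zpow_add, zpow_add, zpow_one, Equiv.Perm.mul_apply, Equiv.Perm.mul_apply, E3_apply, E3_apply]
      beta_reduce
      rw [e']
  rw [h t, ext_apply]
  simp only
  rw [show i + -(t : ℤ) = i - t by ring, show (i + t) - (i - t) = 2 * (t : ℤ) by ring]

/-- the number represented -/
theorem ext_isV {x : ℤ → Fin 6} (hx : x ≠ 0) (hl : ∃ m : ℤ, ∀ i < m, x i = 0) :
    ∃ V : ℝ, 0 < V ∧ IsV (ext x) V := by
  obtain ⟨m, hm⟩ := hl
  set n0 : ℕ := m.natAbs + 1 with hn0
  have hz : ∀ n : ℕ, n0 ≤ n → x (-n) = 0 := fun n hn => hm _ (by omega)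
  refine ⟨6 ^ n0 * EE (ext x).1 (-n0) (-n0), ?_, n0, fun n hn => ⟨?_, ?_⟩⟩
  · have hne : EE (ext x).1 (-n0) (-n0) ≠ 0 := by
      intro h0
      have h1 : ∀ k : ℕ, EE (ext x).1 (-n0 + k) (-n0 + k) = 0 ∧ x (-n0 + k) = 0 := by
        intro k
        induction k with
        | zero =>
          have h2 := dig_of_zero h0
          rw [ext_diag] at h2
          simp only [Nat.cast_zero, add_zero]
          exact ⟨h0, Fin.ext h2.1⟩
        | succ k ih =>
          have h2 := (dig_of_zero ih.1).2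
          have e : -(n0 : ℤ) + ((k + 1 : ℕ) : ℤ) = -n0 + k + 1 := by push_cast; ring
          rw [e]
          refine ⟨h2, ?_⟩
          have h3 := (dig_of_zero h2).1
          rw [ext_diag] at h3
          exact Fin.ext h3
      apply hx
      funext i
      rcases lt_or_ge i (-n0) with h2 | h2
      · have := hz (-i).toNat (by omega)
        rw [Int.toNat_of_nonneg (by omega), neg_neg] at this
        exact this
      · have := (h1 (i + n0).toNat).2
        rw [Int.toNat_of_nonneg (by omega)] at this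
        rw [show -(n0 : ℤ) + (i + n0) = i by ring] at this
        exact this
    have := EE_nonneg (ext x).1 (-n0) (-n0)
    positivity
  · rw [ext_diag, hz n hn]
    rfl
  · induction n, hn using Nat.le_induction with
    | base => rfl
    | succ n hn ih =>
      rw [← ih]
      have h1 := EE_step (ext x).1 (-((n + 1 : ℕ) : ℤ)) (-((n + 1 : ℕ) : ℤ))
      have e : -((n + 1 : ℕ) : ℤ) + 1 = -n := by push_cast; ring
      rw [e, ext_diag, hz (n + 1) (by omega)] at h1
      simp only [Fin.val_zero, Nat.cast_zero, zero_add] at h1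
      rw [pow_succ, mul_assoc, h1]

theorem syn (L : ℕ) (w : Fin L → Fin 6) : ∃ M : ℕ, ∀ x : ℤ → Fin 6, x ≠ 0 →
    (∃ m : ℤ, ∀ i < m, x i = 0) → ∀ c : ℤ, ∃ j : ℤ, c ≤ j ∧ j ≤ c + M ∧
      {t : ℕ | Shows (F32^[t] x) w j}.Infinite := by
  set O : Set XX := {z | ∀ s : Fin L, z.1 (s : ℕ) (s : ℕ) = w s} with hO
  have hOo : IsOpen O := by
    have : O = ⋂ s : Fin L, {z : XX | z.1 (s : ℕ) (s : ℕ) = w s} := by
      ext z
      simp [hO]
    rw [this]
    exact isOpen_iInter_of_finite fun s => (isOpen_discrete ({w s} : Set (Fin 6))).preimage (cont_eval _ _)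
  have hne : O.Nonempty := by
    refine ⟨ext fun i => if h : i.toNat < L then w ⟨i.toNat, h⟩ else 0, fun s => ?_⟩
    rw [ext_diag]
    simp
  obtain ⟨M, hM⟩ := main hOo hne
  refine ⟨2 * M, fun x hx hl c => ?_⟩
  obtain ⟨m, hm⟩ := hl
  obtain ⟨V, hV, hIV⟩ := ext_isV (x := fun i => x (i + (c + M))) (by
      intro h
      apply hx
      funext i
      have := congrFun h (i - (c + M))
      simpa using this) ⟨m - (c + M), fun i hi => hm _ (by omega)⟩
  obtain ⟨i, hi, hinf⟩ := hM _ V hIV hV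
  rw [abs_le] at hi
  refine ⟨i + (c + M), by omega, by push_cast; omega, hinf.mono ?_⟩
  intro t ht s
  have h1 := ht s
  rw [S23_apply] at h1
  have h2 := F32_iter (fun i => x (i + (c + M))) t (i + (s : ℕ))
  rw [F32_iter_shift] at h2
  simp only at h1 h2
  rw [← h1]
  rw [show i - (t : ℤ) + (s : ℕ) = i + (s : ℕ) - t by ring, show i + (t : ℤ) + (s : ℕ) = i + (s : ℕ) + t by ring, ← h2]
  rw [show i + (c + M) + ((s : ℕ) : ℤ) = i + (s : ℕ) + (c + M) by ring]

end Pool.Agent.H48.M32
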