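import Mathlib

/-!
# Exponential sums
-/

set_option autoImplicit false

namespace Pool.Agent.H48.M32

open Filter Topology Set


/-- the character `exp (2 π i x)` -/
noncomputable def E (x : UnitAddCircle) : ℂ := (AddCircle.toCircle x : Circle)

theorem E_add (x y : UnitAddCircle) : E (x + y) = E x * E y := by
  unfold E
  rw [AddCircle.toCircle_add]
  rfl

theorem E_nsmul (n : ℕ) (x : UnitAddCircle) : E (n • x) = E x ^ n := by
  unfold E
  rw [AddCircle.toCircle_nsmul]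
  rfl

theorem norm_E (x : UnitAddCircle) : ‖E x‖ = 1 := Circle.norm_coe _

theorem E_neg (x : UnitAddCircle) : E (-x) = (starRingEnd ℂ) (E x) := by
  unfold E
  rw [AddCircle.toCircle_neg, Circle.coe_inv_eq_conj]

theorem E_sub (x y : UnitAddCircle) : E (x - y) = E x * (starRingEnd ℂ) (E y) := by
  rw [sub_eq_add_neg, E_add, E_neg]

theorem E_mul_conj (x : UnitAddCircle) : E x * (starRingEnd ℂ) (E x) = 1 := by
  rw [Complex.mul_conj, Complex.normSq_eq_norm_sq, norm_E]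
  norm_num

theorem E_ne {x : UnitAddCircle} (hx : x ≠ 0) : E x ≠ 1 := by
  intro h
  apply hx
  apply AddCircle.injective_toCircle (T := 1) one_ne_zero
  rw [AddCircle.toCircle_zero]
  exact Circle.ext h

theorem cont_E : Continuous E := continuous_subtype_val.comp AddCircle.continuous_toCircle

theorem exists_away {ρ : ℝ} (hρ : 0 < ρ) : ∃ c : ℝ, 0 < c ∧ ∀ x : UnitAddCircle, ρ ≤ ‖x‖ → c ≤ ‖E x - 1‖ := by
  have hcl : IsClosed {x : UnitAddCircle | ρ ≤ ‖x‖} := isClosed_le continuous_const continuous_norm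
  rcases Set.eq_empty_or_nonempty {x : UnitAddCircle | ρ ≤ ‖x‖} with h | h
  · refine ⟨1, one_pos, fun x hx => ?_⟩
    have : x ∈ {x : UnitAddCircle | ρ ≤ ‖x‖} := hx
    rw [h] at this
    exact this.elim
  · obtain ⟨x0, hx0, hmin⟩ := hcl.isCompact.exists_isMinOn h
      ((cont_E.sub continuous_const).norm (f := fun x => E x - 1)).continuousOn
    refine ⟨‖E x0 - 1‖, ?_, fun x hx => hmin hx⟩
    rw [norm_pos_iff, sub_ne_zero]
    apply E_ne
    rintro rfl
    have : ρ ≤ ‖(0 : UnitAddCircle)‖ := hx0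
    rw [norm_zero] at this
    linarith

theorem half_lt {z : ℂ} (hz : ‖z‖ = 1) (h1 : z ≠ 1) : ‖(z + 1) / 2‖ < 1 := by
  have h2 : z.re ^ 2 + z.im ^ 2 = 1 := by
    have := Complex.sq_norm z
    rw [hz, Complex.normSq_apply] at this
    nlinarith
  have h3 : z.re < 1 := by
    have h4 : z.re ≤ 1 := by nlinarith [sq_nonneg z.im]
    rcases h4.lt_or_eq with h5 | h5
    · exact h5
    · exfalso
      apply h1
      apply Complex.ext
      · simpa using h5
      · rw [h5] at h2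
        have : z.im ^ 2 = 0 := by linarith
        simpa using this
  have h4 : ‖(z + 1) / 2‖ ^ 2 < 1 := by
    rw [Complex.sq_norm, Complex.normSq_apply]
    simp only [Complex.div_re, Complex.div_im, Complex.add_re, Complex.add_im, Complex.one_re, Complex.one_im]
    norm_num
    nlinarith
  nlinarith [norm_nonneg ((z + 1) / 2)]

theorem exists_q {ρ : ℝ} (hρ : 0 < ρ) : ∃ q : ℝ, 0 ≤ q ∧ q < 1 ∧ ∀ x : UnitAddCircle, ρ ≤ ‖x‖ → ‖(E x + 1) / 2‖ ≤ q := by
  have hcl : IsClosed {x : UnitAddCircle | ρ ≤ ‖x‖} := isClosed_le continuous_const continuous_norm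
  rcases Set.eq_empty_or_nonempty {x : UnitAddCircle | ρ ≤ ‖x‖} with h | h
  · refine ⟨0, le_rfl, one_pos, fun x hx => ?_⟩
    have : x ∈ {x : UnitAddCircle | ρ ≤ ‖x‖} := hx
    rw [h] at this
    exact this.elim
  · obtain ⟨x0, hx0, hmax⟩ := hcl.isCompact.exists_isMaxOn h
      (((cont_E.add continuous_const).div_const 2).norm (f := fun x => (E x + 1) / 2)).continuousOn
    refine ⟨‖(E x0 + 1) / 2‖, norm_nonneg _, ?_, fun x hx => hmax hx⟩
    apply half_lt (norm_E _)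
    apply E_ne
    rintro rfl
    have : ρ ≤ ‖(0 : UnitAddCircle)‖ := hx0
    rw [norm_zero] at this
    linarith

theorem exists_k {q : ℝ} (h0 : 0 ≤ q) (h1 : q < 1) : ∃ k : ℕ, (q ^ k) ^ 2 < 1 / (2 * ((k : ℝ) + 1)) := by
  have hq2 : q ^ 2 < 1 := by nlinarith
  have t1 := tendsto_self_mul_const_pow_of_lt_one (r := q ^ 2) (by positivity) hq2
  have t2 := tendsto_pow_atTop_nhds_zero_of_lt_one (r := q ^ 2) (by positivity) hq2
  have t3 : Tendsto (fun k : ℕ => 2 * ((k : ℝ) * (q ^ 2) ^ k + (q ^ 2) ^ k)) atTop (𝓝 (2 * (0 + 0))) :=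
    (t1.add t2).const_mul 2
  rw [add_zero, mul_zero] at t3
  obtain ⟨k, hk⟩ := (t3.eventually_lt_const (u := 1) one_pos).exists
  refine ⟨k, ?_⟩
  rw [lt_div_iff₀ (by positivity), ← pow_mul, mul_comm k 2, pow_mul]
  linarith

/-- **a test for points close to `y`** -/
theorem kern {ρ : ℝ} (hρ : 0 < ρ) : ∃ k : ℕ, ∀ (K : ℕ) (x : Fin K → UnitAddCircle) (y : UnitAddCircle), 0 < K →
    (∀ h : ℕ, 1 ≤ h → h ≤ k → ‖∑ i, E (x i) ^ h‖ < 1 / (2 * ((k : ℝ) + 1)) * K) → ∃ i, ‖x i - y‖ < ρ := by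
  obtain ⟨q, hq0, hq1, hq⟩ := exists_q hρ
  obtain ⟨k, hk⟩ := exists_k hq0 hq1
  refine ⟨k, fun K x y hK hS => ?_⟩
  by_contra hcon
  push Not at hcon
  set κ : ℝ := 1 / (2 * ((k : ℝ) + 1)) with hκ
  have hκ0 : 0 < κ := by positivity
  have hK0 : (0 : ℝ) < K := by exact_mod_cast hK
  set c : ℕ → ℝ := fun a => (k.choose a : ℝ) / 2 ^ k with hc
  have hc0 : ∀ a, 0 ≤ c a := fun a => by positivity
  have hg : ∀ z : ℂ, ((z + 1) / 2) ^ k = ∑ a ∈ Finset.range (k + 1), (c a : ℂ) * z ^ a := by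
    intro z
    rw [div_pow, add_pow, Finset.sum_div]
    refine Finset.sum_congr rfl fun a _ => ?_
    simp only [hc, one_pow, mul_one]
    push_cast
    ring
  have hcsum : ∑ a ∈ Finset.range (k + 1), c a = 1 := by
    have := hg 1
    simp only [one_pow, mul_one] at this
    have h2 : ((1 : ℂ) + 1) / 2 = 1 := by norm_num
    rw [h2, one_pow] at this
    exact_mod_cast this.symm
  have hcsq : 1 / ((k : ℝ) + 1) ≤ ∑ a ∈ Finset.range (k + 1), c a ^ 2 := by
    have := sq_sum_le_card_mul_sum_sq (s := Finset.range (k + 1)) (f := c)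
    rw [hcsum, Finset.card_range] at this
    rw [div_le_iff₀ (by positivity)]
    push_cast at this
    linarith
  set z : Fin K → ℂ := fun i => E (x i - y) with hz
  have hzc : ∀ i, z i * (starRingEnd ℂ) (z i) = 1 := fun i => E_mul_conj _
  -- the sums with two exponents
  have hT : ∀ a b : ℕ, b < a → a ≤ k → ‖∑ i, z i ^ a * (starRingEnd ℂ) (z i) ^ b‖ ≤ κ * K := by
    intro a b hab hak
    have h1 : ∀ i, z i ^ a * (starRingEnd ℂ) (z i) ^ b = E (x i) ^ (a - b) * E (-y) ^ (a - b) := by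
      intro i
      have h2 : z i ^ a = z i ^ (a - b) * z i ^ b := by rw [← pow_add]; congr 1; omega
      rw [h2, mul_assoc, ← mul_pow, hzc, one_pow, mul_one, ← mul_pow]
      simp only [hz]
      rw [sub_eq_add_neg, E_add]
    simp only [h1]
    rw [← Finset.sum_mul, norm_mul, norm_pow, norm_E, one_pow, mul_one]
    exact (hS (a - b) (by omega) (by omega)).le
  have hT' : ∀ a ∈ Finset.range (k + 1), ∀ b ∈ Finset.range (k + 1),
      ‖(∑ i, z i ^ a * (starRingEnd ℂ) (z i) ^ b) - (if a = b then (K : ℂ) else 0)‖ ≤ κ * K := by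
    intro a ha b hb
    rw [Finset.mem_range] at ha hb
    rcases lt_trichotomy b a with h | h | h
    · rw [if_neg (by omega), sub_zero]
      exact hT a b h (by omega)
    · subst h
      rw [if_pos rfl]
      have : ∑ i, z i ^ b * (starRingEnd ℂ) (z i) ^ b = (K : ℂ) := by
        simp only [← mul_pow, hzc, one_pow]
        simp
      rw [this, sub_self, norm_zero]
      positivity
    · rw [if_neg (by omega), sub_zero]
      have h2 := hT b a h (by omega)
      have h3 : ∑ i, z i ^ a * (starRingEnd ℂ) (z i) ^ b =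
          (starRingEnd ℂ) (∑ i, z i ^ b * (starRingEnd ℂ) (z i) ^ a) := by
        rw [map_sum]
        refine Finset.sum_congr rfl fun i _ => ?_
        rw [map_mul, map_pow, map_pow, Complex.conj_conj, mul_comm]
      rw [h3, Complex.norm_conj]
      exact h2
  -- the total mass
  have hmass : ((∑ i, ‖((z i + 1) / 2) ^ k‖ ^ 2 : ℝ) : ℂ) =
      ∑ a ∈ Finset.range (k + 1), ∑ b ∈ Finset.range (k + 1),
        ((c a * c b : ℝ) : ℂ) * ∑ i, z i ^ a * (starRingEnd ℂ) (z i) ^ b := by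
    have h1 : ∀ i, ((‖((z i + 1) / 2) ^ k‖ ^ 2 : ℝ) : ℂ) =
        ∑ a ∈ Finset.range (k + 1), ∑ b ∈ Finset.range (k + 1),
          ((c a * c b : ℝ) : ℂ) * (z i ^ a * (starRingEnd ℂ) (z i) ^ b) := by
      intro i
      rw [← Complex.normSq_eq_norm_sq, ← Complex.mul_conj, hg, map_sum, Finset.sum_mul_sum]
      refine Finset.sum_congr rfl fun a _ => Finset.sum_congr rfl fun b _ => ?_
      rw [map_mul, map_pow, Complex.conj_ofReal]
      push_cast
      ring
    rw [Complex.ofReal_sum]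
    simp only [h1]
    rw [Finset.sum_comm]
    refine Finset.sum_congr rfl fun a _ => ?_
    rw [Finset.sum_comm]
    refine Finset.sum_congr rfl fun b _ => ?_
    rw [Finset.mul_sum]
  have hdiag : ((K * ∑ a ∈ Finset.range (k + 1), c a ^ 2 : ℝ) : ℂ) =
      ∑ a ∈ Finset.range (k + 1), ∑ b ∈ Finset.range (k + 1),
        ((c a * c b : ℝ) : ℂ) * (if a = b then (K : ℂ) else 0) := by
    push_cast
    rw [Finset.mul_sum]
    refine Finset.sum_congr rfl fun a ha => ?_
    simp only [mul_ite, mul_zero]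
    rw [Finset.sum_ite_eq, if_pos ha]
    ring
  have hdiff : |∑ i, ‖((z i + 1) / 2) ^ k‖ ^ 2 - K * ∑ a ∈ Finset.range (k + 1), c a ^ 2| ≤ κ * K := by
    rw [← Real.norm_eq_abs, ← Complex.norm_real, Complex.ofReal_sub, hmass, hdiag, ← Finset.sum_sub_distrib]
    simp only [← Finset.sum_sub_distrib, ← mul_sub]
    calc _ ≤ ∑ a ∈ Finset.range (k + 1), ∑ b ∈ Finset.range (k + 1), (c a * c b) * (κ * K) := by
          refine (norm_sum_le _ _).trans (Finset.sum_le_sum fun a ha => (norm_sum_le _ _).trans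
            (Finset.sum_le_sum fun b hb => ?_))
          rw [norm_mul, Complex.norm_real, Real.norm_eq_abs, abs_of_nonneg (mul_nonneg (hc0 a) (hc0 b))]
          exact mul_le_mul_of_nonneg_left (hT' a ha b hb) (mul_nonneg (hc0 a) (hc0 b))
      _ = κ * K := by
          simp only [← Finset.sum_mul, ← Finset.mul_sum]
          rw [hcsum]
          ring
  have hup : ∑ i, ‖((z i + 1) / 2) ^ k‖ ^ 2 ≤ K * (q ^ k) ^ 2 := by
    calc _ ≤ ∑ _i : Fin K, (q ^ k) ^ 2 := by
          refine Finset.sum_le_sum fun i _ => ?_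
          have h1 := hq _ (hcon i)
          rw [norm_pow]
          gcongr
      _ = K * (q ^ k) ^ 2 := by simp
  rw [abs_le] at hdiff
  have h5 : K * (1 / ((k : ℝ) + 1)) ≤ K * ∑ a ∈ Finset.range (k + 1), c a ^ 2 :=
    mul_le_mul_of_nonneg_left hcsq hK0.le
  have h6 : K * (q ^ k) ^ 2 < K * κ := mul_lt_mul_of_pos_left hk hK0
  have h7 : K * (1 / ((k : ℝ) + 1)) = 2 * (K * κ) := by
    rw [hκ]
    field_simp
  linarith [hdiff.1, mul_comm κ (K : ℝ)]

/-- the second moment -/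
theorem moment {K : ℕ} (l : Fin K → UnitAddCircle) {h : ℕ} {c : ℝ} (hc : 0 < c)
    (hsep : ∀ i j, i ≠ j → c ≤ ‖E (h • (l i - l j)) - 1‖) (A N : ℕ) :
    ∑ m ∈ Finset.range N, ‖∑ i, E ((A + m) • l i) ^ h‖ ^ 2 ≤ K * N + K ^ 2 * (2 / c) := by
  have h1 : ∀ (m : ℕ), ((‖∑ i, E ((A + m) • l i) ^ h‖ ^ 2 : ℝ) : ℂ) =
      ∑ i, ∑ j, E (h • (l i - l j)) ^ A * E (h • (l i - l j)) ^ m := by
    intro m
    rw [← Complex.normSq_eq_norm_sq, ← Complex.mul_conj, map_sum, Finset.sum_mul_sum]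
    refine Finset.sum_congr rfl fun i _ => Finset.sum_congr rfl fun j _ => ?_
    rw [← pow_add, E_nsmul, E_nsmul, E_nsmul, E_sub, map_pow, map_pow, mul_pow, mul_pow, ← pow_mul, ← pow_mul,
      ← pow_mul, ← pow_mul, mul_comm (A + m) h]
  have h2 : ((∑ m ∈ Finset.range N, ‖∑ i, E ((A + m) • l i) ^ h‖ ^ 2 : ℝ) : ℂ) =
      ∑ i, ∑ j, E (h • (l i - l j)) ^ A * ∑ m ∈ Finset.range N, E (h • (l i - l j)) ^ m := by
    rw [Complex.ofReal_sum]
    simp only [h1]
    rw [Finset.sum_comm]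
    refine Finset.sum_congr rfl fun i _ => ?_
    rw [Finset.sum_comm]
    refine Finset.sum_congr rfl fun j _ => ?_
    rw [Finset.mul_sum]
  have h3 : ∀ i j : Fin K, ‖E (h • (l i - l j)) ^ A * ∑ m ∈ Finset.range N, E (h • (l i - l j)) ^ m‖ ≤
      (if i = j then (N : ℝ) else 0) + 2 / c := by
    intro i j
    rw [norm_mul, norm_pow, norm_E, one_pow, one_mul]
    by_cases hij : i = j
    · subst hij
      rw [if_pos rfl]
      have : (0 : ℝ) < 2 / c := by positivity
      have h4 : ‖∑ m ∈ Finset.range N, E (h • (l i - l i)) ^ m‖ ≤ N := by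
        refine (norm_sum_le _ _).trans ?_
        simp only [norm_pow, norm_E, one_pow]
        simp
      linarith
    · rw [if_neg hij, zero_add]
      have h5 := hsep i j hij
      have hne : E (h • (l i - l j)) ≠ 1 := by
        intro he
        rw [he, sub_self, norm_zero] at h5
        linarith
      rw [geom_sum_eq hne, norm_div]
      have h6 : ‖E (h • (l i - l j)) ^ N - 1‖ ≤ 2 := by
        refine (norm_sub_le _ _).trans ?_
        rw [norm_pow, norm_E, one_pow, norm_one]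
        norm_num
      exact div_le_div₀ (by norm_num) h6 hc h5
  have h4 : ‖((∑ m ∈ Finset.range N, ‖∑ i, E ((A + m) • l i) ^ h‖ ^ 2 : ℝ) : ℂ)‖ ≤
      ∑ i : Fin K, ∑ j : Fin K, ((if i = j then (N : ℝ) else 0) + 2 / c) := by
    rw [h2]
    exact (norm_sum_le _ _).trans (Finset.sum_le_sum fun i _ => (norm_sum_le _ _).trans
      (Finset.sum_le_sum fun j _ => h3 i j))
  have h5 : ∑ i : Fin K, ∑ j : Fin K, ((if i = j then (N : ℝ) else 0) + 2 / c) = K * N + K ^ 2 * (2 / c) := by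
    simp only [Finset.sum_add_distrib, Finset.sum_ite_eq, Finset.mem_univ, if_true, Finset.sum_const,
      Finset.card_univ, Fintype.card_fin, nsmul_eq_mul]
    ring
  rw [h5, Complex.norm_real, Real.norm_eq_abs] at h4
  exact (le_abs_self _).trans h4

/-- **few multipliers have a large exponential sum** -/
theorem count {K : ℕ} (hK : 0 < K) (l : Fin K → UnitAddCircle) {k : ℕ} {c : ℝ} (hc : 0 < c)
    (hsep : ∀ i j, i ≠ j → ∀ h : ℕ, 1 ≤ h → h ≤ k → c ≤ ‖E (h • (l i - l j)) - 1‖) {κ : ℝ} (hκ : 0 < κ) (A N : ℕ)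
    (B : Finset ℕ) (hB : B ⊆ Finset.range N)
    (hBk : ∀ m ∈ B, ∃ h : ℕ, 1 ≤ h ∧ h ≤ k ∧ κ * K ≤ ‖∑ i, E ((A + m) • l i) ^ h‖) :
    (B.card : ℝ) ≤ k * (N / (κ ^ 2 * K) + 2 / c / κ ^ 2) := by
  have hK0 : (0 : ℝ) < K := by exact_mod_cast hK
  have h1 : (B.card : ℝ) * (κ * K) ^ 2 ≤
      ∑ m ∈ B, ∑ h ∈ Finset.Icc 1 k, ‖∑ i, E ((A + m) • l i) ^ h‖ ^ 2 := by
    rw [← nsmul_eq_mul, ← Finset.sum_const]
    refine Finset.sum_le_sum fun m hm => ?_
    obtain ⟨h, hh1, hh2, hh3⟩ := hBk m hm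
    refine le_trans ?_ (Finset.single_le_sum (f := fun h => ‖∑ i, E ((A + m) • l i) ^ h‖ ^ 2)
      (fun _ _ => by positivity) (Finset.mem_Icc.2 ⟨hh1, hh2⟩))
    have : 0 ≤ κ * K := by positivity
    gcongr
  have h2 : ∑ m ∈ B, ∑ h ∈ Finset.Icc 1 k, ‖∑ i, E ((A + m) • l i) ^ h‖ ^ 2 ≤
      ∑ h ∈ Finset.Icc 1 k, (K * N + K ^ 2 * (2 / c)) := by
    rw [Finset.sum_comm]
    refine Finset.sum_le_sum fun h hh => ?_
    rw [Finset.mem_Icc] at hh
    refine le_trans (Finset.sum_le_sum_of_subset_of_nonneg hB fun _ _ _ => by positivity) ?_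
    exact moment l hc (fun i j hij => hsep i j hij h hh.1 hh.2) A N
  have h3 : ∑ h ∈ Finset.Icc 1 k, (K * N + K ^ 2 * (2 / c) : ℝ) = k * (K * N + K ^ 2 * (2 / c)) := by
    rw [Finset.sum_const, Nat.card_Icc, nsmul_eq_mul]
    simp
  rw [h3] at h2
  have h4 := h1.trans h2
  rw [← le_div_iff₀ (by positivity)] at h4
  refine h4.trans (le_of_eq ?_)
  field_simp

end Pool.Agent.H48.M32
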