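import Pool.Agent.H48.M32.Dyad

/-!
# The number of visits grows at least logarithmically
-/

set_option autoImplicit false

namespace Pool.Agent.H48.M32

open Filter Topology Set
open Pool.Agent.H48.CBR

/-- all words at some cell of an interval, in every long dyadic interval of times -/
theorem winQ (L : ℕ) : ∃ M R : ℕ, ∀ x : ℤ → Fin 6, x ≠ 0 → (∃ m : ℤ, ∀ i < m, x i = 0) → ∀ c : ℤ,
    ∃ T₀ : ℕ, ∀ T : ℕ, T₀ ≤ T → ∃ j : ℤ, c ≤ j ∧ j ≤ c + M ∧ ∃ T' : ℕ, T ≤ T' ∧ T' ≤ 2 * T ∧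
      ∀ w : Fin L → Fin 6, ∃ t : ℕ, T' ≤ t ∧ t ≤ T' + R ∧ Shows (F32^[t] x) w j := by
  obtain ⟨R, U, hUo, hUne, hU⟩ := univ_words L
  obtain ⟨M, hM⟩ := mainQ hUo hUne
  refine ⟨2 * M, R, fun x hx hl c => ?_⟩
  obtain ⟨V, hV, hIV⟩ := ext_isV hx hl
  obtain ⟨T₀, hT₀⟩ := hM _ _ (hIV.diag (c + M)) (by positivity)
  refine ⟨T₀, fun T hT => ?_⟩
  obtain ⟨i, hi, T', h1, h2, h3⟩ := hT₀ T hT
  rw [abs_le] at hi
  refine ⟨i + (c + M), by omega, by push_cast; omega, T', h1, h2, fun w => ?_⟩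
  obtain ⟨t, ht, htw⟩ := hU _ h3 w
  refine ⟨T' + t, by omega, by omega, ?_⟩
  rw [← mem_Cyl]
  rw [comp_a, comp_a] at htw
  have e : ((-(t : ℤ) + (i - T') + (c + M), (t : ℤ) + (i + T') + (c + M)) : ℤ × ℤ) =
      (i + (c + M) - ((T' + t : ℕ) : ℤ), i + (c + M) + ((T' + t : ℕ) : ℤ)) := by
    ext <;> push_cast <;> ring
  rw [e] at htw
  exact htw

/-- counting -/
theorem count_aux (S : ℤ → Set ℕ) (M : ℕ) (c : ℤ) (T₀ : ℕ)
    (h : ∀ T : ℕ, T₀ ≤ T → ∃ j : ℤ, c ≤ j ∧ j ≤ c + M ∧ ∃ T' : ℕ, T ≤ T' ∧ T' ≤ 2 * T ∧ T' ∈ S j) :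
    ∃ j : ℤ, c ≤ j ∧ j ≤ c + M ∧
      {n : ℕ | 1 / (2 * (M : ℝ) + 3) * n ≤ ({T : ℕ | T ≤ 2 ^ n ∧ T ∈ S j}.ncard : ℝ)}.Infinite := by
  classical
  have hb : ∀ i : ℕ, T₀ ≤ 4 ^ (T₀ + i) := fun i =>
    (Nat.lt_pow_self (by norm_num)).le.trans (Nat.pow_le_pow_right (by norm_num) (by omega))
  choose f hf1 hf2 G hG1 hG2 hG3 using fun i : ℕ => h (4 ^ (T₀ + i)) (hb i)
  have hmono : StrictMono G := strictMono_nat_of_lt_succ fun i => by
    have h1 := hG2 i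
    have h2 := hG1 (i + 1)
    have h3 : 4 ^ (T₀ + (i + 1)) = 4 * 4 ^ (T₀ + i) := by rw [← add_assoc, pow_succ]; ring
    have h4 : 0 < 4 ^ (T₀ + i) := by positivity
    omega
  -- pigeonhole for a block of indices
  have hp : ∀ N : ℕ, ∃ j : Fin (M + 1), N ≤ ((Finset.range ((M + 1) * N)).filter
      fun i => (⟨(f i - c).toNat, by have := hf1 i; have := hf2 i; omega⟩ : Fin (M + 1)) = j).card := by
    intro N
    obtain ⟨j, -, hj⟩ := Finset.exists_le_card_fiber_of_mul_le_card_of_maps_to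
      (s := Finset.range ((M + 1) * N)) (t := (Finset.univ : Finset (Fin (M + 1))))
      (f := fun i => (⟨(f i - c).toNat, by have := hf1 i; have := hf2 i; omega⟩ : Fin (M + 1)))
      (fun _ _ => Finset.mem_univ _) Finset.univ_nonempty (n := N) (by simp)
    exact ⟨j, hj⟩
  choose J hJ using hp
  obtain ⟨j, hj⟩ := Finite.exists_infinite_fiber J
  have hjinf : (J ⁻¹' {j}).Infinite := Set.infinite_coe_iff.1 hj
  refine ⟨c + (j : ℕ), by omega, by have := j.2; omega, ?_⟩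
  have hinf2 : (J ⁻¹' {j} \ Iio (2 * T₀ + 1)).Infinite := hjinf.sdiff (finite_Iio _)
  have hinj : Function.Injective fun N : ℕ => 2 * (T₀ + (M + 1) * N) + 1 := by
    intro a b hab
    simp only at hab
    have h1 : (M + 1) * a = (M + 1) * b := by omega
    exact Nat.eq_of_mul_eq_mul_left (by omega) h1
  refine (hinf2.image hinj.injOn).mono ?_
  rintro _ ⟨N, ⟨hN1, hN2⟩, rfl⟩
  have hJN : J N = j := hN1
  have hN2' : 2 * T₀ + 1 ≤ N := not_lt.1 hN2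
  have hcard := hJ N
  rw [hJN] at hcard
  set Fi := (Finset.range ((M + 1) * N)).filter
      fun i => (⟨(f i - c).toNat, by have := hf1 i; have := hf2 i; omega⟩ : Fin (M + 1)) = j with hFi
  have hsub : ((Fi.image G : Finset ℕ) : Set ℕ) ⊆
      {T : ℕ | T ≤ 2 ^ (2 * (T₀ + (M + 1) * N) + 1) ∧ T ∈ S (c + (j : ℕ))} := by
    intro T hT
    rw [Finset.mem_coe, Finset.mem_image] at hT
    obtain ⟨i, hi, rfl⟩ := hT
    rw [hFi, Finset.mem_filter, Finset.mem_range] at hi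
    obtain ⟨hi1, hi2⟩ := hi
    constructor
    · refine (hG2 i).trans ?_
      have h1 : (2 : ℕ) ^ (2 * (T₀ + (M + 1) * N) + 1) = 2 * 4 ^ (T₀ + (M + 1) * N) := by
        rw [pow_succ, pow_mul]
        norm_num
        ring
      rw [h1]
      exact Nat.mul_le_mul_left _ (Nat.pow_le_pow_right (by norm_num) (by omega))
    · have h1 : f i = c + (j : ℕ) := by
        have h2 := congrArg Fin.val hi2
        simp only at h2
        have := hf1 i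
        omega
      rw [← h1]
      exact hG3 i
  have hfin : {T : ℕ | T ≤ 2 ^ (2 * (T₀ + (M + 1) * N) + 1) ∧ T ∈ S (c + (j : ℕ))}.Finite :=
    (finite_Iic _).subset fun T hT => hT.1
  have h1 : N ≤ {T : ℕ | T ≤ 2 ^ (2 * (T₀ + (M + 1) * N) + 1) ∧ T ∈ S (c + (j : ℕ))}.ncard := by
    refine le_trans ?_ (ncard_le_ncard hsub hfin)
    rw [ncard_coe_finset, Finset.card_image_of_injective _ hmono.injective]
    exact hcard
  have h2 : (N : ℝ) ≤ ({T : ℕ | T ≤ 2 ^ (2 * (T₀ + (M + 1) * N) + 1) ∧ T ∈ S (c + (j : ℕ))}.ncard : ℝ) := by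
    exact_mod_cast h1
  refine le_trans ?_ h2
  rw [div_mul_eq_mul_div, one_mul, div_le_iff₀ (by positivity)]
  have h3 : (2 * (T₀ : ℝ) + 1) ≤ N := by exact_mod_cast hN2'
  push_cast
  nlinarith

/-- **all words at one cell, with a logarithmic number of visits** -/
theorem winFreq (L : ℕ) : ∃ M R : ℕ, ∃ κ : ℝ, 0 < κ ∧ ∀ x : ℤ → Fin 6, x ≠ 0 → (∃ m : ℤ, ∀ i < m, x i = 0) →
    ∀ c : ℤ, ∃ j : ℤ, c ≤ j ∧ j ≤ c + M ∧ {n : ℕ | κ * n ≤ ({T : ℕ | T ≤ 2 ^ n ∧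
      ∀ w : Fin L → Fin 6, ∃ t : ℕ, T ≤ t ∧ t ≤ T + R ∧ Shows (F32^[t] x) w j}.ncard : ℝ)}.Infinite := by
  obtain ⟨M, R, h⟩ := winQ L
  refine ⟨M, R, 1 / (2 * (M : ℝ) + 3), by positivity, fun x hx hl c => ?_⟩
  obtain ⟨T₀, hT₀⟩ := h x hx hl c
  exact count_aux (fun j => {T : ℕ | ∀ w : Fin L → Fin 6, ∃ t : ℕ, T ≤ t ∧ t ≤ T + R ∧ Shows (F32^[t] x) w j})
    M c T₀ hT₀

end Pool.Agent.H48.M32
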