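import Pool.Agent.H48.CBR.X23c

/-!
# Closed sets invariant under `×6` and `×3/2`
-/

set_option autoImplicit false

namespace Pool.Agent.H48.M32

open Filter Topology Set
open Pool.Agent.H847R3.XpXq
open Pool.Agent.H48.CBR

theorem irr49 : Irrational (Real.log (4 : ℕ) / Real.log (9 : ℕ)) := by
  have h4 : Real.log (4 : ℕ) = 2 * Real.log (2 : ℕ) := by
    rw [show ((4 : ℕ) : ℝ) = ((2 : ℕ) : ℝ) ^ 2 by norm_num, Real.log_pow]
    norm_num
  have h9 : Real.log (9 : ℕ) = 2 * Real.log (3 : ℕ) := by
    rw [show ((9 : ℕ) : ℝ) = ((3 : ℕ) : ℝ) ^ 2 by norm_num, Real.log_pow]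
    norm_num
  rw [h4, h9, mul_div_mul_left _ _ two_ne_zero]
  exact irr23

/-- translates of points of `C` -/
theorem key {C : Set XX} (hinv : ∀ c ∈ C, ∀ i t : ℤ, S23.a (i - t, i + t) c ∈ C) {c : XX} (hc : c ∈ C)
    (m : ℤ × ℤ) : S23.a m c ∈ C ∪ S23.a (0, 1) '' C := by
  obtain ⟨a, b⟩ := m
  rcases Int.even_or_odd' (a + b) with ⟨i, hi | hi⟩
  · left
    have := hinv c hc i (b - i)
    rw [show i - (b - i) = a by omega, show i + (b - i) = b by ring] at this
    exact this
  · right
    refine ⟨S23.a (a, b - 1) c, ?_, ?_⟩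
    · have := hinv c hc i (b - 1 - i)
      rw [show i - (b - 1 - i) = a by omega, show i + (b - 1 - i) = b - 1 by ring] at this
      exact this
    · rw [← S23.add]
      congr 1
      ext <;> simp

theorem exists_inH {C : Set XX} (hinv : ∀ c ∈ C, ∀ i t : ℤ, S23.a (i - t, i + t) c ∈ C)
    (h : val '' C = univ) (x : XX) (M : ℕ) : ∃ y ∈ C, AgX M y x := by
  obtain ⟨r, h0, h1, hr⟩ := exists_real (2 * M + 1) fun k => (S23.a (-M, -M) x).1 k k
  have : (r : TT) ∈ val '' C := h ▸ mem_univ _
  obtain ⟨z, hz, hzr⟩ := this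
  have hE : EE z.1 0 0 = r := by
    rcases coe_eq_cases (EE_nonneg _ _ _) (EE_le_one _ _ _) h0.le h1.le hzr with h2 | ⟨-, h2⟩ | ⟨-, h2⟩
    · exact h2
    · linarith
    · linarith
  have hd : ∀ k < 2 * M + 1, z.1 k k = (S23.a (-M, -M) x).1 k k := by
    intro k hk
    have := hr z.1 0 0 hE k hk
    simpa using this
  have hsq := det_square hd
  have hzM : S23.a (M, M) z ∈ C := by
    have := hinv z hz M 0
    simpa using this
  refine ⟨S23.a (M, M) z, hzM, ?_⟩
  intro i j hi hj
  rw [S23_apply]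
  have hx : x.1 i j = (S23.a (-M, -M) x).1 (M + i) (M + j) := by
    have e1 : (-(M : ℤ)) + (M + i) = i := by ring
    have e2 : (-(M : ℤ)) + (M + j) = j := by ring
    rw [S23_apply]
    change x.1 i j = x.1 (-(M : ℤ) + (M + i)) (-(M : ℤ) + (M + j))
    rw [e1, e2]
  rw [hx]
  change z.1 (M + i) (M + j) = _
  obtain ⟨p, hp⟩ : ∃ p : ℕ, (M : ℤ) + i = p := ⟨((M : ℤ) + i).toNat, (Int.toNat_of_nonneg (by omega)).symm⟩
  obtain ⟨q, hq⟩ : ∃ q : ℕ, (M : ℤ) + j = q := ⟨((M : ℤ) + j).toNat, (Int.toNat_of_nonneg (by omega)).symm⟩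
  rw [hp, hq]
  rcases le_total p q with hpq | hpq
  · obtain ⟨s, rfl⟩ := Nat.exists_eq_add_of_le hpq
    have := (hsq s p (by omega)).2
    simpa using this
  · obtain ⟨s, rfl⟩ := Nat.exists_eq_add_of_le hpq
    have := (hsq s q (by omega)).1
    simpa using this

theorem val_three (c : XX) : val (S23.a (0, 1) c) = 3 • val c := by
  rw [val_a]
  have := three_coe c 0 0
  simpa [val] using this.symm

/-- **closed sets invariant under the translations `(i - t, i + t)` are finite or everything** -/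
theorem finiteH {C : Set XX} (hcl : IsClosed C) (hinv : ∀ c ∈ C, ∀ i t : ℤ, S23.a (i - t, i + t) c ∈ C)
    (hC : C ≠ univ) : C.Finite := by
  by_contra hinf
  let C' : CI S23 :=
    { carrier := C ∪ S23.a (0, 1) '' C
      closed := hcl.union (hcl.isCompact.image (S23.cont _)).isClosed
      inv := by
        rintro m y (hy | ⟨c, hc, rfl⟩)
        · exact key hinv hy m
        · rw [← S23.add]
          exact key hinv hc _ }
  have h1 : ¬ (val '' C).Finite := by
    intro hf
    apply hinf
    have hf' : (val '' C'.carrier).Finite := by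
      change (val '' (C ∪ S23.a (0, 1) '' C)).Finite
      rw [image_union]
      refine hf.union ((hf.image fun t : TT => 3 • t).subset ?_)
      rintro _ ⟨_, ⟨c, hc, rfl⟩, rfl⟩
      exact ⟨val c, ⟨c, hc, rfl⟩, (val_three c).symm⟩
    exact (finite_of_val hf').subset subset_union_left
  have hclosed : IsClosed (val '' C) := (hcl.isCompact.image cont_val).isClosed
  have hI : Inv 4 9 (val '' C) := by
    rintro _ ⟨c, hc, rfl⟩
    constructor
    · refine ⟨S23.a (2, 0) c, ?_, ?_⟩
      · have := hinv c hc 1 (-1)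
        norm_num at this
        exact this
      · rw [val_a]
        have h1 := two_coe c 0 0
        have h2 := two_coe c 1 0
        norm_num at h1 h2
        simp only [val]
        rw [← h2, ← h1, smul_smul]
        norm_num
    · refine ⟨S23.a (0, 2) c, ?_, ?_⟩
      · have := hinv c hc 1 1
        norm_num at this
        exact this
      · rw [val_a]
        have h1 := three_coe c 0 0
        have h2 := three_coe c 0 1
        norm_num at h1 h2
        simp only [val]
        rw [← h2, ← h1, smul_smul]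
        norm_num
  have huniv := Pool.Agent.R477.XQ.furst (p := 4) (q := 9) (by norm_num) (by norm_num) irr49 hclosed hI h1
  apply hC
  rw [eq_univ_iff_forall]
  intro x
  by_contra hx
  obtain ⟨M, hM⟩ := exists_agX_subset hcl.isOpen_compl hx
  obtain ⟨y, hy, hyx⟩ := exists_inH hinv huniv x M
  exact hM hyx hy

theorem miss_finiteH {O : Set XX} (hO : IsOpen O) (hne : O.Nonempty) :
    {x | ∀ i t : ℤ, S23.a (i - t, i + t) x ∉ O}.Finite := by
  refine finiteH ?_ ?_ ?_
  · have : {x | ∀ i t : ℤ, S23.a (i - t, i + t) x ∉ O} = ⋂ i : ℤ, ⋂ t : ℤ, S23.a (i - t, i + t) ⁻¹' Oᶜ := by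
      ext x
      simp
    rw [this]
    exact isClosed_iInter fun i => isClosed_iInter fun t => hO.isClosed_compl.preimage (S23.cont _)
  · intro c hc i t i' t'
    rw [← S23.add]
    have := hc (i' + i) (t' + t)
    convert this using 3
    ext <;> simp <;> ring
  · intro h
    obtain ⟨x, hx⟩ := hne
    have : x ∈ {x | ∀ i t : ℤ, S23.a (i - t, i + t) x ∉ O} := h ▸ mem_univ x
    have h0 := this 0 0
    simp only [sub_zero, add_zero] at h0
    rw [show ((0 : ℤ), (0 : ℤ)) = (0 : ℤ × ℤ) from rfl, S23.zero] at h0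
    exact h0 hx

end Pool.Agent.H48.M32
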