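import Pool.Agent.H48.M32.RightC
import Pool.Agent.H48.M32.FurH

/-!
# The cells to the left
-/

set_option autoImplicit false

namespace Pool.Agent.H48.M32

open Filter Topology Set
open Pool.Agent.H847R3.XpXq
open Pool.Agent.H48.CBR

/-- good approximations of `1` from above -/
theorem ratio (ε : ℝ) (hε : 0 < ε) : ∃ a b : ℕ, a < b ∧ 1 < (9 : ℝ) ^ a / 4 ^ b ∧ (9 : ℝ) ^ a / 4 ^ b < 1 + ε := by
  have h9 : 0 < Real.log 9 := Real.log_pos (by norm_num)
  have h4 : 0 < Real.log 4 := Real.log_pos (by norm_num)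
  have h94 : Real.log 4 < Real.log 9 := Real.log_lt_log (by norm_num) (by norm_num)
  have hirr : Irrational (Real.log 4 / Real.log 9) := by
    have := irr49
    push_cast at this
    exact this
  set δ : ℝ := min (Real.log (1 + ε)) (Real.log 9 - Real.log 4) with hδ
  have hδ0 : 0 < δ := lt_min (Real.log_pos (by linarith)) (by linarith)
  -- a combination in the interval
  suffices H : ∃ m n : ℤ, 0 < m ∧ 0 < m * Real.log 9 + n * Real.log 4 ∧ m * Real.log 9 + n * Real.log 4 < δ by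
    obtain ⟨m, n, hm, h1, h2⟩ := H
    have hm1 : (1 : ℝ) ≤ m := by exact_mod_cast hm
    have hn : n < 0 := by
      by_contra hc
      push Not at hc
      have : (0 : ℝ) ≤ n := by exact_mod_cast hc
      have h3 : δ ≤ Real.log 9 - Real.log 4 := min_le_right _ _
      nlinarith
    obtain ⟨a, rfl⟩ : ∃ a : ℕ, m = a := ⟨m.toNat, (Int.toNat_of_nonneg hm.le).symm⟩
    obtain ⟨b, rfl⟩ : ∃ b : ℕ, n = -b := ⟨(-n).toNat, by omega⟩
    push_cast at h1 h2 hm1
    have hx : Real.log ((9 : ℝ) ^ a / 4 ^ b) = a * Real.log 9 + -b * Real.log 4 := by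
      rw [Real.log_div (by positivity) (by positivity), Real.log_pow, Real.log_pow]
      ring
    have hpos : (0 : ℝ) < (9 : ℝ) ^ a / 4 ^ b := by positivity
    refine ⟨a, b, ?_, ?_, ?_⟩
    · by_contra hc
      push Not at hc
      have hba : (b : ℝ) ≤ a := by exact_mod_cast hc
      have h3 : δ ≤ Real.log 9 - Real.log 4 := min_le_right _ _
      nlinarith
    · rw [← Real.log_pos_iff hpos.le, hx]
      exact h1
    · have h3 : δ ≤ Real.log (1 + ε) := min_le_left _ _
      rw [← Real.log_lt_log_iff hpos (by linarith), hx]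
      linarith
  have hdense : Dense (AddSubgroup.closure {Real.log 4, Real.log 9} : Set ℝ) :=
    dense_addSubgroupClosure_pair_iff.2 hirr
  obtain ⟨x, hx, hx0, hxδ⟩ := hdense.exists_between hδ0
  obtain ⟨n, m, hnm⟩ := AddSubgroup.mem_closure_pair.1 hx
  simp only [zsmul_eq_mul] at hnm
  rcases lt_or_ge 0 m with hm | hm
  · exact ⟨m, n, hm, by linarith, by linarith⟩
  · set k : ℤ := ⌊(Real.log 9 - Real.log 4) / x⌋ with hk
    have hk0 : 0 ≤ k := Int.floor_nonneg.2 (div_nonneg (by linarith) hx0.le)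
    have h1 := Int.floor_le ((Real.log 9 - Real.log 4) / x)
    have h2 := Int.lt_floor_add_one ((Real.log 9 - Real.log 4) / x)
    rw [le_div_iff₀ hx0] at h1
    rw [div_lt_iff₀ hx0] at h2
    have hm' : (0 : ℤ) < 1 - k * m := by nlinarith [mul_nonneg hk0 (neg_nonneg.2 hm)]
    have e : ((1 - k * m : ℤ) : ℝ) * Real.log 9 + ((-1 - k * n : ℤ) : ℝ) * Real.log 4 =
        Real.log 9 - Real.log 4 - k * x := by
      push_cast
      rw [← hnm]
      ring
    refine ⟨1 - k * m, -1 - k * n, hm', ?_, ?_⟩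
    · rw [e]
      refine lt_of_le_of_ne (by linarith) fun h0 => ?_
      rw [← e] at h0
      have h5 : Real.log 4 / Real.log 9 * ((1 + k * n : ℤ) : ℝ) = ((1 - k * m : ℤ) : ℝ) := by
        rw [div_mul_eq_mul_div, div_eq_iff h9.ne']
        push_cast at h0 ⊢
        linarith
      have h6 : (1 + k * n : ℤ) ≠ 0 := by
        intro h7
        rw [h7, Int.cast_zero, mul_zero] at h5
        have : (1 - k * m : ℤ) = 0 := by exact_mod_cast h5.symm
        omega
      apply hirr
      refine ⟨((1 - k * m : ℤ) : ℚ) / ((1 + k * n : ℤ) : ℚ), ?_⟩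
      have h7 : (((1 + k * n : ℤ) : ℝ)) ≠ 0 := by exact_mod_cast h6
      rw [Rat.cast_div, Rat.cast_intCast, Rat.cast_intCast, div_eq_iff h7, h5]
    · rw [e]
      linarith

/-- slowly growing sequences hit -/
theorem cross (P r ρ : ℝ) (Z : ℕ) (hP : 0 < P) (hr : 1 < r) (hstep : P * r ^ Z * (r - 1) ≤ ρ)
    (htot : 1 ≤ Z * (P * (r - 1))) (y : TT) : ∃ z ≤ Z, ‖((P * r ^ z : ℝ) : TT) - y‖ ≤ ρ := by
  obtain ⟨Y0, rfl⟩ : ∃ Y : ℝ, (Y : TT) = y := QuotientAddGroup.mk_surjective y
  set Y : ℝ := P + Int.fract (Y0 - P) with hY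
  have hYY : ((Y : ℝ) : TT) = (Y0 : TT) := by
    have : Y = Y0 + ((-⌊Y0 - P⌋ : ℤ) : ℝ) := by
      rw [hY, Int.fract]
      push_cast
      ring
    rw [this, AddCircle.coe_add]
    have h2 : (((-⌊Y0 - P⌋ : ℤ) : ℝ) : TT) = 0 := by
      rw [AddCircle.coe_eq_zero_iff]
      exact ⟨-⌊Y0 - P⌋, by simp⟩
    rw [h2, add_zero]
  have hY0 : P ≤ Y := by
    have := Int.fract_nonneg (Y0 - P)
    linarith
  have hY1 : Y < P + 1 := by
    have := Int.fract_lt_one (Y0 - P)
    linarith
  have hbern : ∀ z : ℕ, P + z * (P * (r - 1)) ≤ P * r ^ z := by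
    intro z
    have := one_add_mul_le_pow (show (-2 : ℝ) ≤ r - 1 by linarith) z
    rw [add_sub_cancel] at this
    nlinarith
  have hex : ∃ z : ℕ, Y ≤ P * r ^ z := ⟨Z, by linarith [hbern Z]⟩
  classical
  set z := Nat.find hex with hz
  have hzs : Y ≤ P * r ^ z := Nat.find_spec hex
  have hzZ : z ≤ Z := Nat.find_min' hex (by linarith [hbern Z])
  refine ⟨z, hzZ, ?_⟩
  have hb : |P * r ^ z - Y| ≤ ρ := by
    rw [abs_of_nonneg (by linarith)]
    rcases Nat.eq_zero_or_pos z with h0 | h0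
    · rw [h0, pow_zero, mul_one]
      have : 0 ≤ P * r ^ Z * (r - 1) := by
        have : (0 : ℝ) ≤ r - 1 := by linarith
        positivity
      linarith
    · obtain ⟨w, hw⟩ : ∃ w, z = w + 1 := ⟨z - 1, by omega⟩
      have hlt : ¬ Y ≤ P * r ^ w := Nat.find_min hex (by omega)
      push Not at hlt
      have h1 : P * r ^ z - P * r ^ w = P * r ^ w * (r - 1) := by
        rw [hw, pow_succ]
        ring
      have h2 : P * r ^ w * (r - 1) ≤ P * r ^ Z * (r - 1) := by
        have : r ^ w ≤ r ^ Z := pow_le_pow_right₀ hr.le (by omega)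
        have h3 : (0 : ℝ) ≤ r - 1 := by linarith
        gcongr
      linarith
  rw [← hYY, ← AddCircle.coe_sub, UnitAddCircle.norm_eq]
  refine le_trans ?_ hb
  simpa using round_le (P * r ^ z - Y) 0

end Pool.Agent.H48.M32
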