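import Pool.Agent.H48.M32.Left

/-!
# The cells to the left: counting
-/

set_option autoImplicit false

namespace Pool.Agent.H48.M32

open Filter Topology Set
open Pool.Agent.H847R3.XpXq
open Pool.Agent.H48.CBR

/-- the position at the cell `-c` and the time `t` -/
noncomputable def PP (V : ℝ) (c t : ℤ) : ℝ := (3 / 2 : ℝ) ^ t * (6 ^ (-c) * V)

/-- no point with value between `A` and `B` is close to `y` -/
def NoHit (V : ℝ) (y : TT) (A B r : ℝ) (c : ℤ) : Prop :=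
  ∀ t : ℤ, A ≤ PP V c t → PP V c t < B → r ≤ ‖((PP V c t : ℝ) : TT) - y‖

theorem PP_pos {V : ℝ} (hV : 0 < V) (c t : ℤ) : 0 < PP V c t := by
  unfold PP
  positivity

theorem PP_shift (V : ℝ) (c t z : ℤ) (a b : ℕ) :
    PP V (c + ((b : ℤ) - a) * z) (t + ((b : ℤ) + a) * z) = PP V c t * ((9 : ℝ) ^ a / 4 ^ b) ^ z := by
  unfold PP
  have h1 : (9 : ℝ) ^ a / 4 ^ b = (3 / 2 : ℝ) ^ ((b : ℤ) + a) * 6 ^ (-((b : ℤ) - a)) := by
    rw [neg_sub, zpow_sub₀ (by norm_num), zpow_add₀ (by norm_num), zpow_natCast, zpow_natCast, zpow_natCast,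
      zpow_natCast, show (9 : ℝ) = 3 * 3 by norm_num, show (4 : ℝ) = 2 * 2 by norm_num,
      show (6 : ℝ) = 2 * 3 by norm_num, div_pow, div_pow, mul_pow, mul_pow, mul_pow, mul_pow]
    field_simp
  rw [h1, mul_zpow, ← zpow_mul, ← zpow_mul, zpow_add₀ (by norm_num : (3 / 2 : ℝ) ≠ 0), neg_add,
    zpow_add₀ (by norm_num : (6 : ℝ) ≠ 0), neg_mul]
  ring

theorem norm_coe_le (u : ℝ) : ‖((u : ℝ) : TT)‖ ≤ |u| := by
  rw [UnitAddCircle.norm_eq]
  simpa using round_le u 0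

theorem stable {V : ℝ} (hV : 0 < V) {y : TT} {A B B' ρ ρ' ε : ℝ} {a b Z : ℕ}
    (hr : 1 < (9 : ℝ) ^ a / 4 ^ b) (hrZ : ((9 : ℝ) ^ a / 4 ^ b) ^ Z ≤ 1 + ε) (hε1 : ε ≤ 1)
    (hA : 0 < A) (hBB : 2 * B' ≤ B) (hρ : B' * ε ≤ ρ - ρ') {c z : ℤ} (hz : |z| ≤ Z)
    (h : NoHit V y A B ρ c) : NoHit V y (2 * A) B' ρ' (c + ((b : ℤ) - a) * z) := by
  set r : ℝ := (9 : ℝ) ^ a / 4 ^ b with hrd
  intro t h1 h2
  set P' := PP V (c + ((b : ℤ) - a) * z) t with hP'
  have hP'0 : 0 < P' := PP_pos hV _ _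
  have e : PP V c (t + ((b : ℤ) + a) * (-z)) = P' * r ^ (-z) := by
    rw [hP', hrd, ← PP_shift]
    congr 1
    ring
  have hr0 : 0 < r := by linarith
  have hε0 : 0 ≤ ε := by
    have := one_le_pow₀ hr.le (n := Z)
    linarith
  have hup : r ^ (-z) ≤ 1 + ε := by
    refine le_trans ?_ hrZ
    rw [← zpow_natCast]
    exact zpow_le_zpow_right₀ hr.le (by have := neg_abs_le z; omega)
  have hlow : 1 / (1 + ε) ≤ r ^ (-z) := by
    have h3 : r ^ z ≤ 1 + ε := by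
      refine le_trans ?_ hrZ
      rw [← zpow_natCast]
      exact zpow_le_zpow_right₀ hr.le (by have := le_abs_self z; omega)
    rw [zpow_neg, one_div]
    exact inv_anti₀ (zpow_pos hr0 _) h3
  have hlow2 : 1 - ε ≤ 1 / (1 + ε) := by
    rw [le_div_iff₀ (by linarith)]
    nlinarith
  have hlow3 : 1 / 2 ≤ 1 / (1 + ε) := by
    apply one_div_le_one_div_of_le <;> linarith
  have h4 := h (t + ((b : ℤ) + a) * (-z)) (by rw [e]; nlinarith) (by rw [e]; nlinarith)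
  rw [e] at h4
  have h5 : |P' * r ^ (-z) - P'| ≤ B' * ε := by
    rw [abs_le]
    constructor <;> nlinarith
  have h6 : ‖((P' * r ^ (-z) : ℝ) : TT) - y‖ ≤ ‖((P' : ℝ) : TT) - y‖ + ‖((P' * r ^ (-z) - P' : ℝ) : TT)‖ := by
    have : ((P' * r ^ (-z) : ℝ) : TT) - y = (((P' : ℝ) : TT) - y) + ((P' * r ^ (-z) - P' : ℝ) : TT) := by
      rw [AddCircle.coe_sub]
      abel
    rw [this]
    exact norm_add_le _ _
  have h7 := norm_coe_le (P' * r ^ (-z) - P')
  linarith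

theorem crossing {V : ℝ} (hV : 0 < V) {y : TT} {A ρ ρ₀ : ℝ} {a b Z : ℕ} (hρ₀ : 0 < ρ₀) (hρ : ρ₀ < ρ)
    (hr : 1 < (9 : ℝ) ^ a / 4 ^ b) (hrZ : ((9 : ℝ) ^ a / 4 ^ b) ^ Z ≤ 2) (hZ : 3 / ρ₀ ≤ Z)
    (hW : A ≤ ρ₀ / (3 * ((9 : ℝ) ^ a / 4 ^ b - 1))) (c : ℤ) :
    ∃ z ≤ Z, ¬ NoHit V y A (3 * (ρ₀ / (3 * ((9 : ℝ) ^ a / 4 ^ b - 1))) + 1) ρ (c + ((b : ℤ) - a) * z) := by
  set r : ℝ := (9 : ℝ) ^ a / 4 ^ b with hrd
  have hr1 : 0 < r - 1 := by linarith
  set W : ℝ := ρ₀ / (3 * (r - 1)) with hWd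
  have hW0 : 0 < W := by positivity
  have hWr : W * (r - 1) = ρ₀ / 3 := by
    rw [hWd]
    field_simp
  have hx : 0 < W / (6 ^ (-c) * V) := by positivity
  obtain ⟨n, hn1, hn2⟩ := exists_mem_Ico_zpow hx (show (1 : ℝ) < 3 / 2 by norm_num)
  set t : ℤ := n + 1 with ht
  have hP1 : W < PP V c t := by
    unfold PP
    rwa [div_lt_iff₀ (by positivity)] at hn2
  have hP2 : PP V c t ≤ 3 / 2 * W := by
    unfold PP
    rw [le_div_iff₀ (by positivity)] at hn1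
    rw [ht, zpow_add₀ (by norm_num), zpow_one]
    linarith
  obtain ⟨z, hz, hd⟩ := cross (PP V c t) r ρ₀ Z (PP_pos hV _ _) hr (by
      have h3 : PP V c t * r ^ Z ≤ 3 / 2 * W * 2 := by
        have : (0 : ℝ) ≤ r ^ Z := by positivity
        have := PP_pos hV c t
        nlinarith
      nlinarith) (by
      have h3 : ρ₀ / 3 ≤ PP V c t * (r - 1) := by
        rw [← hWr]
        nlinarith
      calc (1 : ℝ) = 3 / ρ₀ * (ρ₀ / 3) := by field_simp
        _ ≤ Z * (PP V c t * (r - 1)) := by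
          apply mul_le_mul hZ h3 (by positivity) (by positivity)) y
  refine ⟨z, hz, fun h => ?_⟩
  have e : PP V (c + ((b : ℤ) - a) * z) (t + ((b : ℤ) + a) * z) = PP V c t * r ^ z := by
    rw [PP_shift, zpow_natCast]
  have h1 : 1 ≤ r ^ z := one_le_pow₀ hr.le
  have h2 : r ^ z ≤ 2 := (pow_le_pow_right₀ hr.le hz).trans hrZ
  have hPp := PP_pos hV c t
  have := h (t + ((b : ℤ) + a) * z) (by rw [e]; nlinarith) (by rw [e]; nlinarith)
  rw [e] at this
  linarith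

theorem count_step {S S' : ℕ → ℝ} (q Z : ℕ) (hq : 0 < q) (hS : ∀ c, S c = 0 ∨ S c = 1) (hS' : ∀ c, S' c = 0 ∨ S' c = 1)
    (h1 : ∀ c z z' : ℕ, z ≤ Z → z' ≤ Z → S (c + q * z) = 1 → S' (c + q * z') = 1)
    (h2 : ∀ c : ℕ, ∃ z ≤ Z, S (c + q * z) = 0) (C : ℕ) :
    ∑ c ∈ Finset.range C, S c ≤ (1 - 1 / ((Z + 1 : ℕ) : ℝ)) * ∑ c ∈ Finset.range C, S' c + (q * (Z + 1) : ℕ) := by
  have hS0 : ∀ c, 0 ≤ S c := fun c => by rcases hS c with h | h <;> rw [h] <;> norm_num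
  have hS1 : ∀ c, S c ≤ 1 := fun c => by rcases hS c with h | h <;> rw [h] <;> norm_num
  have hS'0 : ∀ c, 0 ≤ S' c := fun c => by rcases hS' c with h | h <;> rw [h] <;> norm_num
  set η : ℝ := 1 - 1 / ((Z + 1 : ℕ) : ℝ) with hη
  have hZ0 : (0 : ℝ) < ((Z + 1 : ℕ) : ℝ) := by positivity
  have hη0 : 0 ≤ η := by
    rw [hη, sub_nonneg, div_le_one hZ0]
    push_cast
    linarith [(Nat.cast_nonneg Z : (0 : ℝ) ≤ Z)]
  have prog : ∀ c : ℕ, ∑ z ∈ Finset.range (Z + 1), S (c + q * z) ≤ η * ∑ z ∈ Finset.range (Z + 1), S' (c + q * z) := by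
    intro c
    by_cases hc : ∃ z ≤ Z, S (c + q * z) = 1
    · obtain ⟨z, hz, hzS⟩ := hc
      have hall : ∀ z' ∈ Finset.range (Z + 1), S' (c + q * z') = 1 := fun z' hz' =>
        h1 c z z' hz (Nat.lt_succ_iff.1 (Finset.mem_range.1 hz')) hzS
      rw [Finset.sum_congr rfl hall, Finset.sum_const, Finset.card_range, nsmul_eq_mul, mul_one]
      obtain ⟨z0, hz0, h0⟩ := h2 c
      have hmem : z0 ∈ Finset.range (Z + 1) := Finset.mem_range.2 (by omega)
      rw [← Finset.add_sum_erase _ _ hmem, h0, zero_add]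
      have h3 : ∑ z ∈ (Finset.range (Z + 1)).erase z0, S (c + q * z) ≤ ∑ z ∈ (Finset.range (Z + 1)).erase z0, (1 : ℝ) :=
        Finset.sum_le_sum fun z _ => hS1 _
      rw [Finset.sum_const, Finset.card_erase_of_mem hmem, Finset.card_range, nsmul_eq_mul, mul_one,
        Nat.add_sub_cancel] at h3
      have h4 : η * ((Z + 1 : ℕ) : ℝ) = Z := by
        rw [hη, sub_mul, div_mul_cancel₀ _ hZ0.ne']
        push_cast
        ring
      rw [h4]
      exact h3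
    · push Not at hc
      have hz : ∀ z ∈ Finset.range (Z + 1), S (c + q * z) = 0 := by
        intro z hz
        rcases hS (c + q * z) with h | h
        · exact h
        · exact absurd h (hc z (Nat.lt_succ_iff.1 (Finset.mem_range.1 hz)))
      rw [Finset.sum_congr rfl hz, Finset.sum_const_zero]
      exact mul_nonneg hη0 (Finset.sum_nonneg fun z _ => hS'0 _)
  have block : ∀ s : ℕ, ∑ c ∈ Finset.range (q * (Z + 1)), S (c + s) ≤
      η * ∑ c ∈ Finset.range (q * (Z + 1)), S' (c + s) := by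
    intro s
    rw [sum_split, sum_split, Finset.sum_comm, Finset.sum_comm (s := Finset.range (Z + 1)), Finset.mul_sum]
    refine Finset.sum_le_sum fun c _ => ?_
    have := prog (c + s)
    simp only [add_right_comm c s] at this
    exact this
  set k := C / (q * (Z + 1)) with hk
  have hk1 : q * (Z + 1) * k ≤ C := Nat.mul_div_le C _
  have hk2 : C < q * (Z + 1) * (k + 1) := Nat.lt_mul_div_succ C (by positivity)
  have h5 : ∑ c ∈ Finset.range C, S c ≤ ∑ c ∈ Finset.range (q * (Z + 1) * k), S c + (q * (Z + 1) : ℕ) := by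
    rw [← Finset.sum_range_add_sum_Ico _ hk1]
    have h6 : ∑ c ∈ Finset.Ico (q * (Z + 1) * k) C, S c ≤ ∑ c ∈ Finset.Ico (q * (Z + 1) * k) C, (1 : ℝ) :=
      Finset.sum_le_sum fun c _ => hS1 c
    rw [Finset.sum_const, Nat.card_Ico, nsmul_eq_mul, mul_one] at h6
    have h7 : C - q * (Z + 1) * k ≤ q * (Z + 1) := by
      rw [mul_add, mul_one] at hk2
      omega
    have h8 : ((C - q * (Z + 1) * k : ℕ) : ℝ) ≤ ((q * (Z + 1) : ℕ) : ℝ) := by exact_mod_cast h7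
    linarith
  have h9 : ∑ c ∈ Finset.range (q * (Z + 1) * k), S c ≤ η * ∑ c ∈ Finset.range (q * (Z + 1) * k), S' c := by
    rw [sum_split, sum_split, Finset.mul_sum]
    exact Finset.sum_le_sum fun z _ => block _
  have h10 : ∑ c ∈ Finset.range (q * (Z + 1) * k), S' c ≤ ∑ c ∈ Finset.range C, S' c :=
    Finset.sum_le_sum_of_subset_of_nonneg (Finset.range_mono hk1) fun c _ _ => hS'0 c
  have h11 := mul_le_mul_of_nonneg_left h10 hη0
  linarith

end Pool.Agent.H48.M32
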