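import Pool.Agent.H48.M32.LeftB

/-!
# Almost all cells to the left show all words
-/

set_option autoImplicit false

namespace Pool.Agent.H48.M32

open Filter Topology Set
open Pool.Agent.H847R3.XpXq
open Pool.Agent.H48.CBR

open Classical in
/-- the indicator of `NoHit` -/
noncomputable def ind (V : ℝ) (y : TT) (A B r : ℝ) (c : ℕ) : ℝ := if NoHit V y A B r c then 1 else 0

theorem ind_01 (V : ℝ) (y : TT) (A B r : ℝ) (c : ℕ) : ind V y A B r c = 0 ∨ ind V y A B r c = 1 := by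
  unfold ind
  split_ifs
  · exact Or.inr rfl
  · exact Or.inl rfl

theorem ind_one {V : ℝ} {y : TT} {A B r : ℝ} {c : ℕ} : ind V y A B r c = 1 ↔ NoHit V y A B r c := by
  unfold ind
  split_ifs with h
  · simp [h]
  · simp [h]

theorem ind_zero {V : ℝ} {y : TT} {A B r : ℝ} {c : ℕ} : ind V y A B r c = 0 ↔ ¬ NoHit V y A B r c := by
  unfold ind
  split_ifs with h
  · simp [h]
  · simp [h]

theorem recur {ρ₀ : ℝ} (hρ₀ : 0 < ρ₀) {Z : ℕ} (hZ : 3 / ρ₀ ≤ Z) (m : ℕ) : ∀ ρ A : ℝ, ρ₀ < ρ → 0 < A → ∃ B K : ℝ,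
    0 < B ∧ 0 ≤ K ∧ ∀ V : ℝ, 0 < V → ∀ (y : TT) (C : ℕ),
      ∑ c ∈ Finset.range C, ind V y A B ρ c ≤ (1 - 1 / ((Z + 1 : ℕ) : ℝ)) ^ m * C + K := by
  induction m with
  | zero =>
    intro ρ A _ _
    refine ⟨1, 0, one_pos, le_rfl, fun V _ y C => ?_⟩
    rw [pow_zero, one_mul, add_zero]
    have : ∑ c ∈ Finset.range C, ind V y A 1 ρ c ≤ ∑ c ∈ Finset.range C, (1 : ℝ) :=
      Finset.sum_le_sum fun c _ => by rcases ind_01 V y A 1 ρ c with h | h <;> rw [h] <;> norm_num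
    simpa using this
  | succ m ih =>
    intro ρ A hρ hA
    obtain ⟨B', K', hB', hK', h⟩ := ih ((ρ + ρ₀) / 2) (2 * A) (by linarith) (by linarith)
    set ρ' := (ρ + ρ₀) / 2 with hρ'
    set ε : ℝ := min 1 ((ρ - ρ') / B') with hε
    have hε0 : 0 < ε := lt_min one_pos (div_pos (by linarith) hB')
    have hev : ∀ᶠ x in 𝓝 (1 : ℝ), x ^ Z < 1 + ε := by
      have h1 : Tendsto (fun x : ℝ => x ^ Z) (𝓝 1) (𝓝 1) := by
        have := (continuous_pow (M := ℝ) Z).tendsto 1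
        rwa [one_pow] at this
      exact h1.eventually_lt_const (by linarith)
    obtain ⟨δ, hδ, hδ'⟩ := Metric.eventually_nhds_iff.1 hev
    obtain ⟨a, b, hab, hr1, hr2⟩ := ratio (min δ (ρ₀ / (3 * (A + B')))) (lt_min hδ (by positivity))
    set r : ℝ := (9 : ℝ) ^ a / 4 ^ b with hr
    have hrZ : r ^ Z ≤ 1 + ε := by
      apply (hδ' _).le
      rw [Real.dist_eq, abs_of_pos (by linarith)]
      have := min_le_left δ (ρ₀ / (3 * (A + B')))
      linarith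
    have hε1 : ε ≤ 1 := min_le_left _ _
    have hε2 : B' * ε ≤ ρ - ρ' := by
      have := min_le_right 1 ((ρ - ρ') / B')
      calc B' * ε ≤ B' * ((ρ - ρ') / B') := by gcongr
        _ = ρ - ρ' := by field_simp
    have hr0 : 0 < r - 1 := by linarith
    set W : ℝ := ρ₀ / (3 * (r - 1)) with hW
    have hWA : A + B' ≤ W := by
      rw [hW, le_div_iff₀ (by positivity)]
      have h1 := min_le_right δ (ρ₀ / (3 * (A + B')))
      have h2 : r - 1 ≤ ρ₀ / (3 * (A + B')) := by linarith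
      rw [le_div_iff₀ (by positivity)] at h2
      linarith
    have hW0 : 0 < W := by linarith
    obtain ⟨q, hq⟩ : ∃ q : ℕ, b = a + q := ⟨b - a, by omega⟩
    have hq0 : 0 < q := by omega
    have hqz : ((b : ℤ) - a) = q := by rw [hq]; push_cast; ring
    refine ⟨3 * W + 1, K' + (q * (Z + 1) : ℕ), by positivity, by positivity, fun V hV y C => ?_⟩
    have key := count_step (S := ind V y A (3 * W + 1) ρ) (S' := ind V y (2 * A) B' ρ') q Z hq0
      (ind_01 _ _ _ _ _) (ind_01 _ _ _ _ _) ?_ ?_ C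
    · have h3 := h V hV y C
      have hη0 : (0 : ℝ) ≤ 1 - 1 / ((Z + 1 : ℕ) : ℝ) := by
        rw [sub_nonneg, div_le_one (by positivity)]
        push_cast
        linarith [(Nat.cast_nonneg Z : (0 : ℝ) ≤ Z)]
      have hη1 : (1 : ℝ) - 1 / ((Z + 1 : ℕ) : ℝ) ≤ 1 := by
        have : (0 : ℝ) ≤ 1 / ((Z + 1 : ℕ) : ℝ) := by positivity
        linarith
      have h4 := mul_le_mul_of_nonneg_left h3 hη0
      have h5 : (1 - 1 / ((Z + 1 : ℕ) : ℝ)) * K' ≤ K' := by nlinarith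
      rw [pow_succ]
      nlinarith
    · intro c z z' hz hz' h1
      rw [ind_one] at h1 ⊢
      have h2 := stable hV hr1 hrZ hε1 hA (B' := B') (ρ' := ρ') (B := 3 * W + 1) (by linarith) hε2
        (z := (z' : ℤ) - z) (by rw [abs_le]; constructor <;> omega) h1
      rw [hqz] at h2
      convert h2 using 1
      push_cast
      ring
    · intro c
      obtain ⟨z, hz, h1⟩ := crossing hV (y := y) hρ₀ hρ hr1 (hrZ.trans (by linarith)) hZ (A := A)
        (by rw [← hr, ← hW]; linarith) (c : ℤ)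
      refine ⟨z, hz, ?_⟩
      rw [ind_zero]
      rw [hqz] at h1
      convert h1 using 2
      push_cast
      ring

/-- for most cells there are many visits -/
theorem visits {ρ : ℝ} (hρ : 0 < ρ) (y : TT) (n : ℕ) : ∀ ε A : ℝ, 0 < ε → 0 < A → ∃ K : ℝ, 0 ≤ K ∧
    ∀ V : ℝ, 0 < V → ∀ C : ℕ, ({c : ℕ | c < C ∧ ¬ ∃ S : Finset ℤ, S.card = n ∧
      ∀ t ∈ S, A ≤ PP V c t ∧ ‖((PP V c t : ℝ) : TT) - y‖ < ρ}.ncard : ℝ) ≤ ε * C + K := by
  classical
  induction n with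
  | zero =>
    intro ε A hε _
    refine ⟨0, le_rfl, fun V _ C => ?_⟩
    have : {c : ℕ | c < C ∧ ¬ ∃ S : Finset ℤ, S.card = 0 ∧
      ∀ t ∈ S, A ≤ PP V c t ∧ ‖((PP V c t : ℝ) : TT) - y‖ < ρ} = ∅ := by
      ext c
      simp only [mem_ofPred_eq, mem_empty_iff_false, iff_false, not_and, not_not]
      exact fun _ => ⟨∅, rfl, fun t ht => absurd ht (Finset.notMem_empty t)⟩
    rw [this, Set.ncard_empty]
    push_cast
    positivity
  | succ n ih =>
    intro ε A hε hA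
    set Z : ℕ := ⌈3 / (ρ / 2)⌉₊ with hZ
    have hη0 : (0 : ℝ) ≤ 1 - 1 / ((Z + 1 : ℕ) : ℝ) := by
      rw [sub_nonneg, div_le_one (by positivity)]
      push_cast
      linarith [(Nat.cast_nonneg Z : (0 : ℝ) ≤ Z)]
    have hη1 : (1 : ℝ) - 1 / ((Z + 1 : ℕ) : ℝ) < 1 := by
      have : (0 : ℝ) < 1 / ((Z + 1 : ℕ) : ℝ) := by positivity
      linarith
    obtain ⟨m, hm⟩ := exists_pow_lt_of_lt_one (show (0 : ℝ) < ε / 2 by linarith) hη1
    obtain ⟨B, K1, hB, hK1, h1⟩ := recur (show (0 : ℝ) < ρ / 2 by linarith) (Z := Z) (Nat.le_ceil _) m ρ A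
      (by linarith) hA
    obtain ⟨K2, hK2, h2⟩ := ih (ε / 2) (max A B) (by linarith) (lt_max_of_lt_left hA)
    refine ⟨K1 + K2, by positivity, fun V hV C => ?_⟩
    have hsub : {c : ℕ | c < C ∧ ¬ ∃ S : Finset ℤ, S.card = n + 1 ∧
        ∀ t ∈ S, A ≤ PP V c t ∧ ‖((PP V c t : ℝ) : TT) - y‖ < ρ} ⊆
        ((Finset.range C).filter fun c : ℕ => NoHit V y A B ρ c : Finset ℕ) ∪
        {c : ℕ | c < C ∧ ¬ ∃ S : Finset ℤ, S.card = n ∧
        ∀ t ∈ S, max A B ≤ PP V c t ∧ ‖((PP V c t : ℝ) : TT) - y‖ < ρ} := by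
      rintro c ⟨hc, hno⟩
      by_cases h3 : NoHit V y A B ρ c
      · left
        simp [hc, h3]
      · right
        refine ⟨hc, ?_⟩
        rintro ⟨S, hS, hS'⟩
        apply hno
        unfold NoHit at h3
        push Not at h3
        obtain ⟨t, ht1, ht2, ht3⟩ := h3
        have htS : t ∉ S := by
          intro h4
          have h5 := (le_max_right A B).trans (hS' t h4).1
          linarith
        refine ⟨insert t S, by rw [Finset.card_insert_of_notMem htS, hS], ?_⟩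
        intro s hs
        rcases Finset.mem_insert.1 hs with rfl | hs
        · exact ⟨ht1, ht3⟩
        · exact ⟨(le_max_left A B).trans (hS' s hs).1, (hS' s hs).2⟩
    have hfin2 : {c : ℕ | c < C ∧ ¬ ∃ S : Finset ℤ, S.card = n ∧
        ∀ t ∈ S, max A B ≤ PP V c t ∧ ‖((PP V c t : ℝ) : TT) - y‖ < ρ}.Finite :=
      (Finset.range C).finite_toSet.subset fun c hc => Finset.mem_coe.2 (Finset.mem_range.2 hc.1)
    have h4 := Set.ncard_le_ncard hsub ((Finset.finite_toSet _).union hfin2)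
    have h5 := h4.trans (Set.ncard_union_le _ _)
    rw [Set.ncard_coe_finset] at h5
    have h6 : (((Finset.range C).filter fun c : ℕ => NoHit V y A B ρ c).card : ℝ) =
        ∑ c ∈ Finset.range C, ind V y A B ρ c := by
      unfold ind
      rw [Finset.sum_ite, Finset.sum_const, Finset.sum_const_zero, add_zero, nsmul_eq_mul, mul_one]
    have h7 := h1 V hV y C
    have h8 := h2 V hV C
    have h9 : (1 - 1 / ((Z + 1 : ℕ) : ℝ)) ^ m * C ≤ ε / 2 * C := by gcongr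
    have h10 : ({c : ℕ | c < C ∧ ¬ ∃ S : Finset ℤ, S.card = n + 1 ∧
        ∀ t ∈ S, A ≤ PP V c t ∧ ‖((PP V c t : ℝ) : TT) - y‖ < ρ}.ncard : ℝ) ≤
        (((Finset.range C).filter fun c : ℕ => NoHit V y A B ρ c).card : ℝ) +
        ({c : ℕ | c < C ∧ ¬ ∃ S : Finset ℤ, S.card = n ∧
        ∀ t ∈ S, max A B ≤ PP V c t ∧ ‖((PP V c t : ℝ) : TT) - y‖ < ρ}.ncard : ℝ) := by exact_mod_cast h5
    rw [h6] at h10
    linarith

/-- the value at the first nonzero cell -/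
theorem val_le {x : ℤ → Fin 6} {V : ℝ} (hV : IsV (ext x) V) {m : ℤ} (hm : ∀ i < m, x i = 0) : 6 ^ m * V ≤ 1 := by
  have key : ∀ k : ℕ, 6 ^ k * EE (ext x).1 (m - k) (m - k) = EE (ext x).1 m m := by
    intro k
    induction k with
    | zero => simp
    | succ k ih =>
      have h1 := EE_step (ext x).1 (m - ((k + 1 : ℕ) : ℤ)) (m - ((k + 1 : ℕ) : ℤ))
      have e : m - ((k + 1 : ℕ) : ℤ) + 1 = m - k := by push_cast; ring
      rw [e, ext_diag, hm _ (by push_cast; omega)] at h1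
      simp only [Fin.val_zero, Nat.cast_zero, zero_add] at h1
      rw [pow_succ, mul_assoc, h1, ih]
  obtain ⟨n0, h0⟩ := hV
  set n := n0 + m.natAbs with hn
  obtain ⟨k, hk⟩ : ∃ k : ℕ, m + n = k := ⟨(m + n).toNat, (Int.toNat_of_nonneg (by omega)).symm⟩
  have h1 := (h0 n (by omega)).2
  have h2 := key k
  have e : m - (k : ℤ) = -n := by omega
  rw [e] at h2
  rw [← h1, ← mul_assoc, ← zpow_natCast (6 : ℝ) n, ← zpow_add₀ (by norm_num), hk, zpow_natCast, h2]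
  exact EE_le_one _ _ _

theorem left (L n : ℕ) (ε : ℝ) (hε : 0 < ε) : ∃ K : ℝ, ∀ x : ℤ → Fin 6, x ≠ 0 → ∀ m : ℤ, (∀ i < m, x i = 0) →
    ∀ C : ℕ, ({c : ℕ | c < C ∧ ∃ w : Fin L → Fin 6, ¬ Often x w (m - c) n}.ncard : ℝ) ≤ ε * C + K := by
  classical
  obtain ⟨ρ, hρ, hw⟩ := shows_of' L
  choose lo _ _ hlo using hw
  have hcardW : (0 : ℝ) < (Fintype.card (Fin L → Fin 6) : ℝ) := by exact_mod_cast Fintype.card_pos
  have hv := fun w : Fin L → Fin 6 => visits hρ ((lo w + ρ : ℝ) : TT) n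
    (ε / (Fintype.card (Fin L → Fin 6) : ℝ)) 2 (by positivity) (by norm_num)
  choose K hK hv using hv
  refine ⟨∑ w, K w, fun x hx m hm C => ?_⟩
  obtain ⟨V, hV, hIV⟩ := ext_isV hx ⟨m, hm⟩
  have hV1 := val_le hIV hm
  set V' : ℝ := 6 ^ m * V with hV'
  have hV'0 : 0 < V' := by positivity
  have hsub : {c : ℕ | c < C ∧ ∃ w : Fin L → Fin 6, ¬ Often x w (m - c) n} ⊆
      ⋃ w ∈ (Finset.univ : Finset (Fin L → Fin 6)), {c : ℕ | c < C ∧ ¬ ∃ S : Finset ℤ, S.card = n ∧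
      ∀ t ∈ S, 2 ≤ PP V' c t ∧ ‖((PP V' c t : ℝ) : TT) - ((lo w + ρ : ℝ) : TT)‖ < ρ} := by
    rintro c ⟨hc, w, hcw⟩
    refine mem_iUnion₂.2 ⟨w, Finset.mem_univ w, hc, ?_⟩
    rintro ⟨S, hS, hS'⟩
    apply hcw
    have hpos : ∀ t ∈ S, 0 ≤ t := by
      intro t ht
      by_contra hneg
      push Not at hneg
      have h1 := (hS' t ht).1
      unfold PP at h1
      have h2 : (3 / 2 : ℝ) ^ t ≤ 1 := zpow_le_one_of_nonpos₀ (by norm_num) hneg.le
      have h3 : (6 : ℝ) ^ (-(c : ℤ)) ≤ 1 := zpow_le_one_of_nonpos₀ (by norm_num) (by omega)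
      have h4 : (6 : ℝ) ^ (-(c : ℤ)) * V' ≤ 1 := by
        have : (0 : ℝ) < 6 ^ (-(c : ℤ)) := by positivity
        nlinarith
      have h5 : (0 : ℝ) < (3 / 2 : ℝ) ^ t := by positivity
      have h6 : (0 : ℝ) < (6 : ℝ) ^ (-(c : ℤ)) * V' := by positivity
      nlinarith
    refine ⟨S.image Int.toNat, ?_, ?_⟩
    · rw [Finset.card_image_of_injOn, hS]
      intro s hs t ht hst
      have h1 := hpos s hs
      have h2 := hpos t ht
      omega
    · intro t ht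
      obtain ⟨s, hs, rfl⟩ := Finset.mem_image.1 ht
      apply hlo w x V hIV
      have h1 := (hS' s hs).2
      have h2 : PP V' c s = (3 / 2) ^ s.toNat * (6 ^ (m - (c : ℤ)) * V) := by
        unfold PP
        rw [hV', ← mul_assoc (6 ^ (-(c : ℤ)) : ℝ), ← zpow_add₀ (by norm_num), ← zpow_natCast,
          Int.toNat_of_nonneg (hpos s hs)]
        congr 3
        ring
      rw [← h2]
      exact h1
  have hfin : ∀ w : Fin L → Fin 6, {c : ℕ | c < C ∧ ¬ ∃ S : Finset ℤ, S.card = n ∧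
      ∀ t ∈ S, 2 ≤ PP V' c t ∧ ‖((PP V' c t : ℝ) : TT) - ((lo w + ρ : ℝ) : TT)‖ < ρ}.Finite := fun w =>
    (Finset.range C).finite_toSet.subset fun c hc => Finset.mem_coe.2 (Finset.mem_range.2 hc.1)
  have h1 := Set.ncard_le_ncard hsub ((Finset.finite_toSet _).biUnion fun w _ => hfin w)
  have h2 : (⋃ w ∈ (Finset.univ : Finset (Fin L → Fin 6)), {c : ℕ | c < C ∧ ¬ ∃ S : Finset ℤ, S.card = n ∧
      ∀ t ∈ S, 2 ≤ PP V' c t ∧ ‖((PP V' c t : ℝ) : TT) - ((lo w + ρ : ℝ) : TT)‖ < ρ}).ncard ≤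
      ∑ w : Fin L → Fin 6, {c : ℕ | c < C ∧ ¬ ∃ S : Finset ℤ, S.card = n ∧
      ∀ t ∈ S, 2 ≤ PP V' c t ∧ ‖((PP V' c t : ℝ) : TT) - ((lo w + ρ : ℝ) : TT)‖ < ρ}.ncard :=
    Finset.set_ncard_biUnion_le _ _
  have h3 : ({c : ℕ | c < C ∧ ∃ w : Fin L → Fin 6, ¬ Often x w (m - c) n}.ncard : ℝ) ≤
      ∑ w : Fin L → Fin 6, ({c : ℕ | c < C ∧ ¬ ∃ S : Finset ℤ, S.card = n ∧
      ∀ t ∈ S, 2 ≤ PP V' c t ∧ ‖((PP V' c t : ℝ) : TT) - ((lo w + ρ : ℝ) : TT)‖ < ρ}.ncard : ℝ) := by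
    exact_mod_cast h1.trans h2
  refine h3.trans ((Finset.sum_le_sum fun w _ => hv w V' hV'0 C).trans ?_)
  rw [Finset.sum_add_distrib, Finset.sum_const, Finset.card_univ, nsmul_eq_mul, ← mul_assoc, mul_div_cancel₀ _ hcardW.ne']

end Pool.Agent.H48.M32
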