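import Pool.Agent.H48.M32.Sepa
import Pool.Agent.H48.M32.Four

/-!
# Almost all multiples show all words at a given cell
-/

set_option autoImplicit false

namespace Pool.Agent.H48.M32

open Filter Topology Set


theorem posRat (a : ℕ) (ha : 0 < a) (c : ℤ) : PosRat (6 ^ c * (a / 6)) := by
  rcases Int.eq_nat_or_neg c with ⟨n, rfl | rfl⟩
  · exact ⟨6 ^ n * a, 6, by positivity, by norm_num, by push_cast; rw [zpow_natCast]; ring⟩
  · refine ⟨a, 6 ^ n * 6, ha, by positivity, ?_⟩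
    rw [zpow_neg, zpow_natCast]
    push_cast
    field_simp

theorem mul_th (m a : ℕ) (c : ℤ) (t : ℕ) : m • th (6 ^ c * (a / 6)) t =
    (((3 / 2) ^ t * (6 ^ c * (((m * a : ℕ) : ℝ) / 6)) : ℝ) : UnitAddCircle) := by
  unfold th
  rw [← AddCircle.coe_nsmul, nsmul_eq_mul]
  congr 1
  push_cast
  ring

/-- all words of length `L` stand at the cell `c` at infinitely many times -/
def Good (L : ℕ) (x : ℤ → Fin 6) (c : ℤ) : Prop :=
  ∀ w : Fin L → Fin 6, {t : ℕ | Shows (F32^[t] x) w c}.Infinite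

theorem mult (L : ℕ) (δ : ℝ) (hδ : 0 < δ) : ∃ N₀ : ℕ, ∀ a : ℕ, 0 < a → ∀ (c : ℤ) (A N : ℕ), N₀ ≤ N →
    ({m : ℕ | A ≤ m ∧ m < A + N ∧ ¬ Good L (cfg (m * a)) c}.ncard : ℝ) ≤ δ * N := by
  classical
  obtain ⟨ρ, hρ, hw⟩ := shows_of L
  obtain ⟨k, hk⟩ := kern hρ
  set κ : ℝ := 1 / (2 * ((k : ℝ) + 1)) with hκ
  have hκ0 : 0 < κ := by positivity
  set K : ℕ := ⌈2 * k / (κ ^ 2 * δ)⌉₊ + 1 with hK
  have hK0 : (0 : ℝ) < K := by rw [hK]; positivity
  have hK1 : 2 * k / (κ ^ 2 * δ) ≤ K := by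
    rw [hK]
    push_cast
    linarith [Nat.le_ceil (2 * (k : ℝ) / (κ ^ 2 * δ))]
  obtain ⟨η, hη, hsel⟩ := select K k
  obtain ⟨c0, hc0, haway⟩ := exists_away hη
  refine ⟨⌈2 * (k * (2 / c0 / κ ^ 2)) / δ⌉₊, fun a ha c A N hN => ?_⟩
  obtain ⟨l, hl1, hl2⟩ := hsel _ (posRat a ha c)
  set B : Finset ℕ := (Finset.range N).filter fun m =>
    ∃ h : ℕ, 1 ≤ h ∧ h ≤ k ∧ κ * K ≤ ‖∑ i, E ((A + m) • l i) ^ h‖ with hB
  have hsub : {m : ℕ | A ≤ m ∧ m < A + N ∧ ¬ Good L (cfg (m * a)) c} ⊆ (fun j => A + j) '' (B : Set ℕ) := by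
    rintro m' ⟨hAm, hm, hbad⟩
    obtain ⟨m, rfl⟩ := Nat.exists_eq_add_of_le hAm
    refine ⟨m, ?_, rfl⟩
    by_contra hmB
    apply hbad
    intro w
    obtain ⟨y, hy⟩ := hw w
    obtain ⟨i, hi⟩ := hk K (fun i => (A + m) • l i) y (by exact_mod_cast hK0) (fun h h1 h2 => by
      by_contra hge
      apply hmB
      rw [hB, Finset.coe_filter]
      exact ⟨Finset.mem_range.2 (by omega), h, h1, h2, not_lt.1 hge⟩)
    have hnhds : {z : UnitAddCircle | ‖(A + m) • z - y‖ < ρ} ∈ 𝓝 (l i) := by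
      have ho : IsOpen {z : UnitAddCircle | ‖(A + m) • z - y‖ < ρ} :=
        isOpen_lt ((continuous_const_smul (A + m)).sub continuous_const).norm continuous_const
      exact ho.mem_nhds hi
    have hfr := mapClusterPt_iff_frequently.1 (hl1 i) _ hnhds
    rw [← Nat.frequently_atTop_iff_infinite]
    refine hfr.mono fun t ht => ?_
    have ht' : ‖(A + m) • th (6 ^ c * (a / 6)) t - y‖ < ρ := ht
    rw [mul_th] at ht'
    exact hy ((A + m) * a) c t ht'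
  have h1 : ({m : ℕ | A ≤ m ∧ m < A + N ∧ ¬ Good L (cfg (m * a)) c}.ncard : ℝ) ≤ B.card := by
    rw [← Set.ncard_coe_finset, ← Set.ncard_image_of_injective (B : Set ℕ) (add_right_injective A)]
    exact_mod_cast Set.ncard_le_ncard hsub (B.finite_toSet.image _)
  have h2 := count (by exact_mod_cast hK0) l (k := k) hc0 (fun i j hij h h1 h2 => haway _ (hl2 i j hij h h1 h2))
    hκ0 A N B (Finset.filter_subset _ _) (fun m hm => (Finset.mem_filter.1 hm).2)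
  have h3 : (k : ℝ) * (N / (κ ^ 2 * K)) ≤ δ * N / 2 := by
    have h4 : 2 * (k : ℝ) ≤ K * (κ ^ 2 * δ) := by
      rwa [div_le_iff₀ (by positivity)] at hK1
    rw [mul_div_assoc', div_le_iff₀ (by positivity)]
    have hN0 : (0 : ℝ) ≤ N := by positivity
    nlinarith
  have h5 : (k : ℝ) * (2 / c0 / κ ^ 2) ≤ δ * N / 2 := by
    have h6 : 2 * (k * (2 / c0 / κ ^ 2)) / δ ≤ N := (Nat.le_ceil _).trans (by exact_mod_cast hN)
    rw [div_le_iff₀ hδ] at h6
    linarith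
  have h7 : (k : ℝ) * (N / (κ ^ 2 * K) + 2 / c0 / κ ^ 2) = k * (N / (κ ^ 2 * K)) + k * (2 / c0 / κ ^ 2) := by ring
  linarith

end Pool.Agent.H48.M32
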