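import Pool.Agent.H48.M32.Cfg

/-!
# Powers of nine modulo powers of two, and the cells to the right
-/

set_option autoImplicit false

namespace Pool.Agent.H48.M32

open Filter Topology Set
open Pool.Agent.H847R3.XpXq
open Pool.Agent.H48.CBR

theorem nine_pow (k : ℕ) : ∃ o : ℤ, Odd o ∧ (9 : ℤ) ^ (2 ^ k) = 1 + 2 ^ (k + 3) * o := by
  induction k with
  | zero => exact ⟨1, odd_one, by norm_num⟩
  | succ k ih =>
    obtain ⟨o, ho, h⟩ := ih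
    refine ⟨o + 2 ^ (k + 2) * o ^ 2, ?_, ?_⟩
    · refine ho.add_even ?_
      rw [pow_succ 2 (k + 1)]
      exact ((even_two.mul_left _).mul_right _)
    · rw [pow_succ 2 k, pow_mul, h]
      ring

/-- powers of nine reach all the residue classes -/
theorem surj (u : ℤ) (hu : Odd u) (k c₀ : ℕ) : ∀ (g : ℕ) (M : ℤ), (2 : ℤ) ^ (k + 3) ∣ u * 9 ^ c₀ - M →
    ∃ z < 2 ^ g, (2 : ℤ) ^ (k + 3 + g) ∣ u * 9 ^ (c₀ + 2 ^ k * z) - M := by
  intro g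
  induction g with
  | zero => exact fun M h => ⟨0, by norm_num, by simpa using h⟩
  | succ g ih =>
    intro M h
    obtain ⟨z, hz, q, hq⟩ := ih M h
    rcases Int.even_or_odd q with hqe | hqo
    · refine ⟨z, by rw [pow_succ]; omega, ?_⟩
      obtain ⟨r, hr⟩ := hqe
      refine ⟨r, ?_⟩
      rw [hq, hr]
      ring
    · obtain ⟨o, ho, h9⟩ := nine_pow (k + g)
      refine ⟨z + 2 ^ g, by rw [pow_succ]; omega, ?_⟩
      have hA : Odd (u * 9 ^ (c₀ + 2 ^ k * z)) := hu.mul (Odd.pow (by decide))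
      obtain ⟨r, hr⟩ := hqo.add_odd (ho.mul hA)
      refine ⟨r, ?_⟩
      have e : (9 : ℤ) ^ (c₀ + 2 ^ k * (z + 2 ^ g)) = 9 ^ (c₀ + 2 ^ k * z) * (1 + 2 ^ (k + g + 3) * o) := by
        rw [← h9, ← pow_add]
        congr 1
        ring
      rw [e]
      have e2 : u * (9 ^ (c₀ + 2 ^ k * z) * (1 + 2 ^ (k + g + 3) * o)) - M =
          (u * 9 ^ (c₀ + 2 ^ k * z) - M) + 2 ^ (k + g + 3) * (o * (u * 9 ^ (c₀ + 2 ^ k * z))) := by ring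
      rw [e2, hq, show k + g + 3 = k + 3 + g by ring, ← mul_add, hr]
      ring

theorem coe_div_eq {a b : ℤ} {N : ℕ} (h : (2 : ℤ) ^ N ∣ a - b) :
    (((a : ℝ) / 2 ^ N : ℝ) : TT) = (((b : ℝ) / 2 ^ N : ℝ) : TT) := by
  obtain ⟨q, hq⟩ := h
  have h1 : (a : ℝ) = b + 2 ^ N * q := by
    have : a = b + 2 ^ N * q := by linarith
    exact_mod_cast this
  have h2 : (a : ℝ) / 2 ^ N = (b : ℝ) / 2 ^ N + q := by
    rw [h1]
    field_simp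
  rw [h2, AddCircle.coe_add]
  have : ((q : ℝ) : TT) = 0 := by
    rw [AddCircle.coe_eq_zero_iff]
    exact ⟨q, by simp⟩
  rw [this, add_zero]

/-- in each block one of the points is close to the target -/
theorem hit (u : ℤ) (hu : Odd u) (k c₀ g : ℕ) (y : TT) :
    ∃ z < 2 ^ g, ‖(((((u * 9 ^ (c₀ + 2 ^ k * z) : ℤ)) : ℝ) / 2 ^ (k + 3 + g) : ℝ) : TT) - y‖ ≤ 1 / 2 ^ g := by
  obtain ⟨Y, rfl⟩ : ∃ Y : ℝ, (Y : TT) = y := QuotientAddGroup.mk_surjective y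
  set B : ℤ := u * 9 ^ c₀ with hB
  set j : ℤ := ⌊(Y - (B : ℝ) / 2 ^ (k + 3 + g)) * 2 ^ g⌋ with hj
  obtain ⟨z, hz, hd⟩ := surj u hu k c₀ g (B + 2 ^ (k + 3) * j) ⟨-j, by rw [hB]; ring⟩
  refine ⟨z, hz, ?_⟩
  rw [coe_div_eq hd, ← AddCircle.coe_sub]
  have h1 : ((((B + 2 ^ (k + 3) * j : ℤ)) : ℝ) / 2 ^ (k + 3 + g) - Y) =
      ((j : ℝ) - (Y - (B : ℝ) / 2 ^ (k + 3 + g)) * 2 ^ g) / 2 ^ g := by
    push_cast
    rw [pow_add 2 (k + 3) g]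
    field_simp
    ring
  rw [h1]
  have h2 : |((j : ℝ) - (Y - (B : ℝ) / 2 ^ (k + 3 + g)) * 2 ^ g) / 2 ^ g| ≤ 1 / 2 ^ g := by
    rw [abs_div, abs_of_pos (by positivity : (0 : ℝ) < 2 ^ g)]
    gcongr
    have h3 := Int.floor_le ((Y - (B : ℝ) / 2 ^ (k + 3 + g)) * 2 ^ g)
    have h4 := Int.lt_floor_add_one ((Y - (B : ℝ) / 2 ^ (k + 3 + g)) * 2 ^ g)
    rw [abs_le]
    constructor <;> linarith
  refine le_trans ?_ h2
  rw [UnitAddCircle.norm_eq]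
  set r := ((j : ℝ) - (Y - (B : ℝ) / 2 ^ (k + 3 + g)) * 2 ^ g) / 2 ^ g
  have := round_le r 0
  simpa using this

/-- the points of low level depend only on the residue class -/
theorem per_nine (u : ℤ) (k c₀ z N : ℕ) (hN : N ≤ k + 3) :
    (((((u * 9 ^ (c₀ + 2 ^ k * z) : ℤ)) : ℝ) / 2 ^ N : ℝ) : TT) = (((((u * 9 ^ c₀ : ℤ)) : ℝ) / 2 ^ N : ℝ) : TT) := by
  apply coe_div_eq
  obtain ⟨o, -, h9⟩ := nine_pow k
  have h1 : (2 : ℤ) ^ N ∣ 9 ^ (2 ^ k * z) - 1 := by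
    rw [pow_mul, h9]
    have h2 : (2 : ℤ) ^ (k + 3) * o ∣ (1 + 2 ^ (k + 3) * o) ^ z - 1 := by
      have := sub_one_dvd_pow_sub_one (1 + 2 ^ (k + 3) * o) z
      rwa [add_sub_cancel_left] at this
    exact (Dvd.dvd.mul_right (pow_dvd_pow 2 hN) o).trans h2
  have e : u * 9 ^ (c₀ + 2 ^ k * z) - u * 9 ^ c₀ = (u * 9 ^ c₀) * (9 ^ (2 ^ k * z) - 1) := by
    rw [pow_add]
    ring
  rw [e]
  exact Dvd.dvd.mul_left h1 _

end Pool.Agent.H48.M32
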