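import Pool.Agent.H48.M32.Right

/-!
# Counting the cells to the right with few visits
-/

set_option autoImplicit false

namespace Pool.Agent.H48.M32

open Filter Topology Set
open Pool.Agent.H847R3.XpXq
open Pool.Agent.H48.CBR

theorem sum_split (f : ℕ → ℝ) (a b : ℕ) :
    ∑ c ∈ Finset.range (a * b), f c = ∑ z ∈ Finset.range b, ∑ c ∈ Finset.range a, f (c + a * z) := by
  induction b with
  | zero => simp
  | succ b ih =>
    rw [mul_add, mul_one, Finset.sum_range_add, ih, Finset.sum_range_succ]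
    congr 1
    refine Finset.sum_congr rfl fun c _ => ?_
    rw [add_comm]

section

variable (g : ℕ) (u : ℕ → ℤ) (y : TT) (ρ : ℝ)

/-- the point of level `i` -/
noncomputable def pt (i c : ℕ) : TT := ((((((u i * 9 ^ c : ℤ)) : ℝ) / 2 ^ (g * i + 3 + g) : ℝ)) : TT)

open Classical in
/-- the weight -/
noncomputable def wt (i c : ℕ) : ℝ := if ‖pt g u i c - y‖ < ρ then 1 / 2 else 1

theorem wt_nonneg (i c : ℕ) : 0 ≤ wt g u y ρ i c := by
  unfold wt
  split_ifs <;> norm_num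

theorem wt_le (i c : ℕ) : wt g u y ρ i c ≤ 1 := by
  unfold wt
  split_ifs <;> norm_num

theorem wt_per {m i : ℕ} (hi : i < m) (c z : ℕ) : wt g u y ρ i (c + 2 ^ (g * m) * z) = wt g u y ρ i c := by
  have h : pt g u i (c + 2 ^ (g * m) * z) = pt g u i c := by
    apply per_nine
    have : g * i + g ≤ g * m := by
      rw [← Nat.mul_succ]
      exact Nat.mul_le_mul_left g hi
    omega
  unfold wt
  rw [h]

variable {g u y ρ}

theorem wt_block (hu : ∀ i, Odd (u i)) (hg : (1 : ℝ) / 2 ^ g < ρ) (m c : ℕ) :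
    ∑ z ∈ Finset.range (2 ^ g), wt g u y ρ m (c + 2 ^ (g * m) * z) ≤ 2 ^ g - 1 / 2 := by
  obtain ⟨z0, hz0, h⟩ := hit (u m) (hu m) (g * m) c g y
  have hw : wt g u y ρ m (c + 2 ^ (g * m) * z0) = 1 / 2 := by
    have h' : ‖pt g u m (c + 2 ^ (g * m) * z0) - y‖ < ρ := h.trans_lt hg
    unfold wt
    rw [if_pos h']
  have hmem : z0 ∈ Finset.range (2 ^ g) := Finset.mem_range.2 hz0
  rw [← Finset.add_sum_erase _ _ hmem, hw]
  have h2 : ∑ z ∈ (Finset.range (2 ^ g)).erase z0, wt g u y ρ m (c + 2 ^ (g * m) * z) ≤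
      ∑ z ∈ (Finset.range (2 ^ g)).erase z0, (1 : ℝ) := Finset.sum_le_sum fun z _ => wt_le _ _ _ _ _ _
  rw [Finset.sum_const, Finset.card_erase_of_mem hmem, Finset.card_range, nsmul_eq_mul, mul_one,
    Nat.cast_sub (Nat.one_le_two_pow)] at h2
  push_cast at h2
  linarith

theorem wt_prod (hu : ∀ i, Odd (u i)) (hg : (1 : ℝ) / 2 ^ g < ρ) (m : ℕ) :
    ∑ c ∈ Finset.range (2 ^ (g * m)), ∏ i ∈ Finset.range m, wt g u y ρ i c ≤ (2 ^ g - 1 / 2) ^ m := by
  induction m with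
  | zero => simp
  | succ m ih =>
    have e : 2 ^ (g * (m + 1)) = 2 ^ (g * m) * 2 ^ g := by rw [mul_add, mul_one, pow_add]
    rw [e, sum_split, Finset.sum_comm]
    calc ∑ c ∈ Finset.range (2 ^ (g * m)), ∑ z ∈ Finset.range (2 ^ g),
          ∏ i ∈ Finset.range (m + 1), wt g u y ρ i (c + 2 ^ (g * m) * z)
        = ∑ c ∈ Finset.range (2 ^ (g * m)), (∏ i ∈ Finset.range m, wt g u y ρ i c) *
          ∑ z ∈ Finset.range (2 ^ g), wt g u y ρ m (c + 2 ^ (g * m) * z) := by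
          refine Finset.sum_congr rfl fun c _ => ?_
          rw [Finset.mul_sum]
          refine Finset.sum_congr rfl fun z _ => ?_
          rw [Finset.prod_range_succ]
          congr 1
          exact Finset.prod_congr rfl fun i hi => wt_per g u y ρ (Finset.mem_range.1 hi) c z
      _ ≤ ∑ c ∈ Finset.range (2 ^ (g * m)), (∏ i ∈ Finset.range m, wt g u y ρ i c) * (2 ^ g - 1 / 2) := by
          refine Finset.sum_le_sum fun c _ => ?_
          exact mul_le_mul_of_nonneg_left (wt_block hu hg m c) (Finset.prod_nonneg fun i _ => wt_nonneg _ _ _ _ _ _)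
      _ ≤ (2 ^ g - 1 / 2) ^ (m + 1) := by
          rw [← Finset.sum_mul, pow_succ]
          refine mul_le_mul_of_nonneg_right ih ?_
          have : (1 : ℝ) ≤ 2 ^ g := one_le_pow₀ (by norm_num)
          linarith

theorem wt_prod_C (hu : ∀ i, Odd (u i)) (hg : (1 : ℝ) / 2 ^ g < ρ) (m C : ℕ) :
    ∑ c ∈ Finset.range C, ∏ i ∈ Finset.range m, wt g u y ρ i c ≤
      ((C / 2 ^ (g * m) + 1 : ℕ) : ℝ) * (2 ^ g - 1 / 2) ^ m := by
  have h1 : C ≤ 2 ^ (g * m) * (C / 2 ^ (g * m) + 1) := by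
    have := Nat.lt_mul_div_succ C (show 0 < 2 ^ (g * m) by positivity)
    exact this.le
  calc ∑ c ∈ Finset.range C, ∏ i ∈ Finset.range m, wt g u y ρ i c
      ≤ ∑ c ∈ Finset.range (2 ^ (g * m) * (C / 2 ^ (g * m) + 1)), ∏ i ∈ Finset.range m, wt g u y ρ i c := by
        refine Finset.sum_le_sum_of_subset_of_nonneg (Finset.range_mono h1) fun c _ _ => ?_
        exact Finset.prod_nonneg fun i _ => wt_nonneg _ _ _ _ _ _
    _ = ∑ z ∈ Finset.range (C / 2 ^ (g * m) + 1), ∑ c ∈ Finset.range (2 ^ (g * m)),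
          ∏ i ∈ Finset.range m, wt g u y ρ i c := by
        rw [sum_split]
        refine Finset.sum_congr rfl fun z _ => Finset.sum_congr rfl fun c _ => ?_
        exact Finset.prod_congr rfl fun i hi => wt_per g u y ρ (Finset.mem_range.1 hi) c z
    _ ≤ ((C / 2 ^ (g * m) + 1 : ℕ) : ℝ) * (2 ^ g - 1 / 2) ^ m := by
        rw [Finset.sum_const, Finset.card_range, nsmul_eq_mul]
        exact mul_le_mul_of_nonneg_left (wt_prod hu hg m) (Nat.cast_nonneg _)

open Classical in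
/-- the number of hits -/
noncomputable def hits (g : ℕ) (u : ℕ → ℤ) (y : TT) (ρ : ℝ) (m c : ℕ) : Finset ℕ :=
  (Finset.range m).filter fun i => ‖pt g u i c - y‖ < ρ

theorem prod_wt (m c : ℕ) : ∏ i ∈ Finset.range m, wt g u y ρ i c = (1 / 2 : ℝ) ^ (hits g u y ρ m c).card := by
  classical
  unfold hits wt
  rw [Finset.prod_ite, Finset.prod_const, Finset.prod_const_one, mul_one]

/-- few cells have few hits -/
theorem few (hu : ∀ i, Odd (u i)) (hg : (1 : ℝ) / 2 ^ g < ρ) (m C : ℕ) (κ : ℝ) :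
    (((Finset.range C).filter fun c => ((hits g u y ρ m c).card : ℝ) < κ * m).card : ℝ) ≤
      ((C / 2 ^ (g * m) + 1 : ℕ) : ℝ) * ((2 : ℝ) ^ κ * (2 ^ g - 1 / 2)) ^ m := by
  classical
  have h1 := wt_prod_C (y := y) hu hg m C
  have h2 : (((Finset.range C).filter fun c => ((hits g u y ρ m c).card : ℝ) < κ * m).card : ℝ) *
      (1 / 2 : ℝ) ^ (κ * m) ≤ ∑ c ∈ Finset.range C, ∏ i ∈ Finset.range m, wt g u y ρ i c := by
    rw [← nsmul_eq_mul, ← Finset.sum_const]
    refine le_trans (Finset.sum_le_sum fun c hc => ?_)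
      (Finset.sum_le_sum_of_subset_of_nonneg (Finset.filter_subset _ _) fun c _ _ =>
        Finset.prod_nonneg fun i _ => wt_nonneg _ _ _ _ _ _)
    rw [prod_wt, ← Real.rpow_natCast]
    exact Real.rpow_le_rpow_of_exponent_ge (by norm_num) (by norm_num) (Finset.mem_filter.1 hc).2.le
  have h3 : (0 : ℝ) < (1 / 2 : ℝ) ^ (κ * m) := Real.rpow_pos_of_pos (by norm_num) _
  have h4 : ((2 : ℝ) ^ κ * (2 ^ g - 1 / 2)) ^ m * (1 / 2 : ℝ) ^ (κ * m) = (2 ^ g - 1 / 2) ^ m := by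
    rw [mul_pow, ← Real.rpow_natCast ((2 : ℝ) ^ κ) m, ← Real.rpow_mul (by norm_num)]
    have : (1 / 2 : ℝ) ^ (κ * m) = ((2 : ℝ) ^ (κ * m))⁻¹ := by
      rw [one_div, Real.inv_rpow (by norm_num)]
    rw [this]
    have h5 : (0 : ℝ) < (2 : ℝ) ^ (κ * m) := Real.rpow_pos_of_pos (by norm_num) _
    field_simp
  rw [← mul_le_mul_iff_left₀ h3, mul_assoc, h4]
  exact h2.trans h1

end

end Pool.Agent.H48.M32
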