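import Pool.Agent.H48.M32.RightB

/-!
# Almost all cells to the right show all words
-/

set_option autoImplicit false

namespace Pool.Agent.H48.M32

open Filter Topology Set
open Pool.Agent.H847R3.XpXq
open Pool.Agent.H48.CBR

theorem EE_ext {x : ℤ → Fin 6} {V : ℝ} (hV : IsV (ext x) V) (c : ℤ) (t : ℕ) :
    ((EE (ext x).1 (c - t) (c + t) : ℝ) : TT) = (((3 / 2) ^ t * (6 ^ c * V) : ℝ) : TT) := by
  obtain ⟨N, hN⟩ := ((hV.diag c).iter t).int
  rw [hN, EE_a, EE_a]
  have e1 : c + (-(t : ℤ) + 0) = c - t := by ring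
  have e2 : c + ((t : ℤ) + 0) = c + t := by ring
  simp only
  rw [e1, e2, AddCircle.coe_add]
  have : (((N : ℤ) : ℝ) : TT) = 0 := by
    rw [AddCircle.coe_eq_zero_iff]
    exact ⟨N, by simp⟩
  rw [this, zero_add]

/-- a word of the orbit is read off from the fractional part -/
theorem shows_of' (L : ℕ) : ∃ ρ : ℝ, 0 < ρ ∧ ∀ w : Fin L → Fin 6, ∃ lo : ℝ, 0 ≤ lo ∧ lo + 2 * ρ ≤ 1 ∧
    ∀ (x : ℤ → Fin 6) (V : ℝ), IsV (ext x) V → ∀ (c : ℤ) (t : ℕ),
    ‖(((3 / 2) ^ t * (6 ^ c * V) : ℝ) : TT) - ((lo + ρ : ℝ) : TT)‖ < ρ → Shows (F32^[t] x) w c := by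
  refine ⟨1 / 6 ^ L / 2, by positivity, fun w => ?_⟩
  obtain ⟨lo, h0, h1, h⟩ := exists_int L fun k => if hk : k < L then w ⟨k, hk⟩ else 0
  set ρ : ℝ := 1 / 6 ^ L / 2 with hρ
  have hρ2 : (1 : ℝ) / 6 ^ L = 2 * ρ := by rw [hρ]; ring
  have hρ0 : 0 < ρ := by positivity
  refine ⟨lo, h0, by linarith, fun x V hV c t hd => ?_⟩
  rw [← EE_ext hV, ← AddCircle.coe_sub, UnitAddCircle.norm_eq] at hd
  set u : ℝ := EE (ext x).1 (c - t) (c + t) with hu
  have n1 : 0 ≤ u := EE_nonneg _ _ _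
  have n2 : u ≤ 1 := EE_le_one _ _ _
  set n : ℤ := round (u - (lo + ρ)) with hn
  rw [abs_lt] at hd
  have hn1 : (n : ℝ) < 1 := by linarith
  have hn2 : (-1 : ℝ) < n := by linarith
  have hn1' : n < 1 := by exact_mod_cast hn1
  have hn2' : -1 < n := by exact_mod_cast hn2
  have hn0 : n = 0 := by omega
  rw [hn0] at hd
  simp only [Int.cast_zero, sub_zero] at hd
  have hd' := h (ext x).1 (c - t) (c + t) (by linarith) (by linarith)
  intro s
  rw [F32_iter]
  have := hd' s s.2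
  rw [dif_pos s.2] at this
  rw [show c + ((s : ℕ) : ℤ) - t = c - t + (s : ℕ) by ring, show c + ((s : ℕ) : ℤ) + t = c + t + (s : ℕ) by ring]
  exact this

/-- the word `w` stands at the cell `j` at at least `r` times -/
def Often {L : ℕ} (x : ℤ → Fin 6) (w : Fin L → Fin 6) (j : ℤ) (r : ℝ) : Prop :=
  ∃ S : Finset ℕ, r ≤ S.card ∧ ∀ t ∈ S, Shows (F32^[t] x) w j

theorem val_int {x : ℤ → Fin 6} {V : ℝ} (hV : IsV (ext x) V) (hpos : 0 < V) {e : ℤ} (he : ∀ i, e < i → x i = 0) :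
    ∃ n : ℕ, 0 < n ∧ 6 ^ (e + 1) * V = n := by
  obtain ⟨N, hN⟩ := (hV.diag (e + 1)).int
  rw [EE_a] at hN
  have h2 : EE (ext x).1 (e + 1 + 0) (e + 1 + 0) = 0 := by
    unfold EE
    convert tsum_zero with k
    rw [ext_diag, he _ (by omega)]
    simp
  simp only at hN
  rw [h2, add_zero] at hN
  have h3 : (0 : ℝ) < N := by
    rw [← hN]
    positivity
  have h4 : 0 < N := by exact_mod_cast h3
  refine ⟨N.toNat, by omega, ?_⟩
  rw [hN]
  have : ((N.toNat : ℤ)) = N := Int.toNat_of_nonneg h4.le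
  exact_mod_cast this.symm

theorem pt_eq {V : ℝ} {e : ℤ} {n v n' : ℕ} (hn : (6 : ℝ) ^ (e + 1) * V = n) (hv : n = 2 ^ v * n') (g i c : ℕ) :
    pt g (fun i => (n' : ℤ) * 3 ^ (v + (g * i + 3 + g))) i c =
      (((3 / 2) ^ (c + v + (g * i + 3 + g)) * (6 ^ (e + 1 + (c : ℤ)) * V) : ℝ) : TT) := by
  unfold pt
  congr 1
  have h1 : (6 : ℝ) ^ (e + 1 + (c : ℤ)) * V = 6 ^ c * (2 ^ v * n') := by
    rw [zpow_add₀ (by norm_num), zpow_natCast, mul_right_comm, hn, hv]
    push_cast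
    ring
  rw [h1]
  beta_reduce
  generalize g * i + 3 + g = N
  push_cast
  rw [div_pow, pow_add (3 : ℝ) (c + v) N, pow_add (3 : ℝ) c v, pow_add (2 : ℝ) (c + v) N, pow_add (2 : ℝ) c v,
    show (6 : ℝ) = 2 * 3 by norm_num, mul_pow, show (9 : ℝ) = 3 * 3 by norm_num, mul_pow, pow_add (3 : ℝ) v N]
  field_simp

theorem right (L : ℕ) : ∃ θ κ K : ℝ, θ < 1 ∧ 0 < κ ∧ ∀ x : ℤ → Fin 6, x ≠ 0 →
    (∃ m : ℤ, ∀ i < m, x i = 0) → ∀ e : ℤ, (∀ i, e < i → x i = 0) → ∀ C : ℕ, 1 ≤ C →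
    ({c : ℕ | c < C ∧ ∃ w : Fin L → Fin 6, ¬ Often x w (e + 1 + c) (κ * Real.log C)}.ncard : ℝ) ≤ K * (C : ℝ) ^ θ := by
  classical
  obtain ⟨ρ, hρ, hw⟩ := shows_of' L
  choose lo _ _ hlo using hw
  obtain ⟨g0, hg0⟩ := exists_pow_lt_of_lt_one hρ (show (1 / 2 : ℝ) < 1 by norm_num)
  set g := g0 + 1 with hgdef
  have hg : (1 : ℝ) / 2 ^ g < ρ := by
    refine lt_of_le_of_lt ?_ hg0
    rw [one_div, ← inv_pow, ← one_div]
    exact pow_le_pow_of_le_one (by norm_num) (by norm_num) (Nat.le_succ g0)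
  have hG : (2 : ℝ) ≤ 2 ^ g := by
    calc (2 : ℝ) = 2 ^ 1 := by norm_num
      _ ≤ 2 ^ g := pow_le_pow_right₀ (by norm_num) (by omega)
  set r : ℝ := 2 ^ g / (2 ^ g - 1 / 4) with hr
  have hr1 : 1 < r := by
    rw [hr, one_lt_div (by linarith)]
    linarith
  set κ0 : ℝ := Real.logb 2 r with hκ0
  have hκ0pos : 0 < κ0 := Real.logb_pos (by norm_num) hr1
  have h2κ : (2 : ℝ) ^ κ0 = r := Real.rpow_logb (by norm_num) (by norm_num) (by linarith)
  set β : ℝ := (2 : ℝ) ^ κ0 * (2 ^ g - 1 / 2) with hβ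
  have hβ1 : 1 ≤ β := by
    rw [hβ, h2κ]
    nlinarith
  have hβ2 : β < 2 ^ g := by
    rw [hβ, h2κ, hr, div_mul_eq_mul_div, div_lt_iff₀ (by linarith)]
    nlinarith
  have hlogG : 0 < Real.log (2 ^ g) := Real.log_pos (by linarith)
  set θ : ℝ := Real.log β / Real.log (2 ^ g) with hθ
  have hθ0 : 0 ≤ θ := div_nonneg (Real.log_nonneg hβ1) hlogG.le
  have hθ1 : θ < 1 := by
    rw [hθ, div_lt_one hlogG]
    exact Real.log_lt_log (by linarith) hβ2
  have hβθ : β = (2 ^ g : ℝ) ^ θ := by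
    rw [Real.rpow_def_of_pos (by positivity), hθ, mul_div_cancel₀ _ hlogG.ne', Real.exp_log (by linarith)]
  set κ : ℝ := κ0 / (2 * Real.log (2 ^ g)) with hκ
  refine ⟨θ, κ, (Fintype.card (Fin L → Fin 6) : ℝ) * 2 ^ g, hθ1, by positivity, ?_⟩
  intro x hx hl e he C hC
  obtain ⟨V, hV, hIV⟩ := ext_isV hx hl
  obtain ⟨n, hn, hnV⟩ := val_int hIV hV he
  obtain ⟨v, n', hn', hvn⟩ := Nat.exists_eq_two_pow_mul_odd hn.ne'
  set u : ℕ → ℤ := fun i => (n' : ℤ) * 3 ^ (v + (g * i + 3 + g)) with hu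
  have huo : ∀ i, Odd (u i) := fun i => ((Int.odd_coe_nat n').2 hn').mul (Odd.pow (by decide))
  set m := Nat.log (2 ^ g) C with hm
  have hb : 1 < 2 ^ g := Nat.one_lt_two_pow (by omega)
  have hCm : (2 ^ g) ^ m ≤ C := Nat.pow_log_le_self _ (by omega)
  have hCm' : C < (2 ^ g) ^ (m + 1) := Nat.lt_pow_succ_log_self hb _
  have hCR : (1 : ℝ) ≤ C := by exact_mod_cast hC
  -- one word
  have one : ∀ w : Fin L → Fin 6,
      (((Finset.range C).filter fun c => ((hits g u ((lo w + ρ : ℝ) : TT) ρ m c).card : ℝ) < κ0 * m).card : ℝ) ≤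
        2 ^ g * (C : ℝ) ^ θ := by
    intro w
    refine (few huo hg m C κ0).trans ?_
    have h1 : ((C / 2 ^ (g * m) + 1 : ℕ) : ℝ) ≤ 2 ^ g := by
      have h2 : C / 2 ^ (g * m) < 2 ^ g := by
        rw [Nat.div_lt_iff_lt_mul (by positivity), ← pow_mul, ← pow_add] at *
        calc C < 2 ^ (g * (m + 1)) := hCm'
          _ = 2 ^ (g + g * m) := by ring_nf
      have h3 : C / 2 ^ (g * m) + 1 ≤ 2 ^ g := h2
      exact_mod_cast h3
    have h4 : β ^ m ≤ (C : ℝ) ^ θ := by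
      rw [hβθ, ← Real.rpow_natCast, ← Real.rpow_mul (by positivity), mul_comm, Real.rpow_mul (by positivity),
        Real.rpow_natCast]
      refine Real.rpow_le_rpow (by positivity) ?_ hθ0
      exact_mod_cast hCm
    rw [← hβ]
    exact mul_le_mul h1 h4 (by positivity) (by positivity)
  -- few hits are necessary
  have hsub : {c : ℕ | c < C ∧ ∃ w : Fin L → Fin 6, ¬ Often x w (e + 1 + c) (κ * Real.log C)} ⊆
      ((Finset.univ.biUnion fun w : Fin L → Fin 6 => (Finset.range C).filter fun c =>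
        ((hits g u ((lo w + ρ : ℝ) : TT) ρ m c).card : ℝ) < κ0 * m : Finset ℕ) : Set ℕ) ∪
      {c : ℕ | c < C ∧ m = 0} := by
    rintro c ⟨hc, w, hcw⟩
    by_cases hm0 : m = 0
    · exact Or.inr ⟨hc, hm0⟩
    left
    simp only [Finset.coe_biUnion, Finset.coe_univ, mem_univ, iUnion_true, mem_iUnion, Finset.mem_coe,
      Finset.mem_filter, Finset.mem_range]
    refine ⟨w, hc, ?_⟩
    by_contra hge
    push Not at hge
    apply hcw
    refine ⟨(hits g u ((lo w + ρ : ℝ) : TT) ρ m c).image fun i => c + v + (g * i + 3 + g), ?_, ?_⟩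
    · rw [Finset.card_image_of_injective _ (by
        intro a b hab
        simp only at hab
        have : g * a = g * b := by omega
        exact Nat.eq_of_mul_eq_mul_left (by omega) this)]
      refine le_trans ?_ hge
      have h5 : Real.log C ≤ (m + 1) * Real.log (2 ^ g) := by
        have : (C : ℝ) ≤ (2 ^ g) ^ (m + 1) := by exact_mod_cast hCm'.le
        have h6 := Real.log_le_log (by linarith) this
        rw [Real.log_pow] at h6
        push_cast at h6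
        exact h6
      have h7 : (1 : ℝ) ≤ m := by exact_mod_cast Nat.one_le_iff_ne_zero.2 hm0
      calc κ * Real.log C ≤ κ * ((m + 1) * Real.log (2 ^ g)) := by
            refine mul_le_mul_of_nonneg_left h5 ?_
            positivity
        _ = κ0 * ((m + 1) / 2) := by
            rw [hκ]
            field_simp
        _ ≤ κ0 * m := by
            refine mul_le_mul_of_nonneg_left ?_ hκ0pos.le
            linarith
    · intro t ht
      obtain ⟨i, hi, rfl⟩ := Finset.mem_image.1 ht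
      apply hlo w x V hIV
      rw [← pt_eq hnV hvn g i c]
      exact (Finset.mem_filter.1 hi).2
  have hcardW : (0 : ℝ) < (Fintype.card (Fin L → Fin 6) : ℝ) := by exact_mod_cast Fintype.card_pos
  by_cases hm0 : m = 0
  · have h8 : ({c : ℕ | c < C ∧ ∃ w : Fin L → Fin 6, ¬ Often x w (e + 1 + c) (κ * Real.log C)}.ncard : ℝ) ≤ C := by
      have : {c : ℕ | c < C ∧ ∃ w : Fin L → Fin 6, ¬ Often x w (e + 1 + c) (κ * Real.log C)} ⊆
          (Finset.range C : Set ℕ) := fun c hc => Finset.mem_coe.2 (Finset.mem_range.2 hc.1)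
      have h9 := Set.ncard_le_ncard this (Finset.finite_toSet _)
      rw [Set.ncard_coe_finset, Finset.card_range] at h9
      exact_mod_cast h9
    rw [hm0] at hCm'
    have h10 : (C : ℝ) ≤ 2 ^ g := by
      rw [zero_add, pow_one] at hCm'
      exact_mod_cast hCm'.le
    have h11 : (1 : ℝ) ≤ (C : ℝ) ^ θ := Real.one_le_rpow hCR hθ0
    have h12 : (1 : ℝ) ≤ (Fintype.card (Fin L → Fin 6) : ℝ) := by
      exact_mod_cast Nat.one_le_iff_ne_zero.2 Fintype.card_ne_zero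
    calc _ ≤ (C : ℝ) := h8
      _ ≤ 1 * 2 ^ g * 1 := by linarith
      _ ≤ _ := by gcongr
  · have hsub' : {c : ℕ | c < C ∧ ∃ w : Fin L → Fin 6, ¬ Often x w (e + 1 + c) (κ * Real.log C)} ⊆
        ((Finset.univ.biUnion fun w : Fin L → Fin 6 => (Finset.range C).filter fun c =>
        ((hits g u ((lo w + ρ : ℝ) : TT) ρ m c).card : ℝ) < κ0 * m : Finset ℕ) : Set ℕ) := by
      intro c hc
      rcases hsub hc with h | h
      · exact h
      · exact absurd h.2 hm0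
    have h13 := Set.ncard_le_ncard hsub' (Finset.finite_toSet _)
    rw [Set.ncard_coe_finset] at h13
    have h14 : ((Finset.univ.biUnion fun w : Fin L → Fin 6 => (Finset.range C).filter fun c =>
        ((hits g u ((lo w + ρ : ℝ) : TT) ρ m c).card : ℝ) < κ0 * m).card : ℝ) ≤
        ∑ w : Fin L → Fin 6, (2 ^ g * (C : ℝ) ^ θ) := by
      have h15 : ((Finset.univ.biUnion fun w : Fin L → Fin 6 => (Finset.range C).filter fun c =>
        ((hits g u ((lo w + ρ : ℝ) : TT) ρ m c).card : ℝ) < κ0 * m).card : ℝ) ≤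
          ((∑ w : Fin L → Fin 6, ((Finset.range C).filter fun c =>
        ((hits g u ((lo w + ρ : ℝ) : TT) ρ m c).card : ℝ) < κ0 * m).card : ℕ) : ℝ) := by
        exact_mod_cast Finset.card_biUnion_le
      refine h15.trans ?_
      push_cast
      exact Finset.sum_le_sum fun w _ => one w
    rw [Finset.sum_const, Finset.card_univ, nsmul_eq_mul, ← mul_assoc] at h14
    refine le_trans ?_ h14
    exact_mod_cast h13

end Pool.Agent.H48.M32
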