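import Pool.Agent.H48.M32.Cfg

/-!
# Limit points of `ξ (3 / 2) ^ t` modulo one: uniform separation
-/

set_option autoImplicit false

namespace Pool.Agent.H48.M32

open Filter Topology Set


theorem exists_rep (x : UnitAddCircle) : ∃ v : ℝ, (v : UnitAddCircle) = x ∧ ‖x‖ = |v| := by
  obtain ⟨r, rfl⟩ := QuotientAddGroup.mk_surjective x
  refine ⟨r - round r, ?_, UnitAddCircle.norm_eq⟩
  rw [AddCircle.coe_sub]
  have : (((round r : ℤ) : ℝ) : UnitAddCircle) = 0 := by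
    rw [AddCircle.coe_eq_zero_iff]
    exact ⟨round r, by simp⟩
  rw [this, sub_zero]

theorem norm_nsmul_eq (k : ℕ) (x : UnitAddCircle) (h : k * ‖x‖ ≤ 1 / 2) : ‖k • x‖ = k * ‖x‖ := by
  obtain ⟨v, rfl, hv⟩ := exists_rep x
  rw [hv] at h ⊢
  rw [← AddCircle.coe_nsmul, nsmul_eq_mul, (AddCircle.norm_coe_eq_abs_iff 1 one_ne_zero).2, abs_mul, Nat.abs_cast]
  rw [abs_mul, Nat.abs_cast, abs_one]
  exact h

theorem norm_coe_le (v : ℝ) : ‖(v : UnitAddCircle)‖ ≤ |v| := by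
  rw [UnitAddCircle.norm_eq]
  simpa using round_le v 0

theorem near_frac (x : UnitAddCircle) {h : ℕ} (hh : 1 ≤ h) : ∃ p : ℕ, p < h ∧ ‖x - ((p / h : ℝ) : UnitAddCircle)‖ ≤ ‖h • x‖ := by
  obtain ⟨v, rfl, -⟩ := exists_rep x
  obtain ⟨y, hy, hyn⟩ := exists_rep (h • (v : UnitAddCircle))
  rw [← AddCircle.coe_nsmul, ← sub_eq_zero, ← AddCircle.coe_sub, AddCircle.coe_eq_zero_iff] at hy
  obtain ⟨n, hn⟩ := hy
  simp only [zsmul_eq_mul, mul_one, nsmul_eq_mul] at hn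
  have hh' : (0 : ℝ) < h := by positivity
  have hhz : (0 : ℤ) < h := by omega
  refine ⟨((-n) % h).toNat, ?_, ?_⟩
  · have h1 := Int.emod_lt_of_pos (-n) hhz
    have h2 := Int.emod_nonneg (-n) hhz.ne'
    omega
  · rw [hyn]
    have h2 := Int.emod_nonneg (-n) hhz.ne'
    have h3 : ((((-n) % h).toNat : ℕ) : ℝ) = (((-n) % h : ℤ) : ℝ) := by
      rw [← Int.cast_natCast, Int.toNat_of_nonneg h2]
    rw [h3]
    have h4 := Int.emod_add_mul_ediv (-n) h
    have h5 : (((-n) % h : ℤ) : ℝ) = -n - h * (((-n) / h : ℤ) : ℝ) := by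
      have : ((((-n) % h + h * ((-n) / h) : ℤ)) : ℝ) = ((-n : ℤ) : ℝ) := by rw [h4]
      push_cast at this
      linarith
    rw [h5, ← AddCircle.coe_sub]
    have h6 : v - (-n - h * (((-n) / h : ℤ) : ℝ)) / h = y / h + (((-n) / h : ℤ) : ℝ) := by
      field_simp
      linarith
    rw [h6, AddCircle.coe_add]
    have h7 : ((((-n) / h : ℤ) : ℝ) : UnitAddCircle) = 0 := by
      rw [AddCircle.coe_eq_zero_iff]
      exact ⟨(-n) / h, by simp⟩
    rw [h7, add_zero]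
    refine (norm_coe_le _).trans ?_
    rw [abs_div, Nat.abs_cast]
    apply div_le_self (abs_nonneg _)
    exact_mod_cast hh

/-- the sequence `ξ (3 / 2) ^ t` modulo one -/
noncomputable def th (ξ : ℝ) (t : ℕ) : UnitAddCircle := (((3 / 2) ^ t * ξ : ℝ) : UnitAddCircle)

theorem th_rel (ξ : ℝ) (t : ℕ) : 2 • th ξ (t + 1) = 3 • th ξ t := by
  unfold th
  rw [← AddCircle.coe_nsmul, ← AddCircle.coe_nsmul, nsmul_eq_mul, nsmul_eq_mul]
  congr 1
  rw [pow_succ]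
  push_cast
  ring

/-- positive rational numbers -/
def PosRat (ξ : ℝ) : Prop := ∃ P q : ℕ, 0 < P ∧ 0 < q ∧ ξ = P / q

theorem no_eq {P q : ℕ} (hP : 0 < P) (hq : 0 < q) {t d : ℕ} (hd : 0 < d) (ht : P ≤ t)
    (h : th (P / q) (t + d) = th (P / q) t) : False := by
  unfold th at h
  rw [← sub_eq_zero, ← AddCircle.coe_sub, AddCircle.coe_eq_zero_iff] at h
  obtain ⟨n, hn⟩ := h
  simp only [zsmul_eq_mul, mul_one] at hn
  have hq' : (0 : ℝ) < q := by positivity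
  have h1 : (n : ℝ) * q * 2 ^ (t + d) = P * (3 ^ t * (3 ^ d - 2 ^ d)) := by
    rw [hn, div_pow, div_pow, pow_add, pow_add]
    field_simp
  have h2 : (n : ℤ) * q * 2 ^ (t + d) = P * (3 ^ t * (3 ^ d - 2 ^ d)) := by exact_mod_cast h1
  have hodd : Odd ((3 : ℤ) ^ t * (3 ^ d - 2 ^ d)) := by
    apply Odd.mul
    · exact Odd.pow (by decide)
    · apply Odd.sub_even
      · exact Odd.pow (by decide)
      · exact (Int.even_pow' hd.ne').2 (by decide)
  have hcop : IsCoprime ((2 : ℤ) ^ (t + d)) (3 ^ t * (3 ^ d - 2 ^ d)) := by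
    apply IsCoprime.pow_left
    obtain ⟨k, hk⟩ := hodd
    exact ⟨-k, 1, by rw [hk]; ring⟩
  have h3 : (2 : ℤ) ^ (t + d) ∣ (P : ℤ) * (3 ^ t * (3 ^ d - 2 ^ d)) := ⟨n * q, by rw [← h2]; ring⟩
  have h4 : (2 : ℤ) ^ (t + d) ∣ (P : ℤ) := hcop.dvd_of_dvd_mul_right h3
  have h5 : (2 ^ (t + d) : ℕ) ∣ P := by exact_mod_cast h4
  have h6 := Nat.le_of_dvd hP h5
  have h7 : P < 2 ^ P := Nat.lt_two_pow_self
  have h8 : 2 ^ P ≤ 2 ^ (t + d) := Nat.pow_le_pow_right (by norm_num) (by omega)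
  omega

/-- **uniform separation**: the limit points are not covered by few small arcs -/
theorem sep (ι : Type) [Fintype ι] : ∃ η : ℝ, 0 < η ∧ ∀ ξ : ℝ, PosRat ξ → ∀ μ : ι → UnitAddCircle,
    ∃ᶠ t in atTop, ∀ i, η ≤ ‖th ξ t - μ i‖ := by
  by_contra hcon
  push Not at hcon
  have hcon' : ∀ n : ℕ, ∃ ξ, PosRat ξ ∧ ∃ μ : ι → UnitAddCircle, ∀ᶠ t in atTop, ∃ i, ‖th ξ t - μ i‖ < 1 / ((n : ℝ) + 1) :=
    fun n => hcon _ (by positivity)
  choose ξ hξ μ hμ using hcon'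
  obtain ⟨μ', φ, hφ, hlim⟩ := CompactSpace.tendsto_subseq μ
  obtain ⟨r, hr0, hr12, hrρ⟩ : ∃ r : ℝ, 0 < r ∧ r ≤ 1 / 12 ∧ ∀ p : ι × ι, 3 • μ' p.1 - 2 • μ' p.2 ≠ 0 →
      10 * r ≤ ‖3 • μ' p.1 - 2 • μ' p.2‖ := by
    have h1 : ∀ᶠ r in 𝓝[>] (0 : ℝ), ∀ p : ι × ι, 3 • μ' p.1 - 2 • μ' p.2 ≠ 0 →
        10 * r ≤ ‖3 • μ' p.1 - 2 • μ' p.2‖ := by
      rw [eventually_all]
      intro p
      by_cases hp : 3 • μ' p.1 - 2 • μ' p.2 = 0
      · exact Eventually.of_forall fun r h => absurd hp h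
      · have h2 : ∀ᶠ r in 𝓝 (0 : ℝ), 10 * r < ‖3 • μ' p.1 - 2 • μ' p.2‖ := by
          have h3 : Tendsto (fun r : ℝ => 10 * r) (𝓝 0) (𝓝 (10 * 0)) :=
            (continuous_const.mul continuous_id).tendsto 0
          rw [mul_zero] at h3
          exact h3.eventually_lt_const (norm_pos_iff.2 hp)
        filter_upwards [nhdsWithin_le_nhds h2] with r hr _ using hr.le
    have h2 : ∀ᶠ r in 𝓝[>] (0 : ℝ), r < 1 / 12 := nhdsWithin_le_nhds (eventually_lt_nhds (by norm_num))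
    have h3 : ∀ᶠ r in 𝓝[>] (0 : ℝ), 0 < r := eventually_mem_nhdsWithin
    obtain ⟨r, hr1, hr2, hr3⟩ := (h1.and (h2.and h3)).exists
    exact ⟨r, hr3, hr2.le, hr1⟩
  obtain ⟨n, hn1, hn2⟩ : ∃ n : ℕ, 1 / ((φ n : ℝ) + 1) < r ∧ ∀ i, ‖μ (φ n) i - μ' i‖ < r := by
    have h1 : ∀ᶠ n : ℕ in atTop, 1 / ((n : ℝ) + 1) < r :=
      tendsto_one_div_add_atTop_nhds_zero_nat.eventually_lt_const hr0
    have h2 : ∀ᶠ n in atTop, dist ((μ ∘ φ) n) μ' < r := hlim.eventually (Metric.ball_mem_nhds μ' hr0)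
    obtain ⟨n, hn1, hn2⟩ := ((hφ.tendsto_atTop.eventually h1).and h2).exists
    refine ⟨n, hn1, fun i => ?_⟩
    rw [← dist_eq_norm]
    exact (dist_le_pi_dist _ _ i).trans_lt hn2
  obtain ⟨P, q0, hP, hq0, hξn⟩ := hξ (φ n)
  obtain ⟨T, hT⟩ := eventually_atTop.1 (hμ (φ n))
  set T' := max T P with hT'
  have hq : ∀ s : ℕ, ∃ i, ‖th (ξ (φ n)) (T' + s) - μ' i‖ < 2 * r := by
    intro s
    obtain ⟨i, hi⟩ := hT (T' + s) (by omega)
    refine ⟨i, ?_⟩
    have := norm_add_le (th (ξ (φ n)) (T' + s) - μ (φ n) i) (μ (φ n) i - μ' i)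
    rw [sub_add_sub_cancel] at this
    have h2 := hn2 i
    linarith
  choose q hq using hq
  set ε : ℕ → UnitAddCircle := fun s => th (ξ (φ n)) (T' + s) - μ' (q s) with hε
  have hrel : ∀ s, 3 • μ' (q s) - 2 • μ' (q (s + 1)) = 2 • ε (s + 1) - 3 • ε s := by
    intro s
    have h1 := th_rel (ξ (φ n)) (T' + s)
    simp only [hε, smul_sub, ← add_assoc]
    rw [h1]
    abel
  have hz : ∀ s, 3 • μ' (q s) - 2 • μ' (q (s + 1)) = 0 := by
    intro s
    by_contra hne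
    have h1 := hrρ (q s, q (s + 1)) hne
    simp only at h1
    rw [hrel] at h1
    have h2 := norm_sub_le (2 • ε (s + 1)) (3 • ε s)
    have h3 : ‖2 • ε (s + 1)‖ ≤ 2 * ‖ε (s + 1)‖ := by simpa using norm_nsmul_le (n := 2) (a := ε (s + 1))
    have h4 : ‖3 • ε s‖ ≤ 3 * ‖ε s‖ := by simpa using norm_nsmul_le (n := 3) (a := ε s)
    have h5 := hq s
    have h6 := hq (s + 1)
    have h5' : ‖ε s‖ < 2 * r := h5
    have h6' : ‖ε (s + 1)‖ < 2 * r := h6
    linarith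
  have hε2 : ∀ s, 2 • ε (s + 1) = 3 • ε s := by
    intro s
    have h1 := hrel s
    rw [hz] at h1
    exact (sub_eq_zero.1 h1.symm)
  have hgrow : ∀ s, ‖ε (s + 1)‖ = 3 / 2 * ‖ε s‖ := by
    intro s
    have h5' : ‖ε s‖ < 2 * r := hq s
    have h6' : ‖ε (s + 1)‖ < 2 * r := hq (s + 1)
    have h1 := norm_nsmul_eq 2 (ε (s + 1)) (by push_cast; linarith)
    have h2 := norm_nsmul_eq 3 (ε s) (by push_cast; linarith)
    rw [hε2, h2] at h1
    push_cast at h1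
    linarith
  have hε0 : ∀ s, ‖ε s‖ = 0 := zero_of_grow hgrow fun s => by
    have h5' : ‖ε s‖ < 2 * r := hq s
    rw [abs_of_nonneg (norm_nonneg _)]
    linarith
  obtain ⟨s, s', hne, heq⟩ := Finite.exists_ne_map_eq_of_infinite q
  have hth : ∀ s, th (ξ (φ n)) (T' + s) = μ' (q s) := fun s => sub_eq_zero.1 (norm_eq_zero.1 (hε0 s))
  have key : ∀ s s' : ℕ, s < s' → q s = q s' → False := by
    intro s s' hss hqq
    have h1 : th (ξ (φ n)) (T' + s + (s' - s)) = th (ξ (φ n)) (T' + s) := by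
      rw [show T' + s + (s' - s) = T' + s' by omega, hth, hth, hqq]
    rw [hξn] at h1
    exact no_eq hP hq0 (by omega) (by omega) h1
  rcases lt_or_gt_of_ne hne with h | h
  · exact key s s' h heq
  · exact key s' s h heq.symm

/-- **many well separated limit points** -/
theorem select (K H : ℕ) : ∃ η : ℝ, 0 < η ∧ ∀ ξ : ℝ, PosRat ξ → ∃ l : Fin K → UnitAddCircle,
    (∀ i, MapClusterPt (l i) atTop (th ξ)) ∧
      ∀ i j, i ≠ j → ∀ h : ℕ, 1 ≤ h → h ≤ H → η ≤ ‖h • (l i - l j)‖ := by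
  obtain ⟨η, hη, hsep⟩ := sep (Fin K × Fin (H + 1) × Fin (H + 1))
  refine ⟨η, hη, fun ξ hξ => ?_⟩
  have key : ∀ k : ℕ, k ≤ K → ∃ l : Fin k → UnitAddCircle, (∀ i, MapClusterPt (l i) atTop (th ξ)) ∧
      ∀ i j, i ≠ j → ∀ h : ℕ, 1 ≤ h → h ≤ H → η ≤ ‖h • (l i - l j)‖ := by
    intro k
    induction k with
    | zero => exact fun _ => ⟨Fin.elim0, fun i => i.elim0, fun i => i.elim0⟩
    | succ k ih =>
      intro hk
      obtain ⟨l, hl1, hl2⟩ := ih (by omega)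
      set μ : Fin K × Fin (H + 1) × Fin (H + 1) → UnitAddCircle := fun p =>
        if hi : (p.1 : ℕ) < k then l ⟨p.1, hi⟩ + ((((p.2.2 : ℕ) : ℝ) / ((p.2.1 : ℕ) : ℝ) : ℝ) : UnitAddCircle) else 0 with hμ
      have hcl : IsClosed {y : UnitAddCircle | ∀ p, η ≤ ‖y - μ p‖} := by
        have : {y : UnitAddCircle | ∀ p, η ≤ ‖y - μ p‖} = ⋂ p, {y | η ≤ ‖y - μ p‖} := by ext y; simp
        rw [this]
        exact isClosed_iInter fun p => isClosed_le continuous_const (continuous_id.sub continuous_const).norm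
      obtain ⟨a, ha, hac⟩ := hcl.isCompact.exists_mapClusterPt_of_frequently (l := atTop) (f := th ξ) (hsep ξ hξ μ)
      have hal : ∀ (j : Fin k) (h : ℕ), 1 ≤ h → h ≤ H → η ≤ ‖h • (a - l j)‖ := by
        intro j h h1 h2
        obtain ⟨p, hp, hpn⟩ := near_frac (a - l j) h1
        have h3 := ha (⟨j, by omega⟩, ⟨h, by omega⟩, ⟨p, by omega⟩)
        simp only [hμ] at h3
        rw [dif_pos j.2] at h3
        rw [← sub_sub] at h3
        exact h3.trans hpn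
      refine ⟨Fin.cons a l, ?_, ?_⟩
      · intro i
        refine Fin.cases ?_ (fun i => ?_) i
        · simpa using hac
        · simpa using hl1 i
      · intro i j
        refine Fin.cases ?_ (fun i => ?_) i
        · refine Fin.cases ?_ (fun j => ?_) j
          · intro h
            exact absurd rfl h
          · intro _ h h1 h2
            simpa using hal j h h1 h2
        · refine Fin.cases ?_ (fun j => ?_) j
          · intro _ h h1 h2
            have := hal i h h1 h2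
            rw [← norm_neg, ← smul_neg, neg_sub] at this
            simpa using this
          · intro hne h h1 h2
            simpa using hl2 i j (fun hij => hne (by rw [hij])) h h1 h2
  exact key K le_rfl

end Pool.Agent.H48.M32
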