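import Pool.Agent.H48.CBR.X23b

/-!
# The number represented by a configuration whose digits vanish far to the left
-/

set_option autoImplicit false

namespace Pool.Agent.H48.M32

open Filter Topology Set
open Pool.Agent.H847R3.XpXq
open Pool.Agent.H48.CBR

/-- the digits of the main diagonal vanish far to the left and represent `V` -/
def IsV (c : XX) (V : ℝ) : Prop :=
  ∃ n0 : ℕ, ∀ n ≥ n0, (c.1 (-n) (-n) : ℕ) = 0 ∧ 6 ^ n * EE c.1 (-n) (-n) = V

theorem IsV.step {c : XX} {V : ℝ} (h : IsV c V) : IsV (S23.a (-1, 1) c) (3 / 2 * V) := by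
  obtain ⟨n0, h0⟩ := h
  -- the diagonals `1` and `2`
  have d1 : ∀ n : ℕ, n0 ≤ n → (c.1 (-n - 1) (-n) : ℕ) = 0 := by
    intro n hn
    have h1 := (c.2 (-n - 1) (-n - 1)).2
    have h2 := (h0 n hn).1
    have h3 := (h0 (n + 1) (by omega)).1
    have e : -((n + 1 : ℕ) : ℤ) = -n - 1 := by push_cast; ring
    rw [e] at h3
    rw [sub_add_cancel, h2, h3] at h1
    simpa using h1
  have d2 : ∀ n : ℕ, n0 ≤ n → (c.1 (-n - 1 - 1) (-n) : ℕ) = 0 := by
    intro n hn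
    have h1 := (c.2 (-n - 1 - 1) (-n - 1)).2
    have h2 := d1 n hn
    have h3 := d1 (n + 1) (by omega)
    have e : -((n + 1 : ℕ) : ℤ) = -n - 1 := by push_cast; ring
    rw [e] at h3
    rw [sub_add_cancel, sub_add_cancel, h2, h3] at h1
    simpa using h1
  refine ⟨n0 + 1, ?_⟩
  intro n hn
  obtain ⟨m, rfl⟩ : ∃ m, n = m + 1 := ⟨n - 1, by omega⟩
  have e : -((m + 1 : ℕ) : ℤ) = -m - 1 := by push_cast; ring
  constructor
  · rw [S23_apply, e]
    have := d2 m (by omega)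
    rw [show (-1 : ℤ) + (-m - 1) = -m - 1 - 1 by ring, show (1 : ℤ) + (-m - 1) = -m by ring]
    exact this
  · rw [EE_a, e]
    rw [show (-1 : ℤ) + (-m - 1) = -m - 1 - 1 by ring, show (1 : ℤ) + (-m - 1) = -m by ring]
    have h1 := EE_three c.2 (-m - 1 - 1) (-m - 1)
    have h2 := EE_three c.2 (-m - 1 - 1) (-m - 1 - 1)
    have h3 := d1 (m + 1) (by omega)
    have h4 := (h0 (m + 1 + 1) (by omega)).1
    have h5 := (h0 (m + 1 + 1) (by omega)).2
    have e2 : -((m + 1 + 1 : ℕ) : ℤ) = -m - 1 - 1 := by push_cast; ring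
    rw [e] at h3
    rw [e2] at h4 h5
    rw [sub_add_cancel] at h1 h2
    rw [h3] at h1
    rw [h4] at h2
    rw [h1, h2, ← h5]
    simp only [Nat.zero_div, Nat.cast_zero, sub_zero]
    ring

theorem IsV.iter {c : XX} {V : ℝ} (h : IsV c V) (n : ℕ) : IsV (S23.a (-n, n) c) ((3 / 2) ^ n * V) := by
  induction n with
  | zero =>
    have : S23.a (-((0 : ℕ) : ℤ), ((0 : ℕ) : ℤ)) c = c := by
      have h0 : (-((0 : ℕ) : ℤ), ((0 : ℕ) : ℤ)) = (0 : ℤ × ℤ) := by simp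
      rw [h0, S23.zero]
    rw [this]
    simpa using h
  | succ n ih =>
    have h1 := ih.step
    rw [← S23.add] at h1
    have e : ((-1 : ℤ), (1 : ℤ)) + (-(n : ℤ), (n : ℤ)) = (-((n + 1 : ℕ) : ℤ), ((n + 1 : ℕ) : ℤ)) := by
      ext <;> simp <;> ring
    rw [e] at h1
    convert h1 using 1
    ring

theorem IsV.int {c : XX} {V : ℝ} (h : IsV c V) : ∃ N : ℤ, V = N + EE c.1 0 0 := by
  obtain ⟨n0, h0⟩ := h
  have key : ∀ n : ℕ, ∃ N : ℤ, 6 ^ n * EE c.1 (-n) (-n) = N + EE c.1 0 0 := by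
    intro n
    induction n with
    | zero => exact ⟨0, by simp⟩
    | succ n ih =>
      obtain ⟨N, hN⟩ := ih
      have h1 := EE_step c.1 (-((n + 1 : ℕ) : ℤ)) (-((n + 1 : ℕ) : ℤ))
      have e : -((n + 1 : ℕ) : ℤ) + 1 = -n := by push_cast; ring
      rw [e] at h1
      refine ⟨N + 6 ^ n * (c.1 (-((n + 1 : ℕ) : ℤ)) (-((n + 1 : ℕ) : ℤ)) : ℕ), ?_⟩
      rw [pow_succ, mul_assoc, h1, mul_add, hN]
      push_cast
      ring
  obtain ⟨N, hN⟩ := key n0
  exact ⟨N, by rw [← (h0 n0 le_rfl).2, hN]⟩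

theorem zero_of_grow {f : ℕ → ℝ} (hf : ∀ n, f (n + 1) = 3 / 2 * f n) (hb : ∀ n, |f n| ≤ 10) (n : ℕ) : f n = 0 := by
  have h : ∀ n, f n = (3 / 2) ^ n * f 0 := by
    intro n
    induction n with
    | zero => simp
    | succ n ih => rw [hf, ih, pow_succ]; ring
  have h00 : f 0 = 0 := by
    by_contra hne
    have hpos : 0 < |f 0| := abs_pos.2 hne
    obtain ⟨n, hn⟩ := pow_unbounded_of_one_lt (10 / |f 0|) (show (1 : ℝ) < 3 / 2 by norm_num)
    have := hb n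
    rw [h n, abs_mul, abs_of_pos (by positivity : (0 : ℝ) < (3 / 2) ^ n)] at this
    rw [div_lt_iff₀ hpos] at hn
    linarith
  rw [h, h00, mul_zero]

/-- the digits at one cell cannot agree for ever with those of a periodic configuration -/
theorem noPer {c y : XX} {V : ℝ} (hV : IsV c V) (hpos : 0 < V) {k : ℕ} (hk : 1 ≤ k)
    (hper : S23.a (-k, k) y = y) (hag : ∀ n : ℕ, c.1 (-n) n = y.1 (-n) n) : False := by
  have step : ∀ (z : XX) (n : ℕ), 2 * EE z.1 (-((n + 1 : ℕ) : ℤ)) ((n + 1 : ℕ) : ℤ) = 3 * EE z.1 (-n) n -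
      (((z.1 (-n) n : ℕ) / 2 : ℕ) : ℝ) +
      (((z.1 (-((n + 1 : ℕ) : ℤ)) ((n + 1 : ℕ) : ℤ) : ℕ) / 3 : ℕ) : ℝ) := by
    intro z n
    have h1 := EE_two z.2 (-((n + 1 : ℕ) : ℤ)) ((n + 1 : ℕ) : ℤ)
    have h2 := EE_three z.2 (-n) n
    have e : -((n + 1 : ℕ) : ℤ) + 1 = -n := by push_cast; ring
    have e2 : ((n + 1 : ℕ) : ℤ) = (n : ℤ) + 1 := by push_cast; ring
    rw [e] at h1
    rw [← e2] at h2
    linarith
  have huv : ∀ n : ℕ, EE c.1 (-n) n = EE y.1 (-n) n := by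
    intro n
    have := zero_of_grow (f := fun n : ℕ => EE c.1 (-n) n - EE y.1 (-n) n) ?_ ?_ n
    · simpa [sub_eq_zero] using this
    · intro n
      have h1 := step c n
      have h2 := step y n
      have h3 := hag n
      have h4 := hag (n + 1)
      rw [h3, h4] at h1
      linarith
    · intro n
      have h1 := EE_nonneg c.1 (-n) n
      have h2 := EE_le_one c.1 (-n) n
      have h3 := EE_nonneg y.1 (-n) n
      have h4 := EE_le_one y.1 (-n) n
      rw [abs_le]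
      constructor <;> linarith
  have hpe : ∀ n : ℕ, EE c.1 (-((n + k : ℕ) : ℤ)) ((n + k : ℕ) : ℤ) = EE c.1 (-n) n := by
    intro n
    rw [huv, huv]
    have h1 : EE (S23.a (-k, k) y).1 (-n) n = EE y.1 (-n) n := by rw [hper]
    rw [EE_a] at h1
    rw [← h1]
    congr 1
    · push_cast; ring
    · push_cast; ring
  have hN : ∀ n : ℕ, ∃ N : ℤ, (3 / 2 : ℝ) ^ n * V = N + EE c.1 (-n) n := by
    intro n
    obtain ⟨N, hN⟩ := (hV.iter n).int
    rw [EE_a, add_zero, add_zero] at hN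
    exact ⟨N, hN⟩
  choose N hN using hN
  set A : ℝ := ((3 / 2) ^ k - 1) * V with hA
  have hApos : 0 < A := by
    have : (1 : ℝ) < (3 / 2) ^ k := one_lt_pow₀ (by norm_num) (by omega)
    apply mul_pos (by linarith) hpos
  have hAn : ∀ n, (3 / 2 : ℝ) ^ n * A = ((N (n + k) - N n : ℤ) : ℝ) := by
    intro n
    have h1 := hN (n + k)
    have h2 := hN n
    rw [hpe n, pow_add] at h1
    push_cast
    rw [hA]
    linarith
  have hA0 : A = ((N (0 + k) - N 0 : ℤ) : ℝ) := by simpa using hAn 0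
  set z0 : ℤ := N (0 + k) - N 0 with hz0
  have hdiv : ∀ n : ℕ, (2 : ℤ) ^ n ∣ z0 := by
    intro n
    have h1 := hAn n
    rw [hA0, div_pow, div_mul_eq_mul_div, div_eq_iff (by positivity)] at h1
    have h2 : (3 : ℤ) ^ n * z0 = (N (n + k) - N n) * 2 ^ n := by exact_mod_cast h1
    have h3 : (2 : ℤ) ^ n ∣ 3 ^ n * z0 := ⟨_, by rw [h2, mul_comm]⟩
    have hcop : IsCoprime ((2 : ℤ) ^ n) (3 ^ n) := by
      apply IsCoprime.pow
      rw [Int.isCoprime_iff_gcd_eq_one]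
      rfl
    exact hcop.dvd_of_dvd_mul_left h3
  have hz : z0 = 0 := by
    by_contra hne
    have h1 := hdiv z0.natAbs
    have h2 : (2 : ℤ) ^ z0.natAbs ≤ |z0| := Int.le_of_dvd (abs_pos.2 hne) ((dvd_abs _ _).2 h1)
    have h3 : z0.natAbs < 2 ^ z0.natAbs := Nat.lt_two_pow_self
    have h4 : ((z0.natAbs : ℕ) : ℤ) < ((2 ^ z0.natAbs : ℕ) : ℤ) := by exact_mod_cast h3
    push_cast at h4
    linarith
  rw [hz] at hA0
  simp only [Int.cast_zero] at hA0
  linarith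

end Pool.Agent.H48.M32
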