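import Pool.Agent.H48.M32.FurH
import Pool.Agent.H48.M32.Val

/-!
# Recurrence at a bounded set of positions
-/

set_option autoImplicit false

namespace Pool.Agent.H48.M32

open Filter Topology Set
open Pool.Agent.H847R3.XpXq
open Pool.Agent.H48.CBR

/-- points of a finite set are separated by a window -/
theorem exists_sep {Y : Set XX} (hY : Y.Finite) : ∃ R : ℕ, ∀ y ∈ Y, ∀ y' ∈ Y, AgX R y y' → y = y' := by
  have h : ∀ p : XX × XX, ∃ R : ℕ, AgX R p.1 p.2 → p.1 = p.2 := by
    rintro ⟨y, y'⟩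
    by_contra hcon
    push Not at hcon
    apply (hcon 0).2
    apply Subtype.ext
    funext i j
    exact (hcon (i.natAbs + j.natAbs)).1 i j (by omega) (by omega)
  choose R hR using h
  refine ⟨(hY.prod hY).toFinset.sup R, fun y hy y' hy' hag => hR (y, y') fun i j hi hj => hag i j ?_ ?_⟩
  · have : R (y, y') ≤ (hY.prod hY).toFinset.sup R := Finset.le_sup (f := R) (by simp [hy, hy'])
    exact hi.trans this
  · have : R (y, y') ≤ (hY.prod hY).toFinset.sup R := Finset.le_sup (f := R) (by simp [hy, hy'])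
    exact hj.trans this

theorem step_ag {R : ℕ} {z y : XX} (h : AgX (R + 1) z y) : AgX R (S23.a (-1, 1) z) (S23.a (-1, 1) y) := by
  intro i j hi hj
  rw [S23_apply, S23_apply]
  exact h _ _ (by omega) (by omega)

/-- **recurrence** -/
theorem main {O : Set XX} (hO : IsOpen O) (hne : O.Nonempty) : ∃ M : ℕ, ∀ (c : XX) (V : ℝ), IsV c V → 0 < V →
    ∃ i : ℤ, |i| ≤ M ∧ {t : ℕ | S23.a (i - t, i + t) c ∈ O}.Infinite := by
  set Y : Set XX := {x | ∀ i t : ℤ, S23.a (i - t, i + t) x ∉ O} with hYdef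
  have hYf : Y.Finite := miss_finiteH hO hne
  have hGY : ∀ y ∈ Y, S23.a (-1, 1) y ∈ Y := by
    intro y hy i t
    rw [← S23.add]
    have := hy i (t + 1)
    convert this using 3
    ext <;> simp <;> ring
  obtain ⟨R, hR⟩ := exists_sep hYf
  set U : Set XX := ⋃ y ∈ Y, {z | AgX (R + 1) z y} with hU
  have hUo : IsOpen U := isOpen_biUnion fun y _ => isOpen_agX _ _
  -- compactness
  obtain ⟨s, hs⟩ := hUo.isClosed_compl.isCompact.elim_finite_subcover
    (fun p : ℤ × ℤ => S23.a (p.1 - p.2, p.1 + p.2) ⁻¹' O) (fun p => hO.preimage (S23.cont _)) (by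
      intro z hz
      by_contra hcon
      apply hz
      refine mem_iUnion₂.2 ⟨z, fun i t hit => hcon (mem_iUnion.2 ⟨(i, t), hit⟩), fun i j _ _ => rfl⟩)
  set M : ℕ := s.sup fun p => p.1.natAbs + p.2.natAbs with hM
  refine ⟨M, fun c V hV hpos => ?_⟩
  by_contra hcon
  push Not at hcon
  -- from some time on nothing is seen in the window
  have hT : ∃ T : ℕ, ∀ i : ℤ, |i| ≤ M → ∀ t : ℤ, (T : ℤ) ≤ t → S23.a (i - t, i + t) c ∉ O := by
    have h1 : ∀ i ∈ Finset.Icc (-(M : ℤ)) M, ∃ T : ℕ, ∀ t : ℕ, T ≤ t → S23.a (i - t, i + t) c ∉ O := by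
      intro i hi
      rw [Finset.mem_Icc] at hi
      have h2 := hcon i (abs_le.2 hi)
      obtain ⟨T, hT⟩ := h2.bddAbove
      refine ⟨T + 1, fun t ht hmem => ?_⟩
      have : t ≤ T := hT hmem
      omega
    choose! T hT using h1
    refine ⟨(Finset.Icc (-(M : ℤ)) M).sup T, fun i hi t ht => ?_⟩
    have hi' : i ∈ Finset.Icc (-(M : ℤ)) M := by
      rw [Finset.mem_Icc]
      exact abs_le.1 hi
    have h3 : T i ≤ (Finset.Icc (-(M : ℤ)) M).sup T := Finset.le_sup hi'
    obtain ⟨t', rfl⟩ : ∃ t' : ℕ, t = t' := ⟨t.toNat, by omega⟩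
    exact hT i hi' t' (by omega)
  obtain ⟨T, hT⟩ := hT
  have hin : ∀ n : ℕ, ∃ y ∈ Y, AgX (R + 1) (S23.a (-((T + M + n : ℕ) : ℤ), ((T + M + n : ℕ) : ℤ)) c) y := by
    intro n
    by_contra hno
    have hz : S23.a (-((T + M + n : ℕ) : ℤ), ((T + M + n : ℕ) : ℤ)) c ∈ Uᶜ := by
      intro hzU
      obtain ⟨y, hy, hag⟩ := mem_iUnion₂.1 hzU
      exact hno ⟨y, hy, hag⟩
    obtain ⟨p, hp, hmem⟩ := mem_iUnion₂.1 (hs hz)
    have hle : p.1.natAbs + p.2.natAbs ≤ M := Finset.le_sup (f := fun p : ℤ × ℤ => p.1.natAbs + p.2.natAbs) hp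
    refine hT p.1 ?_ (p.2 + (T + M + n : ℕ)) ?_ ?_
    · rw [abs_le]
      omega
    · push_cast
      omega
    · rw [mem_preimage, ← S23.add] at hmem
      have e : ((p.1 - p.2, p.1 + p.2) : ℤ × ℤ) + (-((T + M + n : ℕ) : ℤ), ((T + M + n : ℕ) : ℤ)) =
          (p.1 - (p.2 + (T + M + n : ℕ)), p.1 + (p.2 + (T + M + n : ℕ))) := by
        ext <;> simp <;> ring
      rw [e] at hmem
      exact hmem
  choose y hy hag using hin
  have hstep : ∀ n, y (n + 1) = S23.a (-1, 1) (y n) := by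
    intro n
    apply hR _ (hy _) _ (hGY _ (hy _))
    have h1 := step_ag (hag n)
    have h2 := hag (n + 1)
    rw [← S23.add] at h1
    have e : ((-1 : ℤ), (1 : ℤ)) + (-((T + M + n : ℕ) : ℤ), ((T + M + n : ℕ) : ℤ)) =
        (-((T + M + (n + 1) : ℕ) : ℤ), ((T + M + (n + 1) : ℕ) : ℤ)) := by
      ext <;> simp <;> ring
    rw [e] at h1
    intro i j hi hj
    rw [← h1 i j hi hj, h2 i j (by omega) (by omega)]
  have hyn : ∀ n : ℕ, y n = S23.a (-n, n) (y 0) := by
    intro n
    induction n with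
    | zero =>
      have h0 : (-((0 : ℕ) : ℤ), ((0 : ℕ) : ℤ)) = (0 : ℤ × ℤ) := by simp
      rw [h0, S23.zero]
    | succ n ih =>
      rw [hstep, ih, ← S23.add]
      congr 1
      ext <;> simp <;> ring
  -- the limit is periodic
  obtain ⟨a, b, hab, heq⟩ : ∃ a b : ℕ, a < b ∧ y a = y b := by
    by_contra hno
    push Not at hno
    have hinj : Function.Injective y := by
      intro a b hab
      rcases lt_trichotomy a b with h | h | h
      · exact absurd hab (hno a b h)
      · exact h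
      · exact absurd hab.symm (hno b a h)
    exact (infinite_range_of_injective hinj) (hYf.subset (range_subset_iff.2 hy))
  have hper : S23.a (-((b - a : ℕ) : ℤ), ((b - a : ℕ) : ℤ)) (y a) = y a := by
    conv_rhs => rw [heq, hyn b]
    rw [hyn a, ← S23.add]
    congr 1
    ext
    · simp
      omega
    · simp
      omega
  have hV' := hV.iter (T + M + a)
  refine noPer hV' (by positivity) (k := b - a) (by omega) hper fun n => ?_
  have h1 := hag (a + n) 0 0 (by simp) (by simp)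
  have h2 : y (a + n) = S23.a (-n, n) (y a) := by
    rw [hyn (a + n), hyn a, ← S23.add]
    congr 1
    ext <;> simp <;> ring
  rw [h2, S23_apply, S23_apply] at h1
  simp only [add_zero] at h1
  have e1 : -((T + M + a : ℕ) : ℤ) + -(n : ℤ) = -((T + M + (a + n) : ℕ) : ℤ) := by push_cast; ring
  have e2 : ((T + M + a : ℕ) : ℤ) + (n : ℤ) = ((T + M + (a + n) : ℕ) : ℤ) := by push_cast; ring
  rw [S23_apply, ← h1]
  simp only
  rw [e1, e2]

end Pool.Agent.H48.M32
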