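import Pool.Agent.H48.M32.FurH
import Pool.Agent.H48.M32.Cfg

/-!
# Transitivity of the multiplication by `3 / 2`
-/

set_option autoImplicit false

namespace Pool.Agent.H48.M32

open Filter Topology Set
open Pool.Agent.H847R3.XpXq
open Pool.Agent.H48.CBR

/-- a nonempty open set contains a cylinder given by an interval of numbers -/
theorem cyl {O : Set XX} (hO : IsOpen O) (hne : O.Nonempty) : ∃ n0 : ℕ, ∀ n : ℕ, n0 ≤ n → ∃ lo hi : ℝ,
    0 ≤ lo ∧ lo < hi ∧ hi ≤ 1 ∧ ∀ z : XX, lo < EE z.1 (-n) (-n) → EE z.1 (-n) (-n) < hi → z ∈ O := by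
  obtain ⟨y, hy⟩ := hne
  obtain ⟨M0, hM0⟩ := exists_agX_subset hO hy
  refine ⟨M0, fun M hM => ?_⟩
  obtain ⟨lo, h0, h1, h⟩ := exists_int (2 * M + 1) fun k => (S23.a (-M, -M) y).1 k k
  refine ⟨lo, lo + 1 / 6 ^ (2 * M + 1), h0, by linarith [show (0 : ℝ) < 1 / 6 ^ (2 * M + 1) by positivity], h1,
    fun z hz1 hz2 => hM0 ?_⟩
  have hd : ∀ k < 2 * M + 1, (S23.a (-M, -M) z).1 k k = (S23.a (-M, -M) y).1 k k := by
    intro k hk
    have := h z.1 (-M) (-M) hz1 hz2 k hk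
    rw [← this, S23_apply]
  have hsq := det_square hd
  have hx : ∀ (x : XX) (i j : ℤ), x.1 i j = (S23.a (-M, -M) x).1 (M + i) (M + j) := by
    intro x i j
    have e1 : (-(M : ℤ)) + (M + i) = i := by ring
    have e2 : (-(M : ℤ)) + (M + j) = j := by ring
    rw [S23_apply]
    change x.1 i j = x.1 (-(M : ℤ) + (M + i)) (-(M : ℤ) + (M + j))
    rw [e1, e2]
  intro i j hi hj
  rw [hx z, hx y]
  obtain ⟨p, hp⟩ : ∃ p : ℕ, (M : ℤ) + i = p := ⟨((M : ℤ) + i).toNat, (Int.toNat_of_nonneg (by omega)).symm⟩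
  obtain ⟨q, hq⟩ : ∃ q : ℕ, (M : ℤ) + j = q := ⟨((M : ℤ) + j).toNat, (Int.toNat_of_nonneg (by omega)).symm⟩
  rw [hp, hq]
  rcases le_total p q with hpq | hpq
  · obtain ⟨s, rfl⟩ := Nat.exists_eq_add_of_le hpq
    have := (hsq s p (by omega)).2
    simpa using this
  · obtain ⟨s, rfl⟩ := Nat.exists_eq_add_of_le hpq
    have := (hsq s q (by omega)).1
    simpa using this

/-- every real number in `(0, 1)` is represented -/
theorem surj {u : ℝ} (h0 : 0 < u) (h1 : u < 1) : ∃ c : XX, EE c.1 0 0 = u := by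
  let C : CI S23 := { carrier := univ, closed := isClosed_univ, inv := fun _ _ _ => mem_univ _ }
  have hinf : ¬ (val '' C.carrier).Finite := fun h =>
    per_infinite ((finite_of_val h).subset (subset_univ _))
  have hclosed : IsClosed (val '' C.carrier) := (C.closed.isCompact.image cont_val).isClosed
  have hinv : Inv 2 3 (val '' C.carrier) := by
    rintro _ ⟨c, hc, rfl⟩
    constructor
    · refine ⟨S23.a (1, 0) c, C.inv _ _ hc, ?_⟩
      rw [val_a]
      have := two_coe c 0 0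
      simpa [val] using this.symm
    · refine ⟨S23.a (0, 1) c, C.inv _ _ hc, ?_⟩
      rw [val_a]
      have := three_coe c 0 0
      simpa [val] using this.symm
  have huniv := Pool.Agent.R477.XQ.furst (p := 2) (q := 3) le_rfl (by norm_num) irr23 hclosed hinv hinf
  have : (u : TT) ∈ val '' C.carrier := huniv ▸ mem_univ _
  obtain ⟨c, -, hc⟩ := this
  refine ⟨c, ?_⟩
  rcases coe_eq_cases (EE_nonneg _ _ _) (EE_le_one _ _ _) h0.le h1.le hc with h2 | ⟨-, h2⟩ | ⟨-, h2⟩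
  · exact h2
  · linarith
  · linarith

theorem pow_two_coe (c : XX) (t : ℕ) : ((EE c.1 t 0 : ℝ) : TT) = ((2 ^ t * EE c.1 0 0 : ℝ) : TT) := by
  induction t with
  | zero => simp
  | succ t ih =>
    have h1 := two_coe c t 0
    rw [ih, ← AddCircle.coe_nsmul, nsmul_eq_mul] at h1
    have e : ((t + 1 : ℕ) : ℤ) = (t : ℤ) + 1 := by push_cast; ring
    rw [e, ← h1]
    congr 1
    push_cast
    ring

theorem pow_three_coe (c : XX) (t : ℕ) : ((EE c.1 0 t : ℝ) : TT) = ((3 ^ t * EE c.1 0 0 : ℝ) : TT) := by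
  induction t with
  | zero => simp
  | succ t ih =>
    have h1 := three_coe c 0 t
    rw [ih, ← AddCircle.coe_nsmul, nsmul_eq_mul] at h1
    have e : ((t + 1 : ℕ) : ℤ) = (t : ℤ) + 1 := by push_cast; ring
    rw [e, ← h1]
    congr 1
    push_cast
    ring

/-- **transitivity** -/
theorem trans {O' O : Set XX} (hO' : IsOpen O') (hne' : O'.Nonempty) (hO : IsOpen O) (hne : O.Nonempty) :
    ∃ t : ℕ, ∃ z ∈ O', S23.a (-t, t) z ∈ O := by
  obtain ⟨n1, h1⟩ := cyl hO' hne'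
  obtain ⟨n2, h2⟩ := cyl hO hne
  set n := max n1 n2 with hn
  obtain ⟨lo1, hi1, a1, b1, c1, d1⟩ := h1 n (le_max_left _ _)
  obtain ⟨lo2, hi2, a2, b2, c2, d2⟩ := h2 n (le_max_right _ _)
  obtain ⟨t, ht⟩ := pow_unbounded_of_one_lt (2 / (hi1 - lo1)) (show (1 : ℝ) < 3 / 2 by norm_num)
  rw [div_lt_iff₀ (by linarith)] at ht
  set v2 : ℝ := (lo2 + hi2) / 2 with hv2
  set P : ℤ := ⌈(3 / 2 : ℝ) ^ t * lo1⌉ with hP
  have hP1 : (3 / 2 : ℝ) ^ t * lo1 ≤ P := Int.le_ceil _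
  have hP2 : (P : ℝ) < (3 / 2) ^ t * lo1 + 1 := Int.ceil_lt_add_one _
  have h3t : (0 : ℝ) < 3 ^ t := by positivity
  have h2t : (0 : ℝ) < 2 ^ t := by positivity
  have h23 : (3 / 2 : ℝ) ^ t = 3 ^ t / 2 ^ t := by rw [div_pow]
  set u : ℝ := (P + v2) / 3 ^ t with hu
  have e3 : 3 ^ t * u = P + v2 := by rw [hu]; field_simp
  have hlo : lo1 < 2 ^ t * u := by
    have : 3 ^ t / 2 ^ t * lo1 < P + v2 := by rw [← h23]; linarith
    rw [hu]
    rw [div_mul_eq_mul_div, div_lt_iff₀ h2t] at this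
    rw [mul_div_assoc', lt_div_iff₀ h3t]
    linarith
  have hhi : 2 ^ t * u < hi1 := by
    have h5 : P + v2 < 3 ^ t / 2 ^ t * hi1 := by
      rw [← h23]
      have : (3 / 2 : ℝ) ^ t * (hi1 - lo1) = (3 / 2) ^ t * hi1 - (3 / 2) ^ t * lo1 := by ring
      linarith
    rw [hu]
    rw [div_mul_eq_mul_div, lt_div_iff₀ h2t] at h5
    rw [mul_div_assoc', div_lt_iff₀ h3t]
    linarith
  have hu0 : 0 < u := by
    by_contra hneg
    push Not at hneg
    nlinarith
  have hu1 : u < 1 := by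
    have : (1 : ℝ) ≤ 2 ^ t := one_le_pow₀ (by norm_num)
    nlinarith
  obtain ⟨c, hc⟩ := surj hu0 hu1
  have hv3 : EE c.1 0 t = v2 := by
    have h6 := pow_three_coe c t
    rw [hc, e3, AddCircle.coe_add] at h6
    have h8 : ((P : ℝ) : TT) = 0 := by
      rw [AddCircle.coe_eq_zero_iff]
      exact ⟨P, by simp⟩
    rw [h8, zero_add] at h6
    rcases coe_eq_cases (EE_nonneg _ _ _) (EE_le_one _ _ _) (by linarith) (by linarith) h6 with h7 | ⟨-, h7⟩ | ⟨-, h7⟩
    · exact h7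
    · linarith
    · linarith
  refine ⟨t, S23.a (n + t, n) c, d1 _ ?_ ?_, d2 _ ?_ ?_⟩
  all_goals rw [EE_a]
  rotate_left 2
  all_goals try rw [EE_a]
  all_goals simp only
  rotate_left 2
  · have e1 : (n : ℤ) + t + -n = t := by ring
    have e2 : (n : ℤ) + -n = 0 := by ring
    rw [e1, e2]
    have h6 := pow_two_coe c t
    rw [hc] at h6
    rcases coe_eq_cases (EE_nonneg _ _ _) (EE_le_one _ _ _) (by linarith) (by linarith) h6 with h7 | ⟨-, h7⟩ | ⟨-, h7⟩
    · rw [h7]; exact hlo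
    · linarith
    · linarith
  · have e1 : (n : ℤ) + t + -n = t := by ring
    have e2 : (n : ℤ) + -n = 0 := by ring
    rw [e1, e2]
    have h6 := pow_two_coe c t
    rw [hc] at h6
    rcases coe_eq_cases (EE_nonneg _ _ _) (EE_le_one _ _ _) (by linarith) (by linarith) h6 with h7 | ⟨-, h7⟩ | ⟨-, h7⟩
    · rw [h7]; exact hhi
    · linarith
    · linarith
  · have e1 : (n : ℤ) + t + (-t + -n) = 0 := by ring
    have e2 : (n : ℤ) + (t + -n) = t := by ring
    rw [e1, e2, hv3]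
    linarith
  · have e1 : (n : ℤ) + t + (-t + -n) = 0 := by ring
    have e2 : (n : ℤ) + (t + -n) = t := by ring
    rw [e1, e2, hv3]
    linarith

end Pool.Agent.H48.M32
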