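import Pool.Agent.H48.M32.Syn
import Pool.Agent.H48.M32.Trans

/-!
# Long blocks of cells at which a word recurs
-/

set_option autoImplicit false

namespace Pool.Agent.H48.M32

open Filter Topology Set
open Pool.Agent.H847R3.XpXq
open Pool.Agent.H48.CBR

/-- an orbit is not absorbed by a finite invariant set -/
theorem absorb {Y : Set XX} (hYf : Y.Finite) (hGY : ∀ y ∈ Y, S23.a (-1, 1) y ∈ Y) :
    ∃ U : Set XX, IsOpen U ∧ Y ⊆ U ∧ ∀ (c : XX) (V : ℝ), IsV c V → 0 < V → ∀ T : ℕ,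
      ∃ s : ℕ, T ≤ s ∧ S23.a (-s, s) c ∉ U := by
  obtain ⟨R, hR⟩ := exists_sep hYf
  set U : Set XX := ⋃ y ∈ Y, {z | AgX (R + 1) z y} with hU
  have hUo : IsOpen U := isOpen_biUnion fun y _ => isOpen_agX _ _
  refine ⟨U, hUo, fun y hy => mem_iUnion₂.2 ⟨y, hy, fun _ _ _ _ => rfl⟩, fun c V hV hpos T => ?_⟩
  by_contra hcon
  push Not at hcon
  have hin : ∀ n : ℕ, ∃ y ∈ Y, AgX (R + 1) (S23.a (-((T + n : ℕ) : ℤ), ((T + n : ℕ) : ℤ)) c) y := by
    intro n
    obtain ⟨y, hy, hag⟩ := mem_iUnion₂.1 (hcon (T + n) (by omega))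
    exact ⟨y, hy, hag⟩
  choose y hy hag using hin
  have hstep : ∀ n, y (n + 1) = S23.a (-1, 1) (y n) := by
    intro n
    apply hR _ (hy _) _ (hGY _ (hy _))
    have h1 := step_ag (hag n)
    have h2 := hag (n + 1)
    rw [← S23.add] at h1
    have e : ((-1 : ℤ), (1 : ℤ)) + (-((T + n : ℕ) : ℤ), ((T + n : ℕ) : ℤ)) =
        (-((T + (n + 1) : ℕ) : ℤ), ((T + (n + 1) : ℕ) : ℤ)) := by
      ext <;> simp <;> ring
    rw [e] at h1
    intro i j hi hj
    rw [← h1 i j hi hj, h2 i j (by omega) (by omega)]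
  have hyn : ∀ n : ℕ, y n = S23.a (-n, n) (y 0) := by
    intro n
    induction n with
    | zero =>
      have h0 : (-((0 : ℕ) : ℤ), ((0 : ℕ) : ℤ)) = (0 : ℤ × ℤ) := by simp
      rw [h0, S23.zero]
    | succ n ih =>
      rw [hstep, ih, ← S23.add]
      congr 1
      ext <;> simp <;> ring
  obtain ⟨a, b, hab, heq⟩ : ∃ a b : ℕ, a < b ∧ y a = y b := by
    by_contra hno
    push Not at hno
    have hinj : Function.Injective y := by
      intro a b hab
      rcases lt_trichotomy a b with h | h | h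
      · exact absurd hab (hno a b h)
      · exact h
      · exact absurd hab.symm (hno b a h)
    exact (infinite_range_of_injective hinj) (hYf.subset (range_subset_iff.2 hy))
  have hper : S23.a (-((b - a : ℕ) : ℤ), ((b - a : ℕ) : ℤ)) (y a) = y a := by
    conv_rhs => rw [heq, hyn b]
    rw [hyn a, ← S23.add]
    congr 1
    ext
    · simp
      omega
    · simp
      omega
  have hV' := hV.iter (T + a)
  refine noPer hV' (by positivity) (k := b - a) (by omega) hper fun n => ?_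
  have h1 := hag (a + n) 0 0 (by simp) (by simp)
  have h2 : y (a + n) = S23.a (-n, n) (y a) := by
    rw [hyn (a + n), hyn a, ← S23.add]
    congr 1
    ext <;> simp
    ring
  rw [h2, S23_apply, S23_apply] at h1
  simp only [add_zero] at h1
  have e1 : -((T + a : ℕ) : ℤ) + -(n : ℤ) = -((T + (a + n) : ℕ) : ℤ) := by push_cast; ring
  have e2 : ((T + a : ℕ) : ℤ) + (n : ℤ) = ((T + (a + n) : ℕ) : ℤ) := by push_cast; ring
  rw [S23_apply, ← h1]
  simp only
  rw [e1, e2]

/-- `O` is visited infinitely often at the cell `i` -/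
def At (O : Set XX) (c : XX) (i : ℤ) : Prop := {t : ℕ | S23.a (i - t, i + t) c ∈ O}.Infinite

theorem a_a (m1 m2 n1 n2 : ℤ) (z : XX) : S23.a (m1, m2) (S23.a (n1, n2) z) = S23.a (m1 + n1, m2 + n2) z :=
  (S23.add (m1, m2) (n1, n2) z).symm

theorem a_zero (z : XX) : S23.a (0, 0) z = z := S23.zero z

/-- **a word recurs at all cells of a long block** -/
theorem thick {O : Set XX} (hO : IsOpen O) (hne : O.Nonempty) (M : ℕ) : ∃ R : ℕ, ∀ (c : XX) (V : ℝ),
    IsV c V → 0 < V → ∃ i : ℤ, |i| ≤ R ∧ ∀ j : ℕ, j ≤ M → At O c (i + j) := by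
  by_contra hcon
  push Not at hcon
  choose c V hV hpos hbad using hcon
  -- the cells at which `O` is not visited any more
  choose! J hJM hJ using hbad
  have hT : ∀ R : ℕ, ∃ T : ℕ, ∀ i : ℤ, |i| ≤ R → ∀ t : ℤ, (T : ℤ) ≤ t →
      S23.a (i + J R i - t, i + J R i + t) (c R) ∉ O := by
    intro R
    have h1 : ∀ i ∈ Finset.Icc (-(R : ℤ)) R, ∃ T : ℕ, ∀ t : ℕ, T ≤ t →
        S23.a (i + J R i - t, i + J R i + t) (c R) ∉ O := by
      intro i hi
      rw [Finset.mem_Icc] at hi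
      have h2 := hJ R i (abs_le.2 hi)
      unfold At at h2
      rw [Set.not_infinite] at h2
      obtain ⟨T, hT⟩ := h2.bddAbove
      refine ⟨T + 1, fun t ht hmem => ?_⟩
      have : t ≤ T := hT hmem
      omega
    choose! T hT using h1
    refine ⟨(Finset.Icc (-(R : ℤ)) R).sup T, fun i hi t ht => ?_⟩
    have hi' : i ∈ Finset.Icc (-(R : ℤ)) R := by
      rw [Finset.mem_Icc]
      exact abs_le.1 hi
    have h3 : T i ≤ (Finset.Icc (-(R : ℤ)) R).sup T := Finset.le_sup hi'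
    obtain ⟨t', rfl⟩ : ∃ t' : ℕ, t = t' := ⟨t.toNat, by omega⟩
    exact hT i hi' t' (by omega)
  choose T hT using hT
  -- a convergent subsequence of the positions
  obtain ⟨Jlim, φ, hφ, hlim⟩ := CompactSpace.tendsto_subseq
    (fun R : ℕ => fun i : ℤ => (⟨min (J R i) M, by omega⟩ : Fin (M + 1)))
  have hev : ∀ i : ℤ, ∀ᶠ k in atTop, min (J (φ k) i) M = (Jlim i : ℕ) := by
    intro i
    have h1 := (tendsto_pi_nhds.1 hlim i).eventually (IsOpen.mem_nhds (isOpen_discrete {Jlim i}) rfl)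
    filter_upwards [h1] with k hk
    have h2 : (⟨min (J (φ k) i) M, by omega⟩ : Fin (M + 1)) = Jlim i := hk
    exact congrArg Fin.val h2
  -- the limit set
  set En : ℕ → Set XX := fun n => {z | ∃ k s : ℕ, n ≤ k ∧ T (φ k) + n ≤ s ∧ z = S23.a (-s, s) (c (φ k))} with hEn
  set K : Set XX := ⋂ n, closure (En n) with hK
  have hanti : ∀ m n : ℕ, m ≤ n → En n ⊆ En m := by
    rintro m n hmn z ⟨k, s, h1, h2, h3⟩
    exact ⟨k, s, by omega, by omega, h3⟩
  have hKcl : IsClosed K := isClosed_iInter fun n => isClosed_closure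
  have hKf : ∀ z ∈ K, S23.a (-1, 1) z ∈ K := by
    intro z hz
    refine mem_iInter.2 fun n => ?_
    refine map_mem_closure (S23.cont (-1, 1)) (mem_iInter.1 hz n) ?_
    rintro _ ⟨k, s, h1, h2, rfl⟩
    refine ⟨k, s + 1, h1, by omega, ?_⟩
    rw [a_a]
    congr 1
    ext <;> push_cast <;> ring
  have hKb : ∀ z ∈ K, S23.a (1, -1) z ∈ K := by
    intro z hz
    refine mem_iInter.2 fun n => ?_
    refine map_mem_closure (S23.cont (1, -1)) (mem_iInter.1 hz (n + 1)) ?_
    rintro _ ⟨k, s, h1, h2, rfl⟩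
    refine ⟨k, s - 1, by omega, by omega, ?_⟩
    rw [a_a]
    congr 1
    have : ((s - 1 : ℕ) : ℤ) = s - 1 := by push_cast [show 1 ≤ s by omega]; ring
    ext <;> rw [this] <;> ring
  have hKt : ∀ t : ℤ, ∀ z ∈ K, S23.a (-t, t) z ∈ K := by
    intro t
    induction t using Int.induction_on with
    | zero =>
      intro z hz
      rw [neg_zero, a_zero]
      exact hz
    | succ n ih =>
      intro z hz
      have := hKf _ (ih z hz)
      rw [a_a] at this
      convert this using 3 <;> ring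
    | pred n ih =>
      intro z hz
      have := hKb _ (ih z hz)
      rw [a_a] at this
      convert this using 3 <;> ring
  have hKinf : K.Infinite := by
    intro hfin
    obtain ⟨U, hUo, hKU, hU⟩ := absorb hfin hKf
    obtain ⟨n, hn⟩ := exists_subset_nhds_of_isCompact' (V := fun n => closure (En n))
      (directed_of_isDirected_le fun m n hmn => closure_mono (hanti m n hmn))
      (fun n => isClosed_closure.isCompact) (fun n => isClosed_closure) (U := U)
      (fun x hx => hUo.mem_nhds (hKU hx))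
    obtain ⟨s, hs1, hs2⟩ := hU (c (φ n)) (V (φ n)) (hV _) (hpos _) (T (φ n) + n)
    exact hs2 (hn (subset_closure ⟨n, s, le_rfl, hs1, rfl⟩))
  -- the cells at which `O` is missed by the limit set
  set P : Set ℤ := {p | ∀ z ∈ K, ∀ t : ℤ, S23.a (p - t, p + t) z ∉ O} with hP
  have hPsyn : ∀ i : ℤ, ∃ j : ℕ, j ≤ M ∧ i + j ∈ P := by
    intro i
    refine ⟨Jlim i, by omega, fun z hz t hmem => ?_⟩
    obtain ⟨n1, hn1⟩ := eventually_atTop.1 (hev i)
    set n : ℕ := n1 + i.natAbs + t.natAbs with hn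
    have hz' := mem_iInter.1 hz n
    rw [mem_closure_iff] at hz'
    obtain ⟨y, hyO, k, s, h1, h2, rfl⟩ := hz' (S23.a (i + (Jlim i : ℕ) - t, i + (Jlim i : ℕ) + t) ⁻¹' O)
      (hO.preimage (S23.cont _)) hmem
    rw [mem_preimage, a_a] at hyO
    have hk := hφ.id_le k
    simp only [id] at hk
    have hi : |i| ≤ ((φ k : ℕ) : ℤ) := by
      rw [Int.abs_eq_natAbs]
      omega
    have hJk : J (φ k) i = (Jlim i : ℕ) := by
      have := hn1 k (by omega)
      have h5 := hJM (φ k) i hi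
      omega
    apply hT (φ k) i hi (t + s) (by omega)
    rw [hJk]
    convert hyO using 3 <;> ring
  -- the translates cover everything
  set C : Set XX := closure {z | ∃ i : ℤ, ∃ y ∈ K, z = S23.a (i, i) y} with hC
  have hCinv : ∀ z ∈ C, ∀ i t : ℤ, S23.a (i - t, i + t) z ∈ C := by
    intro z hz i t
    refine map_mem_closure (S23.cont _) hz ?_
    rintro _ ⟨i', y, hy, rfl⟩
    refine ⟨i + i', S23.a (-t, t) y, hKt t y hy, ?_⟩
    rw [a_a, a_a]
    congr 1
    ext <;> simp only <;> ring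
  have hCuniv : C = univ := by
    by_contra hne
    refine hKinf ((finiteH isClosed_closure hCinv hne).subset fun y hy => subset_closure ⟨0, y, hy, ?_⟩)
    rw [a_zero]
  set D : Set XX := closure {z | ∃ p ∈ P, ∃ y ∈ K, z = S23.a (p, p) y} with hD
  have hDO : ∀ z ∈ D, z ∉ O := by
    intro z hz hzO
    obtain ⟨y, hyO, p, hp, y', hy', rfl⟩ := mem_closure_iff.1 hz O hO hzO
    have := hp y' hy' 0
    rw [sub_zero, add_zero] at this
    exact this hyO
  have hDt : ∀ t : ℕ, ∀ z ∈ D, S23.a (-t, t) z ∈ D := by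
    intro t z hz
    refine map_mem_closure (S23.cont _) hz ?_
    rintro _ ⟨p, hp, y, hy, rfl⟩
    refine ⟨p, hp, S23.a (-t, t) y, hKt t y hy, ?_⟩
    rw [a_a, a_a]
    congr 1
    ext <;> simp only <;> ring
  have hcover : (⋃ j : Fin (M + 1), S23.a (-((j : ℕ) : ℤ), -((j : ℕ) : ℤ)) '' D) = univ := by
    have hcl : IsClosed (⋃ j : Fin (M + 1), S23.a (-((j : ℕ) : ℤ), -((j : ℕ) : ℤ)) '' D) :=
      isClosed_iUnion_of_finite fun j => (isClosed_closure.isCompact.image (S23.cont _)).isClosed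
    rw [← univ_subset_iff, ← hCuniv]
    refine closure_minimal ?_ hcl
    rintro _ ⟨i, y, hy, rfl⟩
    obtain ⟨j, hj, hjP⟩ := hPsyn i
    refine mem_iUnion.2 ⟨⟨j, by omega⟩, S23.a (i + j, i + j) y, subset_closure ⟨i + j, hjP, y, hy, rfl⟩, ?_⟩
    rw [a_a]
    congr 1
    ext <;> simp
  have hXne : Nonempty XX := ⟨hne.some⟩
  obtain ⟨j, v, hv⟩ := nonempty_interior_of_iUnion_of_closed
    (fun j : Fin (M + 1) => (isClosed_closure.isCompact.image (S23.cont _)).isClosed) hcover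
  -- an open subset of `D`
  set O' : Set XX := S23.a (-((j : ℕ) : ℤ), -((j : ℕ) : ℤ)) ⁻¹'
    (interior (S23.a (-((j : ℕ) : ℤ), -((j : ℕ) : ℤ)) '' D)) with hO'
  have hO'o : IsOpen O' := isOpen_interior.preimage (S23.cont _)
  have hcancel : ∀ x : XX, S23.a (((j : ℕ) : ℤ), ((j : ℕ) : ℤ)) (S23.a (-((j : ℕ) : ℤ), -((j : ℕ) : ℤ)) x) = x := by
    intro x
    rw [a_a, add_neg_cancel, a_zero]
  have hO'D : O' ⊆ D := by
    intro x hx
    obtain ⟨d, hd, hdx⟩ := interior_subset hx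
    have := congrArg (S23.a (((j : ℕ) : ℤ), ((j : ℕ) : ℤ))) hdx
    rw [hcancel, hcancel] at this
    rwa [← this]
  have hO'ne : O'.Nonempty := by
    refine ⟨S23.a (((j : ℕ) : ℤ), ((j : ℕ) : ℤ)) v, ?_⟩
    rw [hO', mem_preimage, a_a, neg_add_cancel, a_zero]
    exact hv
  obtain ⟨t, z, hz, hzO⟩ := trans hO'o hO'ne hO hne
  exact hDO _ (hDt t z (hO'D hz)) hzO

end Pool.Agent.H48.M32
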