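import Pool.Agent.H48.M32.Trans
import Pool.Agent.H48.M32.Syn
import Pool.Agent.H48.M32.Mult

/-!
# Bounded time windows
-/

set_option autoImplicit false

namespace Pool.Agent.H48.M32

open Filter Topology Set
open Pool.Agent.H48.CBR

theorem comp_a (m1 m2 n1 n2 : ℤ) (z : XX) : S23.a (m1, m2) (S23.a (n1, n2) z) = S23.a (m1 + n1, m2 + n2) z :=
  (S23.add (m1, m2) (n1, n2) z).symm

/-- an open set all of whose points visit finitely many given open sets in bounded time -/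
theorem univ_open {ι : Type} [DecidableEq ι] (O : ι → Set XX) (hO : ∀ w, IsOpen (O w)) (hne : ∀ w, (O w).Nonempty)
    (s : Finset ι) : ∃ (R : ℕ) (U : Set XX), IsOpen U ∧ U.Nonempty ∧
      ∀ z ∈ U, ∀ w ∈ s, ∃ t : ℕ, t ≤ R ∧ S23.a (-t, t) z ∈ O w := by
  induction s using Finset.induction_on with
  | empty => exact ⟨0, univ, isOpen_univ, ⟨ext 0, mem_univ _⟩, by simp⟩
  | insert w s _ ih =>
    obtain ⟨R, U, hUo, hUne, hU⟩ := ih
    obtain ⟨t, z, hz, hzt⟩ := trans hUo hUne (hO w) (hne w)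
    refine ⟨max R t, U ∩ S23.a (-t, t) ⁻¹' O w, hUo.inter ((hO w).preimage (S23.cont _)), ⟨z, hz, hzt⟩, ?_⟩
    rintro y ⟨hyU, hyt⟩ w' hw'
    rw [Finset.mem_insert] at hw'
    rcases hw' with rfl | hw'
    · exact ⟨t, le_max_right _ _, hyt⟩
    · obtain ⟨t', h1, h2⟩ := hU y hyU w' hw'
      exact ⟨t', h1.trans (le_max_left _ _), h2⟩

/-- the cylinder of a word -/
def Cyl {L : ℕ} (w : Fin L → Fin 6) : Set XX := {z | ∀ s : Fin L, z.1 (s : ℕ) (s : ℕ) = w s}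

theorem Cyl_open {L : ℕ} (w : Fin L → Fin 6) : IsOpen (Cyl w) := by
  have : Cyl w = ⋂ s : Fin L, {z : XX | z.1 (s : ℕ) (s : ℕ) = w s} := by
    ext z
    simp [Cyl]
  rw [this]
  exact isOpen_iInter_of_finite fun s => (isOpen_discrete ({w s} : Set (Fin 6))).preimage (cont_eval _ _)

theorem Cyl_nonempty {L : ℕ} (w : Fin L → Fin 6) : (Cyl w).Nonempty := by
  refine ⟨ext fun i => if h : i.toNat < L then w ⟨i.toNat, h⟩ else 0, fun s => ?_⟩
  rw [ext_diag]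
  simp

theorem mem_Cyl {L : ℕ} (x : ℤ → Fin 6) (w : Fin L → Fin 6) (j : ℤ) (t : ℕ) :
    S23.a (j - t, j + t) (ext x) ∈ Cyl w ↔ Shows (F32^[t] x) w j := by
  constructor
  · intro h s
    have h1 := h s
    rw [S23_apply] at h1
    simp only at h1
    rw [F32_iter, ← h1, show j + ((s : ℕ) : ℤ) - t = j - t + (s : ℕ) by ring,
      show j + ((s : ℕ) : ℤ) + t = j + t + (s : ℕ) by ring]
  · intro h s
    have h1 := h s
    rw [F32_iter] at h1
    rw [S23_apply]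
    simp only
    rw [← h1, show j + ((s : ℕ) : ℤ) - t = j - t + (s : ℕ) by ring,
      show j + ((s : ℕ) : ℤ) + t = j + t + (s : ℕ) by ring]

/-- the universal open set for the words of length `L` -/
theorem univ_words (L : ℕ) : ∃ (R : ℕ) (U : Set XX), IsOpen U ∧ U.Nonempty ∧
    ∀ z ∈ U, ∀ w : Fin L → Fin 6, ∃ t : ℕ, t ≤ R ∧ S23.a (-t, t) z ∈ Cyl w := by
  classical
  obtain ⟨R, U, h1, h2, h3⟩ := univ_open (fun w : Fin L → Fin 6 => Cyl w) Cyl_open Cyl_nonempty Finset.univ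
  exact ⟨R, U, h1, h2, fun z hz w => h3 z hz w (Finset.mem_univ w)⟩

/-- **all words at one cell in a bounded time window** -/
theorem winOne (L : ℕ) : ∃ M R : ℕ, ∀ x : ℤ → Fin 6, x ≠ 0 → (∃ m : ℤ, ∀ i < m, x i = 0) → ∀ c : ℤ,
    ∃ j : ℤ, c ≤ j ∧ j ≤ c + M ∧
      {T : ℕ | ∀ w : Fin L → Fin 6, ∃ t : ℕ, T ≤ t ∧ t ≤ T + R ∧ Shows (F32^[t] x) w j}.Infinite := by
  obtain ⟨R, U, hUo, hUne, hU⟩ := univ_words L
  obtain ⟨M, hM⟩ := main hUo hUne
  refine ⟨2 * M, R, fun x hx hl c => ?_⟩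
  obtain ⟨V, hV, hIV⟩ := ext_isV hx hl
  obtain ⟨i, hi, hinf⟩ := hM _ _ (hIV.diag (c + M)) (by positivity)
  rw [abs_le] at hi
  refine ⟨i + (c + M), by omega, by push_cast; omega, hinf.mono ?_⟩
  intro T hT w
  have hT' : S23.a (i - T, i + T) (S23.a (c + M, c + M) (ext x)) ∈ U := hT
  obtain ⟨t, ht, htw⟩ := hU _ hT' w
  refine ⟨T + t, by omega, by omega, ?_⟩
  rw [← mem_Cyl]
  rw [comp_a, comp_a] at htw
  have e : ((-(t : ℤ) + (i - T) + (c + M), (t : ℤ) + (i + T) + (c + M)) : ℤ × ℤ) =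
      (i + (c + M) - ((T + t : ℕ) : ℤ), i + (c + M) + ((T + t : ℕ) : ℤ)) := by
    ext <;> push_cast <;> ring
  rw [e] at htw
  exact htw

/-- a nonempty open set contains the cylinder of a word placed around the origin -/
theorem word_of_open {U : Set XX} (hU : IsOpen U) (hne : U.Nonempty) : ∃ (k L' : ℕ) (W : Fin L' → Fin 6),
    ∀ z : XX, (∀ s : Fin L', z.1 (-k + (s : ℕ)) (-k + (s : ℕ)) = W s) → z ∈ U := by
  obtain ⟨y, hy⟩ := hne
  obtain ⟨M, hM⟩ := exists_agX_subset hU hy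
  refine ⟨M, 2 * M + 1, fun s => y.1 (-M + (s : ℕ)) (-M + (s : ℕ)), fun z hz => hM ?_⟩
  have hd : ∀ k < 2 * M + 1, (S23.a (-M, -M) z).1 k k = (S23.a (-M, -M) y).1 k k := by
    intro k hk
    have := hz ⟨k, hk⟩
    rw [S23_apply, S23_apply]
    exact this
  have hsq := det_square hd
  have hx : ∀ (x : XX) (i j : ℤ), x.1 i j = (S23.a (-M, -M) x).1 (M + i) (M + j) := by
    intro x i j
    have e1 : (-(M : ℤ)) + (M + i) = i := by ring
    have e2 : (-(M : ℤ)) + (M + j) = j := by ring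
    rw [S23_apply]
    change x.1 i j = x.1 (-(M : ℤ) + (M + i)) (-(M : ℤ) + (M + j))
    rw [e1, e2]
  intro i j hi hj
  rw [hx z, hx y]
  obtain ⟨p, hp⟩ : ∃ p : ℕ, (M : ℤ) + i = p := ⟨((M : ℤ) + i).toNat, (Int.toNat_of_nonneg (by omega)).symm⟩
  obtain ⟨q, hq⟩ : ∃ q : ℕ, (M : ℤ) + j = q := ⟨((M : ℤ) + j).toNat, (Int.toNat_of_nonneg (by omega)).symm⟩
  rw [hp, hq]
  rcases le_total p q with hpq | hpq
  · obtain ⟨s, rfl⟩ := Nat.exists_eq_add_of_le hpq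
    have := (hsq s p (by omega)).2
    simpa using this
  · obtain ⟨s, rfl⟩ := Nat.exists_eq_add_of_le hpq
    have := (hsq s q (by omega)).1
    simpa using this

/-- a long word whose presence forces all words of length `L` at a later time -/
theorem univ_word (L : ℕ) : ∃ (R k L' : ℕ), ∀ (x : ℤ → Fin 6) (c : ℤ), Good L' x (c - k) →
    {T : ℕ | ∀ w : Fin L → Fin 6, ∃ t : ℕ, T ≤ t ∧ t ≤ T + R ∧ Shows (F32^[t] x) w c}.Infinite := by
  obtain ⟨R, U, hUo, hUne, hU⟩ := univ_words L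
  obtain ⟨k, L', W, hW⟩ := word_of_open hUo hUne
  refine ⟨R, k, L', fun x c hg => (hg W).mono ?_⟩
  intro T hT w
  have hT' : Shows (F32^[T] x) W (c - k) := hT
  rw [← mem_Cyl] at hT'
  have hmem : S23.a (c - T, c + T) (ext x) ∈ U := by
    apply hW
    intro s
    have h1 := hT' s
    rw [S23_apply] at h1 ⊢
    simp only at h1 ⊢
    rw [← h1]
    rw [show c - (T : ℤ) + (-k + (s : ℕ)) = c - k - T + (s : ℕ) by ring,
      show c + (T : ℤ) + (-k + (s : ℕ)) = c - k + T + (s : ℕ) by ring]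
  obtain ⟨t, ht, htw⟩ := hU _ hmem w
  refine ⟨T + t, by omega, by omega, ?_⟩
  rw [← mem_Cyl]
  rw [comp_a] at htw
  have e : ((-(t : ℤ) + (c - T), (t : ℤ) + (c + T)) : ℤ × ℤ) =
      (c - ((T + t : ℕ) : ℤ), c + ((T + t : ℕ) : ℤ)) := by
    ext <;> push_cast <;> ring
  rw [e] at htw
  exact htw

/-- **all words at a given cell in a bounded time window, for most multiples** -/
theorem winMult (L : ℕ) : ∃ R : ℕ, ∀ δ : ℝ, 0 < δ → ∃ N₀ : ℕ, ∀ a : ℕ, 0 < a → ∀ (c : ℤ) (A N : ℕ), N₀ ≤ N →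
    ({m : ℕ | A ≤ m ∧ m < A + N ∧ ¬ {T : ℕ | ∀ w : Fin L → Fin 6, ∃ t : ℕ, T ≤ t ∧ t ≤ T + R ∧
      Shows (F32^[t] (cfg (m * a))) w c}.Infinite}.ncard : ℝ) ≤ δ * N := by
  obtain ⟨R, k, L', h⟩ := univ_word L
  refine ⟨R, fun δ hδ => ?_⟩
  obtain ⟨N₀, hN₀⟩ := mult L' δ hδ
  refine ⟨N₀, fun a ha c A N hN => le_trans ?_ (hN₀ a ha (c - k) A N hN)⟩
  have hfin : {m : ℕ | A ≤ m ∧ m < A + N ∧ ¬ Good L' (cfg (m * a)) (c - k)}.Finite :=
    (finite_Iio (A + N)).subset fun m hm => hm.2.1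
  have hsub : {m : ℕ | A ≤ m ∧ m < A + N ∧ ¬ {T : ℕ | ∀ w : Fin L → Fin 6, ∃ t : ℕ, T ≤ t ∧ t ≤ T + R ∧
      Shows (F32^[t] (cfg (m * a))) w c}.Infinite} ⊆ {m : ℕ | A ≤ m ∧ m < A + N ∧ ¬ Good L' (cfg (m * a)) (c - k)} :=
    fun m hm => ⟨hm.1, hm.2.1, fun hg => hm.2.2 (h _ _ hg)⟩
  exact_mod_cast ncard_le_ncard hsub hfin

end Pool.Agent.H48.M32
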